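import Pool.Agent.H891.OM.LogDefs

/-! Asymptotic orders of vanishing: definitions. -/

set_option autoImplicit false
set_option linter.overlappingInstances false
set_option linter.unusedSectionVars false

open FF IntermediateField Pool.Agent.W619.PQ Pool.Agent.W619.TW Pool.Agent.Y174

namespace Pool.Agent.H891.OM

section

variable {k K L : Type} [Field k] [Field K] [Field L] [Algebra k K] [Algebra K L] [Algebra k L]

/-- The centre on `V'` of the divisor `w` over `V'` contains the point `x'`: the functions which are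
regular at `x'` have no pole along `w`, and those which are not zero at `x'` have order `0` along `w`. -/
def CentreThrough (R : Subalgebra k L) (ε : R →ₐ[k] k) (w : Place k L) : Prop :=
  (∀ a ∈ R, 0 ≤ w.ord a) ∧ ∀ a, NonzeroAt R ε a → w.ord a = 0

/-- The asymptotic order of vanishing of `K_V + Δ` along `w` is at most `α`. Here `w` is a divisor over
`V'` whose centre contains `x'`, `H` is a frame of the (logarithmic) vector fields of `(V', Δ')` at `x'`,
and `K_V + Δ` pulls back to `K_V' + Δ'`. So the order along `w` of a section `ω` of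
`m (K_V + Δ)`, i.e. of the pull-back of its divisor of zeros, is the order of the value of the
pull-back of `ω` on `H`. -/
def AsymLe {n : ℕ} (H : Fin n → Derivation k L L) (δ : Place k K → ℝ) (w : Place k L) (α : ℝ) :
    Prop :=
  ∀ ε : ℝ, 0 < ε → ∃ m : ℕ, 1 ≤ m ∧ ∃ ω, PairSec k K n δ {1} m 0 ω ∧
    ∀ (y₀ : Fin n → K) (E : Fin n → Derivation k K K), IsDualFrame y₀ E →
      pullVal H y₀ E m ω ≠ 0 ∧ (w.ord (pullVal H y₀ E m ω) : ℝ) ≤ m * (α + ε)

/-- Let `φ` be the multivalued map of `V` to the variety with the function field `M`. The average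
over the branches `φ σ` of the asymptotic order of vanishing of `φ σ^* (K_M + Δ_M)` along `w`
is at most `α`: for all `ε > 0` there are `m ≥ 1` and a section `η ≠ 0` of `m (K_M + Δ_M)` such that the
average of the orders of the values `det (P σ) ^ m * σ (η (F))` of `η` in the charts at the images of
the point `x'` is at most `m (α + ε)`. -/
def AsymImLe [FiniteDimensional K L] {M : IntermediateField k L} {y : ℕ}
    (P : (L ≃ₐ[K] L) → Matrix (Fin y) (Fin y) L) (F : Fin y → Derivation k M M)
    (δM : Place k M → ℝ) (w : Place k L) (α : ℝ) : Prop :=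
  ∀ ε : ℝ, 0 < ε → ∃ m : ℕ, 1 ≤ m ∧ ∃ η, PairSec k M y δM {1} m 0 η ∧
    (∀ σ : L ≃ₐ[K] L, (P σ).det ^ m * σ (η F : L) ≠ 0) ∧
    ∑ σ : L ≃ₐ[K] L, (w.ord ((P σ).det ^ m * σ (η F : L)) : ℝ) ≤
      Nat.card (L ≃ₐ[K] L) * (m * (α + ε))

end

end Pool.Agent.H891.OM
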