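import Pool.Agent.H891.OM.LogPoint
import Pool.Agent.H891.OM.AsymDefs

/-! Asymptotic orders of vanishing. -/

set_option autoImplicit false
set_option linter.overlappingInstances false
set_option linter.unusedSectionVars false

open FF IntermediateField Pool.Agent.W619.PQ Pool.Agent.W619.PL Pool.Agent.W619.TW
  Pool.Agent.W603.LV Pool.Agent.W619.Y Pool.Agent.Y174 Pool.Agent.W824.PG Pool.Agent.H891.BL
  Pool.Agent.H891.RH
open scoped Matrix Kronecker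

namespace Pool.Agent.H891.OM

section

variable {k : Type} {K : Type} [Field k] [Field K] [Algebra k K] [CharZero k]
  {L : IntermediateField K (AlgebraicClosure K)} {r n : ℕ} {c y : Fin r → ℕ}
  {Y : Fin r → IntermediateField k L} [FiniteDimensional K L] [IsGalois K L]
  {R : Subalgebra k L} {ε : R →ₐ[k] k} {H : Fin n → Derivation k L L}

/-- **Asymptotic orders of vanishing.** -/
theorem asym (hess : Algebra.EssFiniteType k K) (hn : Algebra.trdeg k K = n)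
    [∀ j, Algebra.EssFiniteType k (Y j)] (hy : ∀ j, Algebra.trdeg k (Y j) = y j)
    {t : ∀ j, Fin (y j) → Y j} (ht : ∀ j, IsTranscendenceBasis k (t j))
    {s : ∀ q : Fin r × (L ≃ₐ[K] L), Fin (y q.1) → L}
    {Cd : ∀ q : Fin r × (L ≃ₐ[K] L), Set (Fin (y q.1))}
    {w : ∀ q : Fin r × (L ≃ₐ[K] L), Fin (y q.1) → Fin n → L}
    {P : ∀ q : Fin r × (L ≃ₐ[K] L), Matrix (Fin (y q.1)) (Fin (y q.1)) L}
    (hch : IsLogChart R H t s Cd w P) {F : ∀ j, Fin (y j) → Derivation k (Y j) (Y j)}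
    (hF : ∀ j l l', F j l (t j l') = if l = l' then 1 else 0) {d' : ℕ} (hd' : 1 ≤ d')
    (hcy : ∑ j, c j * y j = n * d') (hBL : BLLog R ε w c d') {δ : Place k K → ℝ}
    {δY : ∀ j, Place k (Y j) → ℝ} (hram : LocBound n L δ Y δY c d') {v : Place k L}
    (hv : CentreThrough R ε v) {α : Fin r → ℝ}
    (hα : ∀ j, AsymImLe (fun σ => P (j, σ)) (F j) (δY j) v (α j)) :
    AsymLe H δ v (∑ j, (c j : ℝ) / d' * α j) := by
  classical
  intro ε₀ hε₀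
  obtain ⟨D, hD, u, hu, hsec⟩ := log_sec hess hn hy ht hch hF hd' hcy hBL
  have hd0 : (0 : ℝ) < d' := by exact_mod_cast hd'
  have hC : (0 : ℝ) ≤ ∑ j, (c j : ℝ) := Finset.sum_nonneg fun j _ => Nat.cast_nonneg _
  have hC1 : (0 : ℝ) < ∑ j, (c j : ℝ) + 1 := by linarith
  have hε₁ : 0 < ε₀ * d' / (∑ j, (c j : ℝ) + 1) := div_pos (mul_pos hε₀ hd0) hC1
  generalize hε₁' : ε₀ * d' / (∑ j, (c j : ℝ) + 1) = ε₁ at hε₁
  have hε₂ : (∑ j, (c j : ℝ)) * ε₁ ≤ d' * ε₀ := by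
    rw [← hε₁', ← mul_div_assoc, div_le_iff₀ hC1]
    have h1 : 0 ≤ d' * ε₀ := (mul_pos hd0 hε₀).le
    nlinarith
  choose m hm η hη hne hle using fun j => hα j ε₁ hε₁
  let T : ℕ := ∏ j, m j
  have hT : 1 ≤ T := by
    show 0 < ∏ j, m j
    exact Finset.prod_pos fun j _ => hm j
  have hmT : ∀ j, ∃ b, T * (D * c j) = b * m j := by
    intro j
    obtain ⟨b, hb⟩ : m j ∣ T := Finset.dvd_prod_of_mem _ (Finset.mem_univ j)
    refine ⟨b * (D * c j), ?_⟩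
    rw [hb]
    ring
  choose b hb using hmT
  obtain ⟨ω, hω, hωE⟩ := hsec δ δY hram T (fun j X => η j X ^ b j) fun j => by
    rw [hb j]
    exact sec_pow' (hη j) _
  refine ⟨T * (D * d' * Nat.card (L ≃ₐ[K] L) ^ 2), ?_, ω, hω, fun y₀ E hE => ?_⟩
  · have h1 : 0 < Nat.card (L ≃ₐ[K] L) := Nat.card_pos
    exact Nat.mul_pos hT (Nat.mul_pos (Nat.mul_pos hD hd') (pow_pos h1 2))
  rw [hωE y₀ E hE.1 hE.2]
  let a : Fin r × (L ≃ₐ[K] L) → L := fun q => (P q).det ^ m q.1 * q.2 (η q.1 (F q.1) : L)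
  have ha : ∀ q, a q ≠ 0 := fun q => hne q.1 q.2
  have h1 : ∀ q : Fin r × (L ≃ₐ[K] L), (P q).det ^ (T * (D * c q.1)) *
      q.2 ((η q.1 (F q.1) ^ b q.1 : Y q.1) : L) = a q ^ b q.1 := by
    intro q
    show _ = ((P q).det ^ m q.1 * q.2 (η q.1 (F q.1) : L)) ^ b q.1
    rw [hb q.1, mul_pow, ← pow_mul, mul_comm (m q.1)]
    congr 1
    show q.2 ((η q.1 (F q.1) : L) ^ b q.1) = _
    rw [map_pow]
  rw [Finset.prod_congr rfl fun q _ => h1 q]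
  have hu0 : u ≠ 0 := by
    rintro rfl
    obtain ⟨h2, h3⟩ := hu
    apply h3
    have h4 : (⟨0, h2⟩ : R) = 0 := rfl
    rw [h4, map_zero]
  have hp : ∏ q : Fin r × (L ≃ₐ[K] L), a q ^ b q.1 ≠ 0 :=
    Finset.prod_ne_zero_iff.2 fun q _ => pow_ne_zero _ (ha q)
  refine ⟨mul_ne_zero (pow_ne_zero _ hu0) (pow_ne_zero _ hp), ?_⟩
  have h2 : v.ord (u ^ T * (∏ q : Fin r × (L ≃ₐ[K] L), a q ^ b q.1) ^ Nat.card (L ≃ₐ[K] L)) =
      Nat.card (L ≃ₐ[K] L) * ∑ q : Fin r × (L ≃ₐ[K] L), b q.1 * v.ord (a q) := by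
    rw [v.ord_mul (pow_ne_zero _ hu0) (pow_ne_zero _ hp), v.ord_pow, v.ord_pow, hv.2 u hu,
      mul_zero, zero_add, Pool.Agent.W619.PQ.ord_prod _ v _ fun q _ => pow_ne_zero _ (ha q)]
    congr 1
    exact Finset.sum_congr rfl fun q _ => v.ord_pow _ _
  rw [h2]
  have hg : (0 : ℝ) ≤ Nat.card (L ≃ₐ[K] L) := Nat.cast_nonneg _
  have h3 : ∀ j, ∑ σ : L ≃ₐ[K] L, ((b j : ℝ) * (v.ord (a (j, σ)) : ℝ)) ≤
      Nat.card (L ≃ₐ[K] L) * ((T : ℝ) * (D * c j) * (α j + ε₁)) := by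
    intro j
    rw [← Finset.mul_sum]
    have h4 := mul_le_mul_of_nonneg_left (hle j) (Nat.cast_nonneg (b j) : (0 : ℝ) ≤ b j)
    refine h4.trans (le_of_eq ?_)
    have h5 : (T : ℝ) * (D * c j) = b j * m j := by exact_mod_cast hb j
    rw [h5]
    ring
  push_cast
  rw [Fintype.sum_prod_type]
  have h4 : ∑ j, ∑ σ : L ≃ₐ[K] L, ((b j : ℝ) * (v.ord (a (j, σ)) : ℝ)) ≤
      ∑ j, Nat.card (L ≃ₐ[K] L) * ((T : ℝ) * (D * c j) * (α j + ε₁)) :=
    Finset.sum_le_sum fun j _ => h3 j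
  have h5 := mul_le_mul_of_nonneg_left h4 hg
  refine h5.trans ?_
  have h6 : ∑ j, (Nat.card (L ≃ₐ[K] L) : ℝ) * ((T : ℝ) * (D * c j) * (α j + ε₁)) =
      Nat.card (L ≃ₐ[K] L) * T * D * (∑ j, (c j : ℝ) * α j + (∑ j, (c j : ℝ)) * ε₁) := by
    rw [Finset.sum_mul, ← Finset.sum_add_distrib, Finset.mul_sum]
    refine Finset.sum_congr rfl fun j _ => ?_
    ring
  have h7 : (d' : ℝ) * ∑ j, (c j : ℝ) / d' * α j = ∑ j, (c j : ℝ) * α j := by
    rw [Finset.mul_sum]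
    refine Finset.sum_congr rfl fun j _ => ?_
    field_simp
  have h8 : (T : ℝ) * (D * d' * Nat.card (L ≃ₐ[K] L) ^ 2) * (∑ j, (c j : ℝ) / d' * α j + ε₀) =
      Nat.card (L ≃ₐ[K] L) * (Nat.card (L ≃ₐ[K] L) * T * D *
        (∑ j, (c j : ℝ) * α j + d' * ε₀)) := by
    rw [← h7]
    ring
  rw [h6, h8]
  refine mul_le_mul_of_nonneg_left (mul_le_mul_of_nonneg_left ?_ ?_) hg
  · linarith
  · exact mul_nonneg (mul_nonneg hg (Nat.cast_nonneg _)) (Nat.cast_nonneg _)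

end

end Pool.Agent.H891.OM
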