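import Pool.Agent.H891.RB.Defs

/-! Multivalued orbifold maps: definitions. -/

set_option autoImplicit false
set_option linter.overlappingInstances false
set_option linter.unusedSectionVars false

open FF IntermediateField Pool.Agent.W619.PQ Pool.Agent.W619.TW Pool.Agent.Y174
  Pool.Agent.H891.TY

namespace Pool.Agent.H891.OM

section

variable {k : Type} {K : Type} [Field k] [Field K] [Algebra k K]

/-- Multivalued maps of orbifolds (pairs). Let `V` be a variety of dimension `n` with function field
`K` and a divisor with the multiplicities `δ v`, so `1 - δ v` is the log discrepancy of `v`. Let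
`V' → V` be a covering with function field `L`; the log discrepancy of a divisor `w` over `v` with the
ramification index `e` for the pull-back `K_V' + Δ' = π^* (K_V + Δ)` is `e (1 - δ v)`. We assume that
it is in `[0, 1]`, i.e. the multiplicity of `w` in `Δ'` is in `[0, 1]`, and, for all the varieties `Y j`
with divisors with the multiplicities `δY j u`, that it is at most the log discrepancy
`i (1 - δY j u)` of the valuation which is induced by `w` on the function field of `Y j` (if this is
not trivial; it is given by a divisor `u` over `Y j` and the multiplicity `i`). This means that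
`(V', Δ') ⇢ (Y j, Δ j)` is a map of orbifolds. -/
def OrbMap (n : ℕ) (L : IntermediateField K (AlgebraicClosure K)) (δ : Place k K → ℝ) {r : ℕ}
    (Y : Fin r → IntermediateField k L) (δY : ∀ j, Place k (Y j) → ℝ) : Prop :=
  ∀ (w : Place k L) (v : Place k K) (e : ℕ), IsDivisorial w n → LiesOn w v e →
    0 ≤ e * (1 - δ v) ∧ e * (1 - δ v) ≤ 1 ∧
      ∀ (j : Fin r) (u : Place k (Y j)) (i : ℕ), LiesOn w u i →
        e * (1 - δ v) ≤ i * (1 - δY j u)

/-- The place `w` of `L` induces the trivial valuation on `M` (and `x = b = 0`), or a divisor `u` with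
multiplicity `i`, and its log discrepancy is `b = i (1 - δM u)` (and `x = 1`). -/
def IsLogMult {L : Type} [Field L] [Algebra k L] (M : IntermediateField k L)
    (δM : Place k M → ℝ) (w : Place k L) (x b : ℝ) : Prop :=
  (∃ (u : Place k M) (i : ℕ), LiesOn w u i ∧ x = 1 ∧ b = i * (1 - δM u)) ∨
    ((∀ z ∈ M, z ≠ 0 → w.ord z = 0) ∧ x = 0 ∧ b = 0)

/-- The local condition which is used in the estimates. -/
def LocBound (n : ℕ) (L : IntermediateField K (AlgebraicClosure K)) [FiniteDimensional K L]
    (δ : Place k K → ℝ) {r : ℕ} (Y : Fin r → IntermediateField k L)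
    (δY : ∀ j, Place k (Y j) → ℝ) (c : Fin r → ℕ) (d : ℕ) : Prop :=
  ∀ (w : Place k L) (v : Place k K) (e : ℕ), IsDivisorial w n → LiesOn w v e →
    ∀ x b : Fin r × (L ≃ₐ[K] L) → ℝ,
      (∀ q, IsLogMult (Y q.1) (δY q.1) (w.comp (q.2.restrictScalars k)) (x q) (b q)) →
      ∑ q, c q.1 * (x q - b q) ≤ d * Nat.card (L ≃ₐ[K] L) * (1 - e * (1 - δ v)) ∨
      d * Nat.card (L ≃ₐ[K] L) * (e * (1 - δ v)) ≤ ∑ q, c q.1 * b q

end

end Pool.Agent.H891.OM
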