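import Pool.Agent.H891.OM.Est

/-! The sections given by sections on the images of a multivalued map. -/

set_option autoImplicit false
set_option linter.overlappingInstances false
set_option linter.unusedSectionVars false

open FF IntermediateField Pool.Agent.W619.PQ Pool.Agent.W619.PL Pool.Agent.W619.TW
  Pool.Agent.W603.LV Pool.Agent.W619.Y Pool.Agent.Y174 Pool.Agent.W824.PG Pool.Agent.H891.BL
  Pool.Agent.H891.RH
open scoped Matrix Kronecker

namespace Pool.Agent.H891.OM

section

variable {k K : Type} [Field k] [Field K] [Algebra k K] [CharZero k]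
  {L : IntermediateField K (AlgebraicClosure K)} {r n N D : ℕ} {c y : Fin r → ℕ}
  {Y : Fin r → IntermediateField k L} [FiniteDimensional K L]

variable [IsGalois K L]

open scoped Classical in
/-- **The section.** -/
theorem norm_sec (hess : Algebra.EssFiniteType k K) (hn : Algebra.trdeg k K = n)
    [∀ j, Algebra.EssFiniteType k (Y j)]
    (hy : ∀ j, Algebra.trdeg k (Y j) = y j) {δ : Place k K → ℝ} {δY : ∀ j, Place k (Y j) → ℝ}
    {d' : ℕ} (hram : LocBound n L δ Y δY c d') (hN : N = d' * Nat.card (L ≃ₐ[K] L) * D)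
    (X : Fin N → Cps L c D → k) (e : Row L c y D ≃ Fin n × Fin N)
    {t : ∀ j, Fin (y j) → Y j} (ht : ∀ j, IsTranscendenceBasis k (t j))
    {F : ∀ j, Fin (y j) → Derivation k (Y j) (Y j)}
    (hF : ∀ j l l', F j l (t j l') = if l = l' then 1 else 0) {T : ℕ}
    {η : ∀ j, (Fin (y j) → Derivation k (Y j) (Y j)) → Y j}
    (hη : ∀ j, PairSec k (Y j) (y j) (δY j) {1} (T * (D * c j)) 0 (η j))
    {y₀ : Fin n → K} (hy₀ : IsTranscendenceBasis k y₀) {E : Fin n → Derivation k K K}
    (hE : ∀ i j, E i (y₀ j) = if i = j then 1 else 0) {H : Fin n → Derivation k L L}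
    (hH : ∀ i (x : K), H i (algebraMap K L x) = algebraMap K L (E i x)) :
    PairSec k K n δ {1} (T * (N * Nat.card (L ≃ₐ[K] L))) 0 (fun Z =>
      (Matrix.of fun a b => Z a (y₀ b)).det ^ (T * (N * Nat.card (L ≃ₐ[K] L))) *
        Algebra.norm K ((MM X e (fun q => t q.1) H).det ^ T *
          ∏ q : Fin r × (L ≃ₐ[K] L), q.2 (η q.1 (F q.1) : L))) := by
  set Θ : L := (MM X e (fun q => t q.1) H).det ^ T *
    ∏ q : Fin r × (L ≃ₐ[K] L), q.2 (η q.1 (F q.1) : L) with hΘ
  set g : ℕ := Nat.card (L ≃ₐ[K] L) with hg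
  refine ⟨fun A Z => ?_, fun v hv Z hZ => ?_⟩
  · have e : (Matrix.of fun a b => (∑ j, A a j • Z j) (y₀ b)) =
        A * Matrix.of fun a b => Z a (y₀ b) := by
      refine Matrix.ext fun a b => ?_
      rw [Matrix.of_apply, Matrix.mul_apply, Pool.Agent.W721.PG.EFF2.der_sum]
      rfl
    show (Matrix.of fun a b => (∑ j, A a j • Z j) (y₀ b)).det ^ _ * _ = _
    rw [e, Matrix.det_mul, mul_pow, mul_assoc]
  · -- the frame at the place
    obtain ⟨z₀, F₀, i0, hz₀, hF₀, hz, hzr, hpres⟩ := Pool.Agent.W619.Y.pFRAME k K n hn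
      (fun y hy => fin_adj hess y hy) v hv
    have hfr : (Matrix.of fun a b => Z a (y₀ b)) =
        (Matrix.of fun a b => Z a (z₀ b)) * Matrix.of fun a b => F₀ a (y₀ b) := by
      refine Matrix.ext fun a b => ?_
      rw [Matrix.of_apply, Matrix.mul_apply]
      have h1 := Pool.Agent.W73.PG.PULL.expand z₀ hz₀ F₀ hF₀ (Z a)
      conv_lhs => rw [← h1]
      rw [Pool.Agent.W721.PG.EFF2.der_sum]
      rfl
    set C : Matrix (Fin n) (Fin n) K := Matrix.of fun a b => F₀ a (y₀ b) with hC
    -- the value on the frame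
    have key : C.det ^ (T * (N * g)) * Algebra.norm K Θ = 0 ∨
        -((T * (N * g) : ℕ) * δ v) ≤ (v.ord (C.det ^ (T * (N * g)) * Algebra.norm K Θ) : ℝ) := by
      by_cases h0 : C.det ^ (T * (N * g)) * Algebra.norm K Θ = 0
      · exact Or.inl h0
      right
      obtain ⟨w, a₀, hov⟩ := exists_ext (L := L) v
      let U : L := algebraMap K L C.det ^ (T * N) * Θ
      have hU : algebraMap K L (C.det ^ (T * (N * g)) * Algebra.norm K Θ) =
          ∏ σ : L ≃ₐ[K] L, σ U := by
        rw [map_mul, Algebra.norm_eq_prod_automorphisms, map_pow]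
        have h1 : ∀ σ : L ≃ₐ[K] L, σ U = algebraMap K L C.det ^ (T * N) * σ Θ := by
          intro σ
          show σ (algebraMap K L C.det ^ (T * N) * Θ) = _
          rw [map_mul, map_pow, σ.commutes]
        simp only [h1]
        rw [Finset.prod_mul_distrib, Finset.prod_const, Finset.card_univ,
          ← Nat.card_eq_fintype_card, ← hg, ← pow_mul, mul_assoc]
      have hU0 : ∀ σ : L ≃ₐ[K] L, σ U ≠ 0 := by
        have h1 : ∏ σ : L ≃ₐ[K] L, σ U ≠ 0 := by
          rw [← hU]
          exact fun h => h0 ((map_eq_zero_iff _ (algebraMap K L).injective).1 h)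
        exact fun σ => Finset.prod_ne_zero_iff.1 h1 σ (Finset.mem_univ _)
      -- `U` in terms of the frame
      obtain ⟨H', hH'⟩ := exists_exts (L := L) hn F₀
      have hHH : H' = fun i => ∑ b, ((algebraMap K L).mapMatrix C) i b • H b := by
        funext i
        refine exts_unique hn (hH' i) fun x => ?_
        rw [Pool.Agent.W721.PG.EFF2.der_sum]
        have h1 := Pool.Agent.W73.PG.PULL.expand y₀ hy₀ E hE (F₀ i)
        have h2 : F₀ i x = ∑ b, F₀ i (y₀ b) * E b x := by
          conv_lhs => rw [← h1]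
          rw [Pool.Agent.W721.PG.EFF2.der_sum]
        rw [h2, map_sum]
        refine Finset.sum_congr rfl fun b _ => ?_
        rw [hH, map_mul]
        rfl
      have hUH : U = (MM X e (fun q => t q.1) H').det ^ T *
          ∏ q : Fin r × (L ≃ₐ[K] L), q.2 (η q.1 (F q.1) : L) := by
        rw [hHH, det_frame, ← RingHom.map_det, mul_pow, ← pow_mul, mul_comm N T, mul_assoc]
      have hest : ∀ σ : L ≃ₐ[K] L, -(T * N * a₀ * δ v) ≤ (w.ord (σ U) : ℝ) := by
        intro σ
        have h1 := local_est hn hy hram hN X e ht hF hη hv (over_comp hov σ) hF₀ hz hpres hH'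
        rw [← hUH] at h1
        exact h1.resolve_left fun h => hU0 σ (by rw [h, map_zero])
      have h1 : (a₀ : ℝ) * v.ord (C.det ^ (T * (N * g)) * Algebra.norm K Θ) =
          ∑ σ : L ≃ₐ[K] L, (w.ord (σ U) : ℝ) := by
        have h2 := hov.2 (C.det ^ (T * (N * g)) * Algebra.norm K Θ)
        rw [hU, ord_prod' w _ fun σ _ => hU0 σ] at h2
        exact_mod_cast h2.symm
      have h2 := Finset.sum_le_sum fun (σ : L ≃ₐ[K] L) (_ : σ ∈ Finset.univ) => hest σ
      rw [← h1, Finset.sum_const, Finset.card_univ, nsmul_eq_mul, ← Nat.card_eq_fintype_card,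
        ← hg] at h2
      have ha : (0 : ℝ) < a₀ := by exact_mod_cast hov.1
      have h3 : (a₀ : ℝ) * -((T * (N * g) : ℕ) * δ v) ≤
          a₀ * v.ord (C.det ^ (T * (N * g)) * Algebra.norm K Θ) := by
        refine le_trans (le_of_eq ?_) h2
        push_cast
        ring
      exact le_of_mul_le_mul_left h3 ha
    have hval : (Matrix.of fun a b => Z a (y₀ b)).det ^ (T * (N * g)) * Algebra.norm K Θ =
        (Matrix.of fun a b => Z a (z₀ b)).det ^ (T * (N * g)) *
          (C.det ^ (T * (N * g)) * Algebra.norm K Θ) := by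
      rw [hfr, Matrix.det_mul, mul_pow, mul_assoc]
    have hB : Ge v 0 ((Matrix.of fun a b => Z a (z₀ b)).det ^ (T * (N * g))) := by
      have h1 := (ge_det v (Matrix.of fun a b => Z a (z₀ b)) fun a b => hZ a _ (hzr b)).pow
        (T * (N * g))
      rwa [mul_zero] at h1
    show (Matrix.of fun a b => Z a (y₀ b)).det ^ (T * (N * g)) * Algebra.norm K Θ = 0 ∨ ∃ s ∈ _, _
    by_cases h0 : (Matrix.of fun a b => Z a (y₀ b)).det ^ (T * (N * g)) * Algebra.norm K Θ = 0
    · exact Or.inl h0
    right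
    refine ⟨1, by simp, one_ne_zero, ?_⟩
    rw [hval] at h0
    have h1 := left_ne_zero_of_mul h0
    have h2 := right_ne_zero_of_mul h0
    show (0 : ℕ) * _ - _ ≤ (v.ord ((Matrix.of fun a b => Z a (y₀ b)).det ^ (T * (N * g)) *
      Algebra.norm K Θ) : ℝ)
    rw [hval, v.ord_mul h1 h2]
    push_cast
    have h3 := key.resolve_left h2
    have h4 : (0 : ℝ) ≤ (v.ord ((Matrix.of fun a b => Z a (z₀ b)).det ^ (T * (N * g))) : ℝ) := by
      exact_mod_cast hB.resolve_left h1
    push_cast at h3
    linarith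

end

end Pool.Agent.H891.OM
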