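import Pool.Agent.H891.OM.Defs
import Pool.Agent.H891.RB.Loc

/-! Local coordinates for multivalued maps, with the logarithmic data. -/

set_option autoImplicit false
set_option linter.overlappingInstances false
set_option linter.unusedSectionVars false

open FF IntermediateField Pool.Agent.W619.PQ Pool.Agent.W619.PL Pool.Agent.W619.TW
  Pool.Agent.W603.LV Pool.Agent.W619.Y Pool.Agent.Y174 Pool.Agent.W824.PG Pool.Agent.H891.RH

namespace Pool.Agent.H891.OM

section

variable {k L : Type} [Field k] [Field L] [Algebra k L] [CharZero k]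

/-- Local coordinates for a rational map at a place. -/
theorem local_frame (M : IntermediateField k L) [Algebra.EssFiniteType k M] {n y m : ℕ}
    (hn : Algebra.trdeg k L = n) (hy : Algebra.trdeg k M = y) (δM : Place k M → ℝ)
    {η : (Fin y → Derivation k M M) → M} (hη : PairSec k M y δM {1} m 0 η)
    {t : Fin y → M} (ht : IsTranscendenceBasis k t) {F : Fin y → Derivation k M M}
    (hF : ∀ i j, F i (t j) = if i = j then 1 else 0) {w : Place k L} (hw : IsDivisorial w n) :
    ∃ (t' : Fin y → M) (F' : Fin y → Derivation k M M) (b : Fin y → ℕ) (x b' : ℝ),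
      IsLogMult M δM w x b' ∧ ((∑ l, b l : ℕ) : ℝ) = ((∑ l, (b l - 1) : ℕ) : ℝ) + x ∧
      IsTranscendenceBasis k t' ∧
      (∀ i j, F' i (t' j) = if i = j then 1 else 0) ∧
      (∀ l, Ge w (b l) (t' l : L)) ∧
      (η F' = 0 ∨ -(m * (x - b')) ≤ m * ((∑ l, (b l - 1) : ℕ) : ℝ) + w.ord (η F' : L)) := by
  classical
  by_cases htriv : ∀ z ∈ M, z ≠ 0 → w.ord z = 0
  · refine ⟨t, F, fun _ => 0, 0, 0, Or.inr ⟨htriv, rfl, rfl⟩, by simp, ht, hF, fun l => ?_, ?_⟩
    · by_cases h0 : (t l : L) = 0
      · exact Or.inl h0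
      · right
        rw [htriv _ (t l).2 h0]
        rfl
    · by_cases h0 : η F = 0
      · exact Or.inl h0
      · right
        have h1 : w.ord (η F : L) = 0 := htriv _ (η F).2 fun h => h0 (Subtype.ext h)
        rw [h1]
        simp
  · push Not at htriv
    obtain ⟨z, hz, hz0, hzw⟩ := htriv
    obtain ⟨e, u, hu⟩ := exists_over (K := M) w ⟨⟨z, hz⟩, hzw⟩
    have hud : IsDivisorial u y := Pool.Agent.W619.Y.pDIVR k M L y n u w e hy hn hu hw
    obtain ⟨t', F', i0, ht', hF', hti, htr, hpres⟩ := Pool.Agent.W619.Y.pFRAME k M y hy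
      (fun y hy => fin_adj inferInstance y hy) u hud
    have hsum : (∑ l, ((if l = i0 then e else 0) - 1) : ℕ) = e - 1 := by
      rw [Finset.sum_eq_single i0]
      · rw [if_pos rfl]
      · intro l _ hl
        rw [if_neg hl]
        exact Nat.zero_sub 1
      · intro h
        exact (h (Finset.mem_univ _)).elim
    have hsum' : (∑ l, (if l = i0 then e else 0) : ℕ) = e := by
      rw [Finset.sum_eq_single i0]
      · rw [if_pos rfl]
      · intro l _ hl
        rw [if_neg hl]
      · intro h
        exact (h (Finset.mem_univ _)).elim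
    refine ⟨t', F', fun l => if l = i0 then e else 0, 1, e * (1 - δM u),
      Or.inl ⟨u, e, hu, rfl, rfl⟩, ?_, ht', hF', fun l => ?_, ?_⟩
    · rw [hsum, hsum', Nat.cast_sub hu.1, Nat.cast_one]
      ring
    · show Ge w ((if l = i0 then e else 0 : ℕ) : ℤ) (t' l : L)
      split_ifs with hl
      · right
        rw [hl]
        have h1 := hu.2 (t' i0)
        rw [hti, mul_one] at h1
        exact h1.ge
      · exact hu.reg.2 (htr l)
    · rcases hη.2 u hud F' (fun l f hf => hpres l f hf) with h | ⟨s, hs, hs0, h⟩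
      · exact Or.inl h
      · right
        rw [Finset.mem_singleton] at hs
        subst hs
        rw [hsum]
        have h2 : w.ord (η F' : L) = e * u.ord (η F') := hu.2 _
        rw [h2]
        have he := hu.1
        have h3 : ((e - 1 : ℕ) : ℝ) = e - 1 := by
          rw [Nat.cast_sub he, Nat.cast_one]
        rw [h3]
        push_cast
        have h4 : (0 : ℝ) - m * δM u ≤ u.ord (η F') := by
          simpa using h
        have h5 := mul_le_mul_of_nonneg_left h4 (Nat.cast_nonneg (α := ℝ) e)
        linarith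

/-- Local coordinates for a rational map at a place, for all twisted sections. -/
theorem loc_frame (M : IntermediateField k L) [Algebra.EssFiniteType k M] {n y : ℕ}
    (hn : Algebra.trdeg k L = n) (hy : Algebra.trdeg k M = y) (δM : Place k M → ℝ)
    {t : Fin y → M} (ht : IsTranscendenceBasis k t) {F : Fin y → Derivation k M M}
    (hF : ∀ i j, F i (t j) = if i = j then 1 else 0) {w : Place k L} (hw : IsDivisorial w n) :
    ∃ (t' : Fin y → M) (F' : Fin y → Derivation k M M) (b : Fin y → ℕ) (x b' : ℝ),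
      IsLogMult M δM w x b' ∧ ((∑ l, b l : ℕ) : ℝ) = ((∑ l, (b l - 1) : ℕ) : ℝ) + x ∧
      IsTranscendenceBasis k t' ∧
      (∀ i j, F' i (t' j) = if i = j then 1 else 0) ∧
      (∀ l, Ge w (b l) (t' l : L)) ∧
      ∀ (m j : ℕ) (S : Finset M) (η : (Fin y → Derivation k M M) → M), (1 : M) ∈ S →
        PairSec k M y δM S m j η → η F' = 0 ∨ ∃ s ∈ S, s ≠ 0 ∧
          (j : ℝ) * w.ord (s : L) - m * (x - b') ≤ m * ((∑ l, (b l - 1) : ℕ) : ℝ) + w.ord (η F' : L) := by
  classical
  by_cases htriv : ∀ z ∈ M, z ≠ 0 → w.ord z = 0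
  · refine ⟨t, F, fun _ => 0, 0, 0, Or.inr ⟨htriv, rfl, rfl⟩, by simp, ht, hF, fun l => ?_,
      fun m j S η h1S hη => ?_⟩
    · by_cases h0 : (t l : L) = 0
      · exact Or.inl h0
      · right
        rw [htriv _ (t l).2 h0]
        rfl
    · by_cases h0 : η F = 0
      · exact Or.inl h0
      · right
        refine ⟨1, h1S, one_ne_zero, ?_⟩
        have h1 : w.ord (η F : L) = 0 := htriv _ (η F).2 fun h => h0 (Subtype.ext h)
        have h2 : w.ord ((1 : M) : L) = 0 := w.ord_one
        rw [h1, h2]
        simp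
  · push Not at htriv
    obtain ⟨z, hz, hz0, hzw⟩ := htriv
    obtain ⟨e, u, hu⟩ := exists_over (K := M) w ⟨⟨z, hz⟩, hzw⟩
    have hud : IsDivisorial u y := Pool.Agent.W619.Y.pDIVR k M L y n u w e hy hn hu hw
    obtain ⟨t', F', i0, ht', hF', hti, htr, hpres⟩ := Pool.Agent.W619.Y.pFRAME k M y hy
      (fun y hy => fin_adj inferInstance y hy) u hud
    have hsum : (∑ l, ((if l = i0 then e else 0) - 1) : ℕ) = e - 1 := by
      rw [Finset.sum_eq_single i0]
      · rw [if_pos rfl]
      · intro l _ hl
        rw [if_neg hl]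
        exact Nat.zero_sub 1
      · intro h
        exact (h (Finset.mem_univ _)).elim
    have hsum' : (∑ l, (if l = i0 then e else 0) : ℕ) = e := by
      rw [Finset.sum_eq_single i0]
      · rw [if_pos rfl]
      · intro l _ hl
        rw [if_neg hl]
      · intro h
        exact (h (Finset.mem_univ _)).elim
    refine ⟨t', F', fun l => if l = i0 then e else 0, 1, e * (1 - δM u),
      Or.inl ⟨u, e, hu, rfl, rfl⟩, ?_, ht', hF', fun l => ?_, fun m j S η h1S hη => ?_⟩
    · rw [hsum, hsum', Nat.cast_sub hu.1, Nat.cast_one]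
      ring
    · show Ge w ((if l = i0 then e else 0 : ℕ) : ℤ) (t' l : L)
      split_ifs with hl
      · right
        rw [hl]
        have h1 := hu.2 (t' i0)
        rw [hti, mul_one] at h1
        exact h1.ge
      · exact hu.reg.2 (htr l)
    · rcases hη.2 u hud F' (fun l f hf => hpres l f hf) with h | ⟨s, hs, hs0, h⟩
      · exact Or.inl h
      · right
        refine ⟨s, hs, hs0, ?_⟩
        rw [hsum]
        have h2 : w.ord (η F' : L) = e * u.ord (η F') := hu.2 _
        have h2' : w.ord (s : L) = e * u.ord s := hu.2 _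
        rw [h2, h2']
        have he := hu.1
        have h3 : ((e - 1 : ℕ) : ℝ) = e - 1 := by
          rw [Nat.cast_sub he, Nat.cast_one]
        rw [h3]
        push_cast
        have h5 := mul_le_mul_of_nonneg_left h (Nat.cast_nonneg (α := ℝ) e)
        linarith

end

section

variable {k K : Type} [Field k] [Field K] [Algebra k K]
  {L : IntermediateField K (AlgebraicClosure K)} [FiniteDimensional K L] {n r : ℕ} {c : Fin r → ℕ}
  {Y : Fin r → IntermediateField k L}

/-- maps of orbifolds satisfy the local condition, for all weights -/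
theorem orb_loc {δ : Place k K → ℝ} {δY : ∀ j, Place k (Y j) → ℝ} (h : OrbMap n L δ Y δY) (d : ℕ) :
    LocBound n L δ Y δY c d := by
  intro w v e hw hov x b hq
  have hov' : ∀ σ : L ≃ₐ[K] L, LiesOn (w.comp (σ.restrictScalars k)) v e := fun σ =>
    over_comp hov σ
  set μ : ℝ := e * (1 - δ v) with hμ
  obtain ⟨h0, h1, -⟩ := h w v e hw hov
  have hx : ∀ q, 0 ≤ x q ∧ x q * μ ≤ b q := by
    intro q
    rcases hq q with ⟨u, i, hu, hx, hb⟩ | ⟨-, hx, hb⟩
    · have h2 := (h _ v e (div_comp hw _) (hov' q.2)).2.2 q.1 u i hu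
      rw [hx, hb, one_mul]
      exact ⟨zero_le_one, h2⟩
    · rw [hx, hb]
      simp
  set g : ℝ := d * Nat.card (L ≃ₐ[K] L) with hg
  set t : ℝ := ∑ q, c q.1 * x q with ht
  have hb : t * μ ≤ ∑ q, c q.1 * b q := by
    rw [ht, Finset.sum_mul]
    refine Finset.sum_le_sum fun q _ => ?_
    rw [mul_assoc]
    exact mul_le_mul_of_nonneg_left (hx q).2 (Nat.cast_nonneg _)
  rcases le_total t g with htg | htg
  · left
    have h2 : ∑ q, c q.1 * (x q - b q) = t - ∑ q, c q.1 * b q := by
      rw [ht, ← Finset.sum_sub_distrib]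
      exact Finset.sum_congr rfl fun q _ => mul_sub _ _ _
    rw [h2]
    have h3 : t * (1 - μ) ≤ g * (1 - μ) := mul_le_mul_of_nonneg_right htg (by linarith)
    linarith
  · right
    have h3 : g * μ ≤ t * μ := mul_le_mul_of_nonneg_right htg h0
    linarith

end

end Pool.Agent.H891.OM
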