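import Pool.Agent.H891.OM.Main
import Pool.Agent.H891.RB.Grow

/-! Growth of the numbers of sections. -/

set_option autoImplicit false
set_option linter.overlappingInstances false
set_option linter.unusedSectionVars false

open FF IntermediateField Pool.Agent.W619.PQ Pool.Agent.W619.PL Pool.Agent.W619.TW
  Pool.Agent.W603.LV Pool.Agent.W619.Y Pool.Agent.Y174 Pool.Agent.Y173.QA
  Pool.Agent.H891.RH Pool.Agent.H891.BL Pool.Agent.H891.TY Pool.Agent.H891.SM
  Pool.Agent.H891.KS Pool.Agent.H891.RB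

namespace Pool.Agent.H891.OM

section

variable {k : Type} {K : Type} [Field k] [Field K] [Algebra k K] [CharZero k] [IsAlgClosed k] {n : ℕ}
  {L : IntermediateField K (AlgebraicClosure K)} [FiniteDimensional K L] [IsGalois K L]
  {r : ℕ} {Y : Fin r → IntermediateField k L} [∀ j, Algebra.EssFiniteType k (Y j)]
  {B : Fin r → IntermediateField k (AlgebraicClosure K)} {y f c : Fin r → ℕ}
  {d d' : ℕ} {δ : Place k K → ℝ} {δY : ∀ j, Place k (Y j) → ℝ}

theorem grow (hess : Algebra.EssFiniteType k K) (hn : Algebra.trdeg k K = n)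
    (h : ∀ j, IsFibres L (Y j) (B j) n (y j) (f j)) (hd' : 1 ≤ d')
    (hdd : d + d' = ∑ j, c j) (hBL : BLDist n B f c d) (hs : ∑ j, c j * f j = d * n)
    (hram : LocBound n L δ Y δY c d') {a : ℕ} (hnum : PairNum k K n δ a) :
    ∃ N₀ : ℕ, 1 ≤ N₀ ∧ ∀ S : ∀ j, Finset (Y j), ∃ C' : ℕ, ∀ m : ℕ, 1 ≤ m → ∀ P : Fin r → ℕ,
      (∀ j, HasIndep k (Y j) (y j) (P j) (PairSec k (Y j) (y j) (δY j) (S j) m 1)) →
      ∏ j, P j ^ (c j * N₀) ≤ C' * m ^ (d' * a * N₀) := by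
  classical
  obtain ⟨D, hD, hrb, -⟩ := rb hess hn h hd' hdd hBL hs
  have hg0 : 0 < Nat.card (L ≃ₐ[K] L) := Nat.card_pos
  set g := Nat.card (L ≃ₐ[K] L) with hg
  have hN : 0 < d' * g * D := Nat.mul_pos (Nat.mul_pos hd' hg0) hD
  refine ⟨g * D, Nat.mul_pos hg0 hD, fun S => ?_⟩
  obtain ⟨S', hS'⟩ := hrb S
  obtain ⟨C, hC⟩ := hnum (S'.image fun s => s ^ (1 + 1))
  refine ⟨(Module.finrank K L * (C * (d' * g * D) ^ a)) ^ (d' * g * D), fun m hm P hP => ?_⟩
  have h1 := hS' δ δY hram m 1 (C * (m * (d' * g * D)) ^ a) P hP fun M' hM' => by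
    obtain ⟨ω, hω, hωs⟩ := hM'
    exact hC _ M' (Nat.mul_pos hm hN) ⟨ω, hω, fun l => pow_sec (hωs l)⟩
  have h2 : ∏ j, P j ^ (c j * (g * D)) = ∏ j, P j ^ (g * (D * c j)) :=
    Finset.prod_congr rfl fun j _ => by
      congr 1
      ring
  rw [h2]
  refine h1.trans (le_of_eq ?_)
  rw [mul_pow m, ← mul_assoc C, mul_comm (C * m ^ a), ← mul_assoc, ← mul_assoc]
  have h3 : d' * a * (g * D) = a * (d' * g * D) := by ring
  rw [h3, pow_mul m a, ← mul_pow]
  congr 1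
  ring

/-- **`ν (V) ≥ ∑ p j ν (Y j)`.** -/
theorem num_ge (hess : Algebra.EssFiniteType k K) (hn : Algebra.trdeg k K = n)
    (h : ∀ j, IsFibres L (Y j) (B j) n (y j) (f j)) (hd' : 1 ≤ d')
    (hdd : d + d' = ∑ j, c j) (hBL : BLDist n B f c d) (hs : ∑ j, c j * f j = d * n)
    (hram : LocBound n L δ Y δY c d') {a : ℕ} (hnum : PairNum k K n δ a) {ν : Fin r → ℕ}
    (hν : ∀ j, NumGe k (Y j) (y j) (δY j) (ν j)) : ∑ j, c j * ν j ≤ d' * a := by
  classical
  obtain ⟨N₀, hN₀, hgr⟩ := grow hess hn h hd' hdd hBL hs hram hnum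
  choose S C hSC using hν
  obtain ⟨C', hC'⟩ := hgr S
  have key : (∑ j, c j * ν j) * N₀ ≤ d' * a * N₀ := by
    refine exp_le (C := (∏ j, C j ^ (c j * N₀)) * C') (m := 1) fun m hm => ?_
    choose P hP1 hP2 using fun j => hSC j m hm
    have h1 := hC' m hm P hP2
    rw [mul_one]
    calc m ^ ((∑ j, c j * ν j) * N₀) = ∏ j, (m ^ ν j) ^ (c j * N₀) := by
          rw [Finset.sum_mul, ← Finset.prod_pow_eq_pow_sum]
          refine Finset.prod_congr rfl fun j _ => ?_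
          rw [← pow_mul]
          congr 1
          ring
      _ ≤ ∏ j, (C j * P j) ^ (c j * N₀) :=
          Finset.prod_le_prod' fun j _ => Nat.pow_le_pow_left (hP1 j) _
      _ = (∏ j, C j ^ (c j * N₀)) * ∏ j, P j ^ (c j * N₀) := by
          rw [← Finset.prod_mul_distrib]
          exact Finset.prod_congr rfl fun j _ => mul_pow _ _ _
      _ ≤ (∏ j, C j ^ (c j * N₀)) * (C' * m ^ (d' * a * N₀)) := Nat.mul_le_mul_left _ h1
      _ = _ := by ring
  exact Nat.le_of_mul_le_mul_right key hN₀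

/-- **Abundance of the images.** -/
theorem images (hess : Algebra.EssFiniteType k K) (hn : Algebra.trdeg k K = n)
    (h : ∀ j, IsFibres L (Y j) (B j) n (y j) (f j)) (hd' : 1 ≤ d')
    (hdd : d + d' = ∑ j, c j) (hBL : BLDist n B f c d) (hs : ∑ j, c j * f j = d * n)
    (hc : ∀ j, 1 ≤ c j) (hram : LocBound n L δ Y δY c d') {a : ℕ} (hnum : PairNum k K n δ a)
    {κ : Fin r → ℕ} (hκ : ∀ j, NumGe k (Y j) (y j) (δY j) (κ j)) (hle : d' * a ≤ ∑ j, c j * κ j)
    (j₀ : Fin r) : PairNum k (Y j₀) (y j₀) (δY j₀) (κ j₀) := by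
  classical
  intro S₀
  obtain ⟨N₀, hN₀, hgr⟩ := grow hess hn h hd' hdd hBL hs hram hnum
  choose S C hSC using hκ
  obtain ⟨C', hC'⟩ := hgr (Function.update S j₀ S₀)
  let E := Finset.univ.erase j₀
  refine ⟨(∏ j ∈ E, C j ^ (c j * N₀)) * C' + 1, fun m N hm hN => ?_⟩
  choose P hP1 hP2 using fun j => hSC j m hm
  have h1 := hC' m hm (Function.update P j₀ N) fun j => by
    by_cases hj : j = j₀
    · subst hj
      rw [Function.update_self, Function.update_self]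
      exact hN
    · rw [Function.update_of_ne hj, Function.update_of_ne hj]
      exact hP2 j
  have h2 : ∏ j, (Function.update P j₀ N) j ^ (c j * N₀) =
      N ^ (c j₀ * N₀) * ∏ j ∈ E, P j ^ (c j * N₀) := by
    rw [← Finset.mul_prod_erase _ _ (Finset.mem_univ j₀), Function.update_self]
    congr 1
    refine Finset.prod_congr rfl fun j hj => ?_
    rw [Function.update_of_ne (Finset.ne_of_mem_erase hj)]
  rw [h2] at h1
  have h3 : m ^ ((∑ j ∈ E, c j * κ j) * N₀) ≤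
      (∏ j ∈ E, C j ^ (c j * N₀)) * ∏ j ∈ E, P j ^ (c j * N₀) := by
    calc m ^ ((∑ j ∈ E, c j * κ j) * N₀) = ∏ j ∈ E, (m ^ κ j) ^ (c j * N₀) := by
          rw [Finset.sum_mul, ← Finset.prod_pow_eq_pow_sum]
          refine Finset.prod_congr rfl fun j _ => ?_
          rw [← pow_mul]
          congr 1
          ring
      _ ≤ ∏ j ∈ E, (C j * P j) ^ (c j * N₀) :=
          Finset.prod_le_prod' fun j _ => Nat.pow_le_pow_left (hP1 j) _
      _ = _ := by
          rw [← Finset.prod_mul_distrib]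
          exact Finset.prod_congr rfl fun j _ => mul_pow _ _ _
  have h4 : m ^ (d' * a * N₀) ≤ m ^ (c j₀ * κ j₀ * N₀) * m ^ ((∑ j ∈ E, c j * κ j) * N₀) := by
    rw [← pow_add, ← add_mul, Finset.add_sum_erase Finset.univ (fun j => c j * κ j)
      (Finset.mem_univ j₀)]
    exact Nat.pow_le_pow_right hm (Nat.mul_le_mul_right _ hle)
  have h5 : N ^ (c j₀ * N₀) * m ^ ((∑ j ∈ E, c j * κ j) * N₀) ≤
      ((∏ j ∈ E, C j ^ (c j * N₀)) * C' * m ^ (c j₀ * κ j₀ * N₀)) *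
        m ^ ((∑ j ∈ E, c j * κ j) * N₀) := by
    calc N ^ (c j₀ * N₀) * m ^ ((∑ j ∈ E, c j * κ j) * N₀) ≤ N ^ (c j₀ * N₀) *
          ((∏ j ∈ E, C j ^ (c j * N₀)) * ∏ j ∈ E, P j ^ (c j * N₀)) := Nat.mul_le_mul_left _ h3
      _ = (∏ j ∈ E, C j ^ (c j * N₀)) * (N ^ (c j₀ * N₀) * ∏ j ∈ E, P j ^ (c j * N₀)) := by ring
      _ ≤ (∏ j ∈ E, C j ^ (c j * N₀)) * (C' * m ^ (d' * a * N₀)) := Nat.mul_le_mul_left _ h1
      _ ≤ (∏ j ∈ E, C j ^ (c j * N₀)) * (C' * (m ^ (c j₀ * κ j₀ * N₀) *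
          m ^ ((∑ j ∈ E, c j * κ j) * N₀))) :=
          Nat.mul_le_mul_left _ (Nat.mul_le_mul_left _ h4)
      _ = _ := by ring
  have h6 := Nat.le_of_mul_le_mul_right h5 (pow_pos (by omega : 0 < m) _)
  refine pow_bound (q := c j₀ * N₀) hm (Nat.mul_pos (hc j₀) hN₀) (le_of_eq ?_) h6
  ring

end

end Pool.Agent.H891.OM
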