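import Pool.Agent.H891.RH.Mat

/-! Square matrices given by the Brascamp-Lieb condition, simultaneously for the conjugates. -/

set_option autoImplicit false
set_option linter.overlappingInstances false
set_option linter.unusedSectionVars false

open IntermediateField Pool.Agent.H891.BL Pool.Agent.H891.RH

open scoped Matrix

namespace Pool.Agent.H891.OM

/-- finitely many determinants are not zero simultaneously -/
theorem sim_det {k R B Q G : Type*} [Field k] [Infinite k] [Fintype R] [DecidableEq R] [Fintype G]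
    (β : R → B) (κ : R → Q) (m : G → R → R → k)
    (h : ∀ s, ∃ X : B → Q → k, (Matrix.of fun ρ ρ' => X (β ρ') (κ ρ) * m s ρ ρ').det ≠ 0) :
    ∃ X : B → Q → k, ∀ s, (Matrix.of fun ρ ρ' => X (β ρ') (κ ρ) * m s ρ ρ').det ≠ 0 := by
  classical
  let P : G → MvPolynomial (B × Q) k := fun s =>
    (Matrix.of fun ρ ρ' => MvPolynomial.X (β ρ', κ ρ) * MvPolynomial.C (m s ρ ρ')).det
  have hP : ∀ s (Z : B × Q → k), MvPolynomial.eval Z (P s) =
      (Matrix.of fun ρ ρ' => Z (β ρ', κ ρ) * m s ρ ρ').det := by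
    intro s Z
    show MvPolynomial.eval Z (Matrix.det _) = _
    rw [RingHom.map_det]
    congr 1
    ext ρ ρ'
    simp
  have h0 : ∏ s, P s ≠ 0 := by
    refine Finset.prod_ne_zero_iff.2 fun s _ h0 => ?_
    obtain ⟨X, hX⟩ := h s
    apply hX
    have h1 := hP s fun b => X b.1 b.2
    rw [h0, map_zero] at h1
    exact h1.symm
  by_contra hcon
  push Not at hcon
  apply h0
  refine MvPolynomial.funext fun Z => ?_
  rw [map_zero, map_prod]
  obtain ⟨s, hs⟩ := hcon fun b q => Z (b, q)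
  refine Finset.prod_eq_zero (Finset.mem_univ s) ?_
  rw [hP]
  exact hs

section

variable {k : Type} {K : Type} [Field k] [Infinite k] [Field K] {n : ℕ}
  {L : IntermediateField K (AlgebraicClosure K)} [FiniteDimensional K L] {r : ℕ} {c y : Fin r → ℕ}

/-- the vectors which are mapped to zero by the matrix -/
def kr {Q : Type*} {y : Q → ℕ} (A : ∀ q, Fin (y q) → Fin n → k) (q : Q) :
    Submodule k (Fin n → k) :=
  orth (Submodule.span k (Set.range (A q)))

theorem mem_kr {Q : Type*} {y : Q → ℕ} (A : ∀ q, Fin (y q) → Fin n → k) (q : Q) (v : Fin n → k) :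
    v ∈ kr A q ↔ ∀ l, ∑ i, v i * A q l i = 0 := by
  unfold kr
  rw [mem_orth_span]
  constructor
  · exact fun h l => h _ ⟨l, rfl⟩
  · rintro h _ ⟨l, rfl⟩
    exact h l

open scoped Classical in
/-- **The matrices.** -/
theorem lin_mat (A : ∀ q : Fin r × (L ≃ₐ[K] L), Fin (y q.1) → Fin n → k) {d' : ℕ} (hd' : 1 ≤ d')
    (hcy : ∑ j, c j * y j = n * d')
    (hBL : ∀ U : Submodule k (Fin n → k), d' * Nat.card (L ≃ₐ[K] L) * Module.finrank k U +
      ∑ q : Fin r × (L ≃ₐ[K] L), c q.1 * Module.finrank k (U ⊓ kr A q : Submodule _ _) ≤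
        ∑ q : Fin r × (L ≃ₐ[K] L), c q.1 * Module.finrank k U) :
    ∃ D : ℕ, 0 < D ∧ ∃ (X : Fin (d' * Nat.card (L ≃ₐ[K] L) * D) → Cps L c D → k)
        (e : Row L c y D ≃ Fin n × Fin (d' * Nat.card (L ≃ₐ[K] L) * D)),
        ∀ σ : L ≃ₐ[K] L, (Matrix.of fun ρ ρ' : Row L c y D => X (e ρ').2 ρ.1 *
          A (ρ.1.1.1, σ * ρ.1.1.2) ρ.2 (e ρ').1).det ≠ 0 := by
  have hg : Nat.card (L ≃ₐ[K] L) = Fintype.card (L ≃ₐ[K] L) := Nat.card_eq_fintype_card
  rw [hg] at hBL ⊢
  have hg0 : 0 < Fintype.card (L ≃ₐ[K] L) := Fintype.card_pos_iff.2 ⟨1⟩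
  set g := Fintype.card (L ≃ₐ[K] L) with hgd
  have hd0 : (0 : ℚ) < d' := by exact_mod_cast hd'
  have hgq : (0 : ℚ) < g := by exact_mod_cast hg0
  let Ts : Fin r × (L ≃ₐ[K] L) → Submodule k (Fin n → k) := fun q =>
    Submodule.span k (Set.range (A q))
  have hcond : BLc Ts ⊥ ⊤ (fun q => (c q.1 : ℚ) / (d' * g)) := by
    intro W _ _
    have h1 := hBL (orth W)
    have h2 : ∀ q, Module.finrank k (orth W) + Module.finrank k (Ts q ⊓ W : Submodule _ _) =
        Module.finrank k (orth W ⊓ kr A q : Submodule _ _) + Module.finrank k (Ts q) := by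
      intro q
      have h3 : orth W ⊓ kr A q = orth (W ⊔ Ts q) := (orth_sup _ _).symm
      have h4 := orth_rank W
      have h5 := orth_rank (W ⊔ Ts q)
      have h6 := Submodule.finrank_sup_add_finrank_inf_eq W (Ts q)
      rw [h3, inf_comm (Ts q) W]
      omega
    have h3 := orth_rank W
    have hn : dm (⊤ : Submodule k (Fin n → k)) = n := by
      unfold dm
      rw [finrank_top, Module.finrank_fintype_fun_eq_card, Fintype.card_fin]
    have h4 : ((d' : ℚ) * g) * (n - dm W) ≤ ∑ q : Fin r × (L ≃ₐ[K] L),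
        (c q.1 : ℚ) * (dm (Ts q ⊓ ⊤) - dm (Ts q ⊓ W)) := by
      have h5 : ∀ q, dm (Ts q ⊓ ⊤) - dm (Ts q ⊓ W) =
          (Module.finrank k (orth W) : ℚ) - Module.finrank k (orth W ⊓ kr A q : Submodule _ _) := by
        intro q
        have h6 : ((Module.finrank k (orth W) + Module.finrank k (Ts q ⊓ W : Submodule _ _) : ℕ) : ℚ)
            = (Module.finrank k (orth W ⊓ kr A q : Submodule _ _) + Module.finrank k (Ts q) : ℕ) := by
          rw [h2 q]
        push_cast at h6
        unfold dm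
        rw [inf_top_eq]
        linarith
      have h6 : ((n : ℕ) : ℚ) - dm W = Module.finrank k (orth W) := by
        have h7 : ((Module.finrank k W + Module.finrank k (orth W) : ℕ) : ℚ) = (n : ℕ) := by
          rw [h3]
        push_cast at h7
        unfold dm
        linarith
      rw [h6]
      simp only [h5, mul_sub]
      rw [Finset.sum_sub_distrib]
      have h7 : ((d' * g * Module.finrank k (orth W) + ∑ q : Fin r × (L ≃ₐ[K] L),
          c q.1 * Module.finrank k (orth W ⊓ kr A q : Submodule _ _) : ℕ) : ℚ) ≤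
          ((∑ q : Fin r × (L ≃ₐ[K] L), c q.1 * Module.finrank k (orth W) : ℕ) : ℚ) := by
        exact_mod_cast h1
      push_cast at h7
      linarith
    unfold slack
    rw [hn]
    have h5 : ∑ q : Fin r × (L ≃ₐ[K] L), (c q.1 : ℚ) / (d' * g) *
        (dm (Ts q ⊓ ⊤) - dm (Ts q ⊓ W)) = (∑ q : Fin r × (L ≃ₐ[K] L),
          (c q.1 : ℚ) * (dm (Ts q ⊓ ⊤) - dm (Ts q ⊓ W))) / (d' * g) := by
      rw [Finset.sum_div]
      exact Finset.sum_congr rfl fun q _ => by ring
    rw [h5, sub_nonneg, le_div_iff₀ (mul_pos hd0 hgq)]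
    linarith
  obtain ⟨m, D, hD, hm, hcert⟩ := has_of_BL n ⊥ ⊤ bot_le (by
    rw [finrank_top, finrank_bot, zero_add, Module.finrank_fintype_fun_eq_card, Fintype.card_fin])
    _ (fun q : Fin r × (L ≃ₐ[K] L) => div_nonneg (Nat.cast_nonneg (c q.1))
      (mul_nonneg (Nat.cast_nonneg d') (Nat.cast_nonneg g))) hcond
  have hle : ∀ q : Fin r × (L ≃ₐ[K] L), (d' * g) * m q ≤ D * c q.1 := by
    intro q
    have h1 := mul_le_mul_of_nonneg_left (hm q) (by positivity : (0 : ℚ) ≤ d' * g)
    have h2 : ((d' : ℚ) * g) * (D * ((c q.1 : ℚ) / (d' * g))) = D * c q.1 := by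
      field_simp
    rw [h2] at h1
    exact_mod_cast h1
  obtain ⟨X, hX⟩ := cert_mono hle (cert_smul hcert (d' * g))
  have hcard : Fintype.card (Row L c y D) = Fintype.card (Fin n × Fin (d' * g * D)) := by
    rw [Fintype.card_sigma]
    simp only [Fintype.card_fin, Fintype.card_prod]
    rw [Fintype.sum_sigma]
    simp only [Finset.sum_const, Finset.card_univ, Fintype.card_fin, smul_eq_mul]
    rw [Fintype.sum_prod_type]
    simp only [Finset.sum_const, Finset.card_univ, smul_eq_mul]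
    have h1 : ∑ j, Fintype.card (L ≃ₐ[K] L) * (D * c j * y j) =
        Fintype.card (L ≃ₐ[K] L) * D * ∑ j, c j * y j := by
      rw [Finset.mul_sum]
      exact Finset.sum_congr rfl fun j _ => by ring
    rw [h1, hcy]
    ring
  let e : Row L c y D ≃ Fin n × Fin (d' * g * D) := Fintype.equivOfCardEq hcard
  refine ⟨D, hD, ?_⟩
  obtain ⟨X', hX'⟩ := sim_det (G := L ≃ₐ[K] L) (fun ρ' : Row L c y D => (e ρ').2)
    (fun ρ : Row L c y D => ρ.1)
    (fun σ ρ ρ' => A (ρ.1.1.1, σ * ρ.1.1.2) ρ.2 (e ρ').1) fun σ => by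
    -- the conjugate certificate
    let π : Cps L c D ≃ Cps L c D :=
      { toFun := fun a => ⟨(a.1.1, σ * a.1.2), a.2⟩
        invFun := fun a => ⟨(a.1.1, σ⁻¹ * a.1.2), a.2⟩
        left_inv := fun a => by
          obtain ⟨⟨j, τ⟩, x⟩ := a
          exact congrArg (fun τ' : L ≃ₐ[K] L => (⟨(j, τ'), x⟩ : Cps L c D))
            (inv_mul_cancel_left σ τ)
        right_inv := fun a => by
          obtain ⟨⟨j, τ⟩, x⟩ := a
          exact congrArg (fun τ' : L ≃ₐ[K] L => (⟨(j, τ'), x⟩ : Cps L c D))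
            (mul_inv_cancel_left σ τ) }
    refine ⟨fun b a => X b (π a), ?_⟩
    have h1 : Function.Surjective fun v => v ᵥ* (Matrix.of fun ρ ρ' : Row L c y D =>
        X (e ρ').2 (π ρ.1) * A (ρ.1.1.1, σ * ρ.1.1.2) ρ.2 (e ρ').1) := by
      intro z
      obtain ⟨s, hs, hsz⟩ := hX (fun b => fun i => z (e.symm (i, b))) fun _ => Submodule.mem_top
      have h2 : ∀ a : Cps L c D, ∃ α : Fin (y a.1.1) → k,
          ∑ l, α l • A (a.1.1, σ * a.1.2) l = s (π a) := by
        intro a
        have h3 := (hs (π a)).1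
        change s (π a) ∈ Submodule.span k (Set.range (A (a.1.1, σ * a.1.2))) at h3
        exact (Submodule.mem_span_range_iff_exists_fun _).1 h3
      choose α hα using h2
      refine ⟨fun ρ => α ρ.1 ρ.2, funext fun ρ' => ?_⟩
      have h3 := hsz (e ρ').2
      rw [Submodule.mem_bot, sub_eq_zero] at h3
      have h4 := congrFun h3 (e ρ').1
      have h5 : z (e.symm ((e ρ').1, (e ρ').2)) = z ρ' := by
        rw [Prod.mk.eta, e.symm_apply_apply]
      rw [h5, ← Equiv.sum_comp π] at h4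
      rw [h4, Finset.sum_apply]
      show ∑ ρ : Row L c y D, α ρ.1 ρ.2 * (X (e ρ').2 (π ρ.1) *
        A (ρ.1.1.1, σ * ρ.1.1.2) ρ.2 (e ρ').1) = _
      rw [Fintype.sum_sigma]
      refine Finset.sum_congr rfl fun a _ => ?_
      rw [← hα a, Pi.smul_apply, Finset.sum_apply, Finset.smul_sum]
      refine Finset.sum_congr rfl fun l _ => ?_
      rw [Pi.smul_apply, smul_eq_mul, smul_eq_mul]
      ring
    exact ((Matrix.isUnit_iff_isUnit_det _).1
      (Matrix.vecMul_surjective_iff_isUnit.1 h1)).ne_zero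
  exact ⟨X', e, hX'⟩

end

end Pool.Agent.H891.OM
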