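import Pool.Agent.H891.OM.PtStat

/-! Points on the boundary: definitions. -/

set_option autoImplicit false
set_option linter.overlappingInstances false
set_option linter.unusedSectionVars false

open FF IntermediateField Pool.Agent.W619.PQ Pool.Agent.W619.TW Pool.Agent.Y174

namespace Pool.Agent.H891.OM

section

variable {k : Type} {K : Type} [Field k] [Field K] [Algebra k K]
  {L : IntermediateField K (AlgebraicClosure K)}

/-- Let `V' → V` be a Galois covering with the function fields `K ⊆ L`, `x'` a smooth point of `V'`,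
and `Δ'` a reduced divisor with normal crossings at `x'`. Let `R` be a ring of rational functions on `V'`
which are regular at `x'`, stable under the Galois group. The functions `z i` are local coordinates
of `V'` at `x'`, and `Δ'` is given by the product of the `z i` with `i` in `Bd`. The vector fields `H i`
are `∂ / ∂ z i`, or `z i ∂ / ∂ z i` if `i` is in `Bd`, and map `R` into itself. So they are a frame of
the logarithmic vector fields, and the product of the `d z i`, or `d z i / z i` if `i` is in `Bd`,
generates `K_V' + Δ'` at `x'`. -/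
structure IsLogPoint (R : Subalgebra k L) {n : ℕ} (z : Fin n → L) (Bd : Finset (Fin n))
    (H : Fin n → Derivation k L L) : Prop where
  basis : IsTranscendenceBasis k z
  dual : ∀ i j, H i (z j) = if i = j then (if i ∈ Bd then z i else 1) else 0
  coord : ∀ i, z i ∈ R
  gal : ∀ σ : L ≃ₐ[K] L, ∀ a ∈ R, σ a ∈ R
  reg : ∀ i, ∀ a ∈ R, H i a ∈ R

end

section

variable {k K L : Type} [Field k] [Field K] [Field L] [Algebra k K] [Algebra K L] [Algebra k L]

/-- Logarithmic charts of the pairs `(Y j, Δ j)`. Let `t j` be coordinates of `Y j`. For each branch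
`q = (j, σ)` of the multivalued map `φ j` the functions `s q` on `V'` are the coordinates of an
(orbifold) chart of `Y j` at `φ q (x')`, and the boundary is given by the product of the `s q l` with `l` in
`Cd q`. The functions `w q l i`, regular at `x'`, are the values of `d (s q l)`, or of
`d (s q l) / s q l` if `l` is in `Cd q`, on the vector field `H i`. The coordinates of `Y j` depend
only on the `s q`: `d (σ t l)` is the sum of the `P l l'` times these (logarithmic) differentials. -/
def IsLogChart (R : Subalgebra k L) {n : ℕ} (H : Fin n → Derivation k L L) {r : ℕ}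
    {Y : Fin r → IntermediateField k L} {y : Fin r → ℕ} (t : ∀ j, Fin (y j) → Y j)
    (s : ∀ q : Fin r × (L ≃ₐ[K] L), Fin (y q.1) → L)
    (Cd : ∀ q : Fin r × (L ≃ₐ[K] L), Set (Fin (y q.1)))
    (w : ∀ q : Fin r × (L ≃ₐ[K] L), Fin (y q.1) → Fin n → L)
    (P : ∀ q : Fin r × (L ≃ₐ[K] L), Matrix (Fin (y q.1)) (Fin (y q.1)) L) : Prop :=
  (∀ q l i, w q l i ∈ R ∧ (l ∉ Cd q → H i (s q l) = w q l i) ∧
    (l ∈ Cd q → s q l ≠ 0 ∧ H i (s q l) = w q l i * s q l)) ∧
  ∀ q i l, H i (q.2 (t q.1 l : L)) = ∑ l', P q l l' * w q l' i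

/-- The logarithmic tangent space at the point of the fibre of the branch `q = (j, σ)` of the
multivalued map `φ j`, as a subspace of the logarithmic tangent space of `V'` with the basis
`H i`: it is given by the equations `∑ i, v i w l i = 0`. -/
def LogTan (R : Subalgebra k L) (ε : R →ₐ[k] k) {n : ℕ} {r : ℕ} {y : Fin r → ℕ}
    (w : ∀ q : Fin r × (L ≃ₐ[K] L), Fin (y q.1) → Fin n → L) (q : Fin r × (L ≃ₐ[K] L)) :
    Submodule k (Fin n → k) where
  carrier := {v | ∀ l, ∑ i, v i * val R ε (w q l i) = 0}
  add_mem' := fun {v u} hv hu l => by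
    simp only [Pi.add_apply, add_mul, Finset.sum_add_distrib]
    rw [hv l, hu l, add_zero]
  zero_mem' := fun l => by simp
  smul_mem' := fun a v hv l => by
    simp only [Pi.smul_apply, smul_eq_mul, mul_assoc]
    rw [← Finset.mul_sum, hv l, mul_zero]

/-- **The logarithmic Brascamp-Lieb condition at a point**, with the weights `p j = c j / d'`: for all
subspaces `U` of the logarithmic tangent space at the point, `dim U ≤ ∑ p j dim (dφ j (U))`, where
`dim (dφ j (U))` is the average over the `g` branches `q = (j, σ)` of `φ j` of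
`dim (dφ q (U)) = dim U - dim (U ∩ T q)`, `T q = LogTan q`. -/
def BLLog (R : Subalgebra k L) (ε : R →ₐ[k] k) {n : ℕ} [FiniteDimensional K L] {r : ℕ}
    {y : Fin r → ℕ} (w : ∀ q : Fin r × (L ≃ₐ[K] L), Fin (y q.1) → Fin n → L) (c : Fin r → ℕ)
    (d' : ℕ) : Prop :=
  ∀ U : Submodule k (Fin n → k), d' * Nat.card (L ≃ₐ[K] L) * Module.finrank k U +
    ∑ q : Fin r × (L ≃ₐ[K] L), c q.1 * Module.finrank k (U ⊓ LogTan R ε w q : Submodule _ _) ≤
      ∑ q : Fin r × (L ≃ₐ[K] L), c q.1 * Module.finrank k U

open scoped Classical in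
/-- The (logarithmic) differentials of the coordinates of the charts `s q` are the (logarithmic)
differentials of the coordinates `z i`, `i ∈ S q`, of `V'`, and the weights are a fractional covering:
for all `i` the sum of the `c j` over the branches `q = (j, σ)` with `i ∈ S q` is `d'` times the number
`g` of the elements of the Galois group. -/
def IsLogCoord {n r : ℕ} {y : Fin r → ℕ}
    (w : ∀ q : Fin r × (L ≃ₐ[K] L), Fin (y q.1) → Fin n → L)
    (S : Fin r × (L ≃ₐ[K] L) → Finset (Fin n)) [FiniteDimensional K L] (c : Fin r → ℕ) (d' : ℕ) :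
    Prop :=
  (∀ q, ∀ i ∈ S q, ∃ l, ∀ i', w q l i' = if i' = i then 1 else 0) ∧ (∀ q, (S q).card = y q.1) ∧
    ∀ i, ∑ q : Fin r × (L ≃ₐ[K] L), (if i ∈ S q then c q.1 else 0) = d' * Nat.card (L ≃ₐ[K] L)

end

end Pool.Agent.H891.OM
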