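import Pool.Agent.H891.OM.PtCoord
import Pool.Agent.H891.OM.LogDefs

/-! Sections without zeros at a point of the boundary. -/

set_option autoImplicit false
set_option linter.overlappingInstances false
set_option linter.unusedSectionVars false

open FF IntermediateField Pool.Agent.W619.PQ Pool.Agent.W619.PL Pool.Agent.W619.TW
  Pool.Agent.W603.LV Pool.Agent.W619.Y Pool.Agent.Y174 Pool.Agent.W824.PG Pool.Agent.H891.BL
  Pool.Agent.H891.RH
open scoped Matrix Kronecker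

namespace Pool.Agent.H891.OM

section

variable {k : Type} {K : Type} [Field k] [Field K] [Algebra k K] [CharZero k]
  {L : IntermediateField K (AlgebraicClosure K)} {r n : ℕ} {c y : Fin r → ℕ}
  {Y : Fin r → IntermediateField k L} [FiniteDimensional K L]
  {R : Subalgebra k L} {ε : R →ₐ[k] k} {H : Fin n → Derivation k L L}

open scoped Classical in
/-- the determinant in the charts -/
theorem chart_log {N D : ℕ} (X : Fin N → Cps L c D → k) (e : Row L c y D ≃ Fin n × Fin N)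
    {t : ∀ j, Fin (y j) → Y j} {w : ∀ q : Fin r × (L ≃ₐ[K] L), Fin (y q.1) → Fin n → L}
    {P : ∀ q : Fin r × (L ≃ₐ[K] L), Matrix (Fin (y q.1)) (Fin (y q.1)) L}
    (hP : ∀ q i l, H i (q.2 (t q.1 l : L)) = ∑ l', P q l l' * w q l' i) (σ : L ≃ₐ[K] L) :
    (Matrix.of fun ρ ρ' : Row L c y D => algebraMap k L (X (e ρ').2 ρ.1) *
      H (e ρ').1 ((σ * ρ.1.1.2) (t ρ.1.1.1 ρ.2 : L))).det =
      (∏ q : Fin r × (L ≃ₐ[K] L), (P q).det ^ (D * c q.1)) *
        (Matrix.of fun ρ ρ' : Row L c y D => algebraMap k L (X (e ρ').2 ρ.1) *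
          w (ρ.1.1.1, σ * ρ.1.1.2) ρ.2 (e ρ').1).det := by
  let Q : ∀ a : Cps L c D, Matrix (Fin (y a.1.1)) (Fin (y a.1.1)) L := fun a =>
    P (a.1.1, σ * a.1.2)
  have h1 : (Matrix.of fun ρ ρ' : Row L c y D => algebraMap k L (X (e ρ').2 ρ.1) *
      H (e ρ').1 ((σ * ρ.1.1.2) (t ρ.1.1.1 ρ.2 : L))) = Matrix.blockDiagonal' Q *
        (Matrix.of fun ρ ρ' : Row L c y D => algebraMap k L (X (e ρ').2 ρ.1) *
          w (ρ.1.1.1, σ * ρ.1.1.2) ρ.2 (e ρ').1) := by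
    refine Matrix.ext fun ρ ρ' => ?_
    rw [Matrix.mul_apply, Fintype.sum_sigma]
    rw [Finset.sum_eq_single ρ.1]
    · obtain ⟨a, l⟩ := ρ
      show algebraMap k L (X (e ρ').2 a) * H (e ρ').1 ((σ * a.1.2) (t a.1.1 l : L)) = _
      rw [hP (a.1.1, σ * a.1.2) (e ρ').1 l, Finset.mul_sum]
      refine Finset.sum_congr rfl fun l' _ => ?_
      rw [Matrix.blockDiagonal'_apply_eq]
      show _ = P (a.1.1, σ * a.1.2) l l' * (algebraMap k L (X (e ρ').2 a) *
        w (a.1.1, σ * a.1.2) l' (e ρ').1)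
      ring
    · intro a _ ha
      refine Finset.sum_eq_zero fun l' _ => ?_
      obtain ⟨a', l⟩ := ρ
      rw [Matrix.blockDiagonal'_apply_ne Q l l' (Ne.symm ha), zero_mul]
    · intro h
      exact (h (Finset.mem_univ _)).elim
  rw [h1, Matrix.det_mul, det_bd]
  congr 1
  rw [Fintype.prod_sigma]
  have h2 : ∀ q : Fin r × (L ≃ₐ[K] L), ∏ x : Fin (D * c q.1), (Q ⟨q, x⟩).det =
      (P (q.1, σ * q.2)).det ^ (D * c q.1) := by
    intro q
    show ∏ _x : Fin (D * c q.1), (P (q.1, σ * q.2)).det = _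
    rw [Finset.prod_const, Finset.card_univ, Fintype.card_fin]
  rw [Finset.prod_congr rfl fun q _ => h2 q]
  let π : (Fin r × (L ≃ₐ[K] L)) ≃ (Fin r × (L ≃ₐ[K] L)) :=
    { toFun := fun q => (q.1, σ * q.2)
      invFun := fun q => (q.1, σ⁻¹ * q.2)
      left_inv := fun q => Prod.ext rfl (inv_mul_cancel_left _ _)
      right_inv := fun q => Prod.ext rfl (mul_inv_cancel_left _ _) }
  exact Equiv.prod_comp π fun q => (P q).det ^ (D * c q.1)

variable [IsGalois K L]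

open scoped Classical in
/-- **The sections.** -/
theorem log_sec (hess : Algebra.EssFiniteType k K) (hn : Algebra.trdeg k K = n)
    [∀ j, Algebra.EssFiniteType k (Y j)] (hy : ∀ j, Algebra.trdeg k (Y j) = y j)
    {t : ∀ j, Fin (y j) → Y j} (ht : ∀ j, IsTranscendenceBasis k (t j))
    {s : ∀ q : Fin r × (L ≃ₐ[K] L), Fin (y q.1) → L}
    {Cd : ∀ q : Fin r × (L ≃ₐ[K] L), Set (Fin (y q.1))}
    {w : ∀ q : Fin r × (L ≃ₐ[K] L), Fin (y q.1) → Fin n → L}
    {P : ∀ q : Fin r × (L ≃ₐ[K] L), Matrix (Fin (y q.1)) (Fin (y q.1)) L}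
    (hch : IsLogChart R H t s Cd w P) {F : ∀ j, Fin (y j) → Derivation k (Y j) (Y j)}
    (hF : ∀ j l l', F j l (t j l') = if l = l' then 1 else 0) {d' : ℕ} (hd' : 1 ≤ d')
    (hcy : ∑ j, c j * y j = n * d') (hBL : BLLog R ε w c d') :
    ∃ D : ℕ, 0 < D ∧ ∃ u : L, NonzeroAt R ε u ∧
      ∀ (δ : Place k K → ℝ) (δY : ∀ j, Place k (Y j) → ℝ), LocBound n L δ Y δY c d' →
        ∀ (T : ℕ) (η : ∀ j, (Fin (y j) → Derivation k (Y j) (Y j)) → Y j),
        (∀ j, PairSec k (Y j) (y j) (δY j) {1} (T * (D * c j)) 0 (η j)) →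
        ∃ ω, PairSec k K n δ {1} (T * (D * d' * Nat.card (L ≃ₐ[K] L) ^ 2)) 0 ω ∧
          ∀ (y₀ : Fin n → K) (E : Fin n → Derivation k K K), IsTranscendenceBasis k y₀ →
            (∀ i j, E i (y₀ j) = if i = j then 1 else 0) →
            pullVal H y₀ E (T * (D * d' * Nat.card (L ≃ₐ[K] L) ^ 2)) ω = u ^ T *
              (∏ q : Fin r × (L ≃ₐ[K] L), (P q).det ^ (T * (D * c q.1)) *
                q.2 (η q.1 (F q.1) : L)) ^ Nat.card (L ≃ₐ[K] L) := by
  have hk : Infinite k := CharZero.infinite k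
  let A : ∀ q : Fin r × (L ≃ₐ[K] L), Fin (y q.1) → Fin n → k := fun q l i =>
    val R ε (w q l i)
  have hkr : ∀ q, kr A q = LogTan R ε w q := by
    intro q
    ext v
    rw [mem_kr]
    rfl
  obtain ⟨D, hD, X, e, hX⟩ := lin_mat A hd' hcy fun U => by
    refine (le_of_eq ?_).trans (hBL U)
    congr 1
    refine Finset.sum_congr rfl fun q _ => ?_
    have h1 : kr A q = LogTan R ε w q := hkr q
    exact congrArg (fun W : Submodule k (Fin n → k) =>
      c q.1 * Module.finrank k (U ⊓ W : Submodule _ _)) h1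
  let Δ : (L ≃ₐ[K] L) → L := fun σ =>
    (Matrix.of fun ρ ρ' : Row L c y D => algebraMap k L (X (e ρ').2 ρ.1) *
      w (ρ.1.1.1, σ * ρ.1.1.2) ρ.2 (e ρ').1).det
  have hΔ : ∀ σ, NonzeroAt R ε (Δ σ) := by
    intro σ
    have hmem' : ∀ ρ ρ' : Row L c y D, w (ρ.1.1.1, σ * ρ.1.1.2) ρ.2 (e ρ').1 ∈ R :=
      fun ρ ρ' => (hch.1 _ _ _).1
    have hmem : ∀ ρ ρ' : Row L c y D, algebraMap k L (X (e ρ').2 ρ.1) *
        w (ρ.1.1.1, σ * ρ.1.1.2) ρ.2 (e ρ').1 ∈ R := fun ρ ρ' =>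
      R.mul_mem (R.algebraMap_mem _) (hmem' ρ ρ')
    let MR : Matrix (Row L c y D) (Row L c y D) R := Matrix.of fun ρ ρ' => ⟨_, hmem ρ ρ'⟩
    have h1 : Δ σ = R.val MR.det := by
      have h3 : R.val MR.det = (R.val.toRingHom.mapMatrix MR).det :=
        RingHom.map_det R.val.toRingHom MR
      rw [h3]
      show Matrix.det _ = _
      congr 1
    rw [h1]
    refine ⟨MR.det.2, ?_⟩
    have h2 : (⟨R.val MR.det, MR.det.2⟩ : R) = MR.det := rfl
    have h3 : ε MR.det = (ε.toRingHom.mapMatrix MR).det := RingHom.map_det ε.toRingHom MR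
    rw [h2, h3]
    have h4 : ε.toRingHom.mapMatrix MR = Matrix.of fun ρ ρ' : Row L c y D => X (e ρ').2 ρ.1 *
        A (ρ.1.1.1, σ * ρ.1.1.2) ρ.2 (e ρ').1 := by
      refine Matrix.ext fun ρ ρ' => ?_
      show ε ⟨algebraMap k L (X (e ρ').2 ρ.1) *
        w (ρ.1.1.1, σ * ρ.1.1.2) ρ.2 (e ρ').1, hmem ρ ρ'⟩ = X (e ρ').2 ρ.1 *
          val R ε (w (ρ.1.1.1, σ * ρ.1.1.2) ρ.2 (e ρ').1)
      rw [val_mem (hmem' ρ ρ')]
      have h6 : (⟨algebraMap k L (X (e ρ').2 ρ.1) *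
          w (ρ.1.1.1, σ * ρ.1.1.2) ρ.2 (e ρ').1, hmem ρ ρ'⟩ : R) =
          algebraMap k R (X (e ρ').2 ρ.1) * ⟨_, hmem' ρ ρ'⟩ := rfl
      rw [h6, map_mul, AlgHom.commutes]
      rfl
    rw [h4]
    exact hX σ
  refine ⟨D, hD, ∏ σ, Δ σ, nz_prod _ fun σ _ => hΔ σ, fun δ δY hram T η hη => ?_⟩
  obtain ⟨y₁, hy₁⟩ := Pool.Agent.W636.PG.exists_basis k K n hn
  obtain ⟨E₁, hE₁⟩ := Pool.Agent.W636.PG.exists_duals k K n _ hy₁
  obtain ⟨HE, hHE⟩ := exists_exts (L := L) hn E₁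
  have h1 := norm_sec hess hn hy hram rfl X e ht hF hη hy₁ hE₁ hHE
  have h2 : T * (d' * Nat.card (L ≃ₐ[K] L) * D * Nat.card (L ≃ₐ[K] L)) =
      T * (D * d' * Nat.card (L ≃ₐ[K] L) ^ 2) := by ring
  rw [h2] at h1
  refine ⟨_, h1, fun y₀ E hy₀ hE => ?_⟩
  rw [pull_indep h1.1 hy₁ hE₁ hy₀ hE]
  have h5' : ∀ σ : L ≃ₐ[K] L, (Matrix.of fun a b => H a (algebraMap K L (y₁ b))).det ^
      (d' * Nat.card (L ≃ₐ[K] L) * D) * σ (MM X e (fun q => t q.1) HE).det =
      (∏ q : Fin r × (L ≃ₐ[K] L), (P q).det ^ (D * c q.1)) * Δ σ := fun σ =>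
    (conj_det (H := H) X e t hy₁ hE₁ hHE σ).trans (chart_log X e hch.2 σ)
  generalize hΘ : (MM X e (fun q => t q.1) HE).det = Θ at h5' ⊢
  set C : L := (Matrix.of fun a b => H a (algebraMap K L (y₁ b))).det with hC
  set Ξ : L := ∏ q : Fin r × (L ≃ₐ[K] L), q.2 (η q.1 (F q.1) : L) with hΞ
  have h3 : (Matrix.of fun a b => E₁ a (y₁ b)) = 1 := by
    refine Matrix.ext fun a b => ?_
    rw [Matrix.of_apply, hE₁, Matrix.one_apply]
  have h4 : ∀ σ : L ≃ₐ[K] L, σ Ξ = Ξ := by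
    intro σ
    let π : (Fin r × (L ≃ₐ[K] L)) ≃ (Fin r × (L ≃ₐ[K] L)) :=
      { toFun := fun q => (q.1, σ * q.2)
        invFun := fun q => (q.1, σ⁻¹ * q.2)
        left_inv := fun q => Prod.ext rfl (inv_mul_cancel_left _ _)
        right_inv := fun q => Prod.ext rfl (mul_inv_cancel_left _ _) }
    rw [hΞ, map_prod]
    exact Equiv.prod_comp π fun q => q.2 (η q.1 (F q.1) : L)
  have hg : ∃ g, g = Nat.card (L ≃ₐ[K] L) := ⟨_, rfl⟩
  obtain ⟨g, hg⟩ := hg
  have h5 : ∀ σ : L ≃ₐ[K] L, C ^ (d' * g * D) * σ Θ =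
      (∏ q : Fin r × (L ≃ₐ[K] L), (P q).det ^ (D * c q.1)) * Δ σ := by
    rw [hg]
    exact h5'
  rw [← hg]
  show C ^ (T * (D * d' * g ^ 2)) * algebraMap K L ((Matrix.of fun a b => E₁ a (y₁ b)).det ^ _ *
    Algebra.norm K (Θ ^ T * Ξ)) = _
  rw [h3, Matrix.det_one, one_pow, one_mul, Algebra.norm_eq_prod_automorphisms]
  have h6 : C ^ (T * (D * d' * g ^ 2)) = ∏ _σ : L ≃ₐ[K] L, (C ^ (d' * g * D)) ^ T := by
    rw [Finset.prod_const, Finset.card_univ, ← Nat.card_eq_fintype_card, ← hg, ← pow_mul,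
      ← pow_mul]
    congr 1
    ring
  rw [h6, ← Finset.prod_mul_distrib]
  have h7 : ∀ σ : L ≃ₐ[K] L, (C ^ (d' * g * D)) ^ T * σ (Θ ^ T * Ξ) = Δ σ ^ T *
      ∏ q : Fin r × (L ≃ₐ[K] L), (P q).det ^ (T * (D * c q.1)) * q.2 (η q.1 (F q.1) : L) := by
    intro σ
    rw [map_mul σ, map_pow σ, h4, ← mul_assoc, ← mul_pow, h5, mul_pow, Finset.prod_mul_distrib,
      ← hΞ, ← Finset.prod_pow]
    have h8 : ∀ q : Fin r × (L ≃ₐ[K] L), ((P q).det ^ (D * c q.1)) ^ T =
        (P q).det ^ (T * (D * c q.1)) := by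
      intro q
      rw [← pow_mul]
      congr 1
      ring
    simp only [h8]
    ring
  rw [Finset.prod_congr rfl fun σ _ => h7 σ, Finset.prod_mul_distrib, Finset.prod_pow,
    Finset.prod_const, Finset.card_univ, ← Nat.card_eq_fintype_card, ← hg]

/-- **Semiampleness at the point.** -/
theorem log_free (hess : Algebra.EssFiniteType k K) (hn : Algebra.trdeg k K = n)
    [∀ j, Algebra.EssFiniteType k (Y j)] (hy : ∀ j, Algebra.trdeg k (Y j) = y j)
    {t : ∀ j, Fin (y j) → Y j} (ht : ∀ j, IsTranscendenceBasis k (t j))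
    {s : ∀ q : Fin r × (L ≃ₐ[K] L), Fin (y q.1) → L}
    {Cd : ∀ q : Fin r × (L ≃ₐ[K] L), Set (Fin (y q.1))}
    {w : ∀ q : Fin r × (L ≃ₐ[K] L), Fin (y q.1) → Fin n → L}
    {P : ∀ q : Fin r × (L ≃ₐ[K] L), Matrix (Fin (y q.1)) (Fin (y q.1)) L}
    (hch : IsLogChart R H t s Cd w P) {F : ∀ j, Fin (y j) → Derivation k (Y j) (Y j)}
    (hF : ∀ j l l', F j l (t j l') = if l = l' then 1 else 0) {d' : ℕ} (hd' : 1 ≤ d')
    (hcy : ∑ j, c j * y j = n * d') (hBL : BLLog R ε w c d') {δ : Place k K → ℝ}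
    {δY : ∀ j, Place k (Y j) → ℝ} (hram : LocBound n L δ Y δY c d')
    (hfree : ∀ j, FreeIm R ε (fun σ => P (j, σ)) (F j) (δY j)) : FreeAt R ε H δ := by
  classical
  obtain ⟨D, hD, u, hu, hsec⟩ := log_sec hess hn hy ht hch hF hd' hcy hBL
  choose m hm η hη hηx using hfree
  let T : ℕ := ∏ j, m j
  have hT : 1 ≤ T := by
    show 0 < ∏ j, m j
    exact Finset.prod_pos fun j _ => hm j
  have hmT : ∀ j, ∃ b, T * (D * c j) = b * m j := by
    intro j
    obtain ⟨b, hb⟩ : m j ∣ T := Finset.dvd_prod_of_mem _ (Finset.mem_univ j)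
    refine ⟨b * (D * c j), ?_⟩
    rw [hb]
    ring
  choose b hb using hmT
  obtain ⟨ω, hω, hωE⟩ := hsec δ δY hram T (fun j X => η j X ^ b j) fun j => by
    rw [hb j]
    exact sec_pow' (hη j) _
  refine ⟨T * (D * d' * Nat.card (L ≃ₐ[K] L) ^ 2), ?_, ω, hω, fun y₀ E hy₀ hE => ?_⟩
  · have h1 : 0 < Nat.card (L ≃ₐ[K] L) := Nat.card_pos
    exact Nat.mul_pos hT (Nat.mul_pos (Nat.mul_pos hD hd') (pow_pos h1 2))
  · rw [hωE y₀ E hy₀ hE]
    refine nz_mul (nz_pow hu T) (nz_pow (nz_prod _ fun q _ => ?_) _)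
    have h1 : (P q).det ^ (T * (D * c q.1)) * q.2 ((η q.1 (F q.1) ^ b q.1 : Y q.1) : L) =
        ((P (q.1, q.2)).det ^ m q.1 * q.2 (η q.1 (F q.1) : L)) ^ b q.1 := by
      rw [hb q.1, mul_pow, ← pow_mul, mul_comm (m q.1)]
      congr 1
      show q.2 ((η q.1 (F q.1) : L) ^ b q.1) = _
      rw [map_pow]
    rw [h1]
    exact nz_pow (hηx q.1 q.2) _

end

section

variable {k : Type} {K : Type} [Field k] [Field K] [Algebra k K]
  {L : IntermediateField K (AlgebraicClosure K)} {r n : ℕ} {c y : Fin r → ℕ}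
  [FiniteDimensional K L] {R : Subalgebra k L} {ε : R →ₐ[k] k}

open scoped Classical in
/-- **The logarithmic Brascamp-Lieb condition for coordinate projections.** -/
theorem log_shearer {w : ∀ q : Fin r × (L ≃ₐ[K] L), Fin (y q.1) → Fin n → L}
    {S : Fin r × (L ≃ₐ[K] L) → Finset (Fin n)} {d' : ℕ}
    (hS : ∀ q, ∀ i ∈ S q, ∃ l, ∀ i', w q l i' = if i' = i then 1 else 0)
    (hy : ∀ q, (S q).card = y q.1)
    (hc : ∀ i, ∑ q ∈ Finset.univ.filter (fun q : Fin r × (L ≃ₐ[K] L) => i ∈ S q), c q.1 =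
      d' * Nat.card (L ≃ₐ[K] L)) :
    ∑ j, c j * y j = n * d' ∧ BLLog R ε w c d' := by
  have hg0 : 0 < Nat.card (L ≃ₐ[K] L) := Nat.card_pos
  constructor
  · have h1 : ∑ q : Fin r × (L ≃ₐ[K] L), c q.1 * y q.1 = n * (d' * Nat.card (L ≃ₐ[K] L)) := by
      calc ∑ q : Fin r × (L ≃ₐ[K] L), c q.1 * y q.1
          = ∑ q : Fin r × (L ≃ₐ[K] L), ∑ i, (if i ∈ S q then c q.1 else 0) := by
            refine Finset.sum_congr rfl fun q _ => ?_
            rw [← hy q, ← Finset.sum_filter, Finset.sum_const, smul_eq_mul, mul_comm]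
            congr 1
            congr 1
            ext i
            simp
        _ = ∑ i, ∑ q : Fin r × (L ≃ₐ[K] L), (if i ∈ S q then c q.1 else 0) := Finset.sum_comm
        _ = ∑ _i : Fin n, d' * Nat.card (L ≃ₐ[K] L) := by
            refine Finset.sum_congr rfl fun i _ => ?_
            rw [← Finset.sum_filter, hc]
        _ = _ := by rw [Finset.sum_const, Finset.card_univ, Fintype.card_fin, smul_eq_mul]
    have h2 : ∑ q : Fin r × (L ≃ₐ[K] L), c q.1 * y q.1 =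
        (∑ j, c j * y j) * Nat.card (L ≃ₐ[K] L) := by
      rw [Fintype.sum_prod_type, Finset.sum_mul]
      refine Finset.sum_congr rfl fun j _ => ?_
      show ∑ _σ : L ≃ₐ[K] L, c j * y j = _
      rw [Finset.sum_const, Finset.card_univ, ← Nat.card_eq_fintype_card, smul_eq_mul, mul_comm]
    rw [h2, ← mul_assoc] at h1
    exact Nat.eq_of_mul_eq_mul_right hg0 h1
  · intro U
    let g : Fin n → (Fin n → k) →ₗ[k] k := fun i => LinearMap.proj i
    have hg : zr g Finset.univ = ⊥ := by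
      rw [eq_bot_iff]
      intro v hv
      rw [mem_zr] at hv
      rw [Submodule.mem_bot]
      funext i
      exact hv i (Finset.mem_univ i)
    have h0 : ∀ i, ∑ q ∈ Finset.univ.filter (fun q : Fin r × (L ≃ₐ[K] L) => i ∈ S q), c q.1 +
        ∑ q ∈ Finset.univ.filter (fun q : Fin r × (L ≃ₐ[K] L) => i ∉ S q), c q.1 =
          ∑ q : Fin r × (L ≃ₐ[K] L), c q.1 := fun i =>
      Finset.sum_filter_add_sum_filter_not _ _ _
    have h1 := shearer_fin g U hg S (c := fun q => c q.1)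
      (d := ∑ q : Fin r × (L ≃ₐ[K] L), c q.1 - d' * Nat.card (L ≃ₐ[K] L)) fun i => by
        have h2 := h0 i
        rw [hc i] at h2
        omega
    have h2 : ∑ q : Fin r × (L ≃ₐ[K] L), c q.1 *
        Module.finrank k (U ⊓ LogTan R ε w q : Submodule _ _) ≤
          ∑ q : Fin r × (L ≃ₐ[K] L), c q.1 * Module.finrank k (U ⊓ zr g (S q) : Submodule _ _) := by
      refine Finset.sum_le_sum fun q _ => Nat.mul_le_mul_left _ ?_
      refine Submodule.finrank_mono (inf_le_inf_left U fun v hv => ?_)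
      rw [mem_zr]
      intro i hi
      obtain ⟨l, hl⟩ := hS q i hi
      have h3 : ∑ i', v i' * val R ε (w q l i') = 0 := hv l
      rw [Finset.sum_eq_single i] at h3
      · rw [hl, if_pos rfl, val_mem R.one_mem] at h3
        have h4 : (⟨1, R.one_mem⟩ : R) = 1 := rfl
        rw [h4, map_one, mul_one] at h3
        exact h3
      · intro i' _ hi'
        rw [hl, if_neg hi', val_mem R.zero_mem]
        have h4 : (⟨0, R.zero_mem⟩ : R) = 0 := rfl
        rw [h4, map_zero, mul_zero]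
      · intro h
        exact (h (Finset.mem_univ _)).elim
    have h3 : d' * Nat.card (L ≃ₐ[K] L) ≤ ∑ q : Fin r × (L ≃ₐ[K] L), c q.1 ∨
        Module.finrank k U = 0 := by
      by_cases hn : n = 0
      · right
        subst hn
        have h4 : Module.finrank k U ≤ Module.finrank k (Fin 0 → k) := Submodule.finrank_le _
        rw [Module.finrank_fin_fun] at h4
        omega
      · left
        have h4 := h0 ⟨0, by omega⟩
        rw [hc] at h4
        omega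
    rw [← Finset.sum_mul]
    rcases h3 with h3 | h3
    · have h4 := Nat.sub_add_cancel h3
      have h5 : d' * Nat.card (L ≃ₐ[K] L) * Module.finrank k U +
          (∑ q : Fin r × (L ≃ₐ[K] L), c q.1 - d' * Nat.card (L ≃ₐ[K] L)) * Module.finrank k U =
            (∑ q : Fin r × (L ≃ₐ[K] L), c q.1) * Module.finrank k U := by
        rw [← add_mul, add_comm, h4]
      rw [← h5]
      exact Nat.add_le_add_left (h2.trans h1) _
    · rw [h3, mul_zero, mul_zero, zero_add]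
      rw [h3, mul_zero] at h1
      exact h2.trans h1

end

end Pool.Agent.H891.OM
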