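import Pool.Agent.H891.OM.SemiDefs
import Pool.Agent.H891.OM.LogDefs

/-! Semiample log canonical divisors of normal projective varieties: definitions. -/

set_option autoImplicit false
set_option linter.overlappingInstances false
set_option linter.unusedSectionVars false

open FF IntermediateField Pool.Agent.W602.GT Pool.Agent.Y172 Pool.Agent.Y174
  Pool.Agent.W619.PQ Pool.Agent.W619.TW

namespace Pool.Agent.H891.OM

section

variable {K : Type} [Field K] [Algebra ℂ K] {N : ℕ}

/-- The divisor `K_X + B`, `B` being the reduced divisor with the components in the set `B` of prime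
divisors of the normal projective variety `X` with the generic point `x`, `n` being the dimension of
`X`, is semiample: for some `m ≥ 1` there is, for every prime divisor `Q` over `X`, a section of
`m (K_X + B)` without zero along the prime divisors `P` of `X` through the centre of `Q`. -/
def LogSemi (x : Fin (N + 1) → K) (n : ℕ) (B : Set (Place ℂ K)) : Prop :=
  ∃ m : ℕ, 1 ≤ m ∧ ∀ Q : Place ℂ K, Divisorial n Q → ∃ ω : (Fin n → Derivation ℂ K K) → K,
    IsPluri m ω ∧ (∀ P, IsPrimeDivisor x P → OrdGe P ω (-(m * B.indicator 1 P))) ∧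
      ∀ P, IsPrimeDivisor x P → Through x P Q → OrdEq P ω (-(m * B.indicator 1 P))

/-- The boundary `B` has simple normal crossings in the open subset `a ≠ 0` of the chart `x j ≠ 0` of
`X`, with the ring `R`: the `z i` are coordinates with the dual vector fields `E i`, and `B` is
the divisor of the product of the `z i` with `i` in `Bd`; the `H i` are `z i E i` if `i` is in `Bd`, and
`E i` otherwise, the frame of the logarithmic vector fields. -/
structure IsSncAt (x : Fin (N + 1) → K) (j : Fin (N + 1)) (a : K) (B : Set (Place ℂ K))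
    {L : IntermediateField K (AlgebraicClosure K)} (R : Subalgebra ℂ L) {n : ℕ} (z : Fin n → K)
    (Bd : Finset (Fin n)) (E H : Fin n → Derivation ℂ L L) : Prop where
  point : IsPoint R (fun i => algebraMap K L (z i)) E
  frame : ∀ i, H i = (if i ∈ Bd then algebraMap K L (z i) else 1) • E i
  bdry : ∀ P, IsPrimeDivisor x P → Centred x j P → P.ord a = 0 →
    (B.indicator 1 P : ℚ) = ∑ i ∈ Bd, (P.ord (z i) : ℚ)

end

/-- There are rational maps from the variety with the function field `L` to pairs `(Y j, ZY j)` of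
varieties with reduced boundaries, given by sets `ZY j` of divisors over `Y j`, defined at the point
`x'` given by `R`, `ε` and the frame `H` of the logarithmic vector fields, and weights `c j / d'`, such
that the logarithmic Brascamp-Lieb condition at the point is satisfied, the image of `x'` in `Y j` is
not in the stable base locus of the log canonical divisor of `(Y j, ZY j)`, for all `j`, and the
divisors in the set `S` are not mapped to divisors in the `ZY j`. -/
def HasLogMapsAt {K L : Type} [Field K] [Field L] [Algebra ℂ K] [Algebra K L] [Algebra ℂ L]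
    [FiniteDimensional K L] (R : Subalgebra ℂ L) (ε : R →ₐ[ℂ] ℂ) {n : ℕ}
    (H : Fin n → Derivation ℂ L L) (S : Set (Place ℂ L)) : Prop :=
  ∃ (r : ℕ) (Y : Fin r → IntermediateField ℂ L) (y : Fin r → ℕ) (t : ∀ j, Fin (y j) → Y j)
    (F : ∀ j, Fin (y j) → Derivation ℂ (Y j) (Y j))
    (s : ∀ q : Fin r × (L ≃ₐ[K] L), Fin (y q.1) → L)
    (Cd : ∀ q : Fin r × (L ≃ₐ[K] L), Set (Fin (y q.1)))
    (w : ∀ q : Fin r × (L ≃ₐ[K] L), Fin (y q.1) → Fin n → L)
    (P : ∀ q : Fin r × (L ≃ₐ[K] L), Matrix (Fin (y q.1)) (Fin (y q.1)) L)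
    (ZY : ∀ j, Set (Place ℂ (Y j))) (c : Fin r → ℕ) (d' : ℕ),
      (∀ j, Algebra.EssFiniteType ℂ (Y j)) ∧
      (∀ j, Algebra.trdeg ℂ (Y j) = y j) ∧ (∀ j, IsDualFrame (t j) (F j)) ∧
      IsLogChart R H t s Cd w P ∧ 1 ≤ d' ∧ ∑ j, c j * y j = n * d' ∧ BLLog R ε w c d' ∧
      (∀ v ∈ S, ∀ (j : Fin r) (u : Place ℂ (Y j)) (i : ℕ), LiesOn v u i → u ∉ ZY j) ∧
      ∀ j, FreeIm R ε (fun σ => P (j, σ)) (F j) ((ZY j).indicator 1)

/-- There is a point `x'` of `X` in the closure of the centre of the prime divisor `Q` over `X`, such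
that `(X, B)` has simple normal crossings near `x'`, with maps from `X` to pairs `(Y j, ZY j)` as in
`HasLogMapsAt`; the prime divisors of `X` which are not in `B` are not mapped to divisors in `ZY j`. -/
def HasLogMaps {K : Type} [Field K] [Algebra ℂ K] {N : ℕ} (x : Fin (N + 1) → K) (n : ℕ)
    (B : Set (Place ℂ K)) (Q : Place ℂ K) : Prop :=
  ∃ (L : IntermediateField K (AlgebraicClosure K)) (_ : FiniteDimensional K L)
    (R : Subalgebra ℂ L) (ε : R →ₐ[ℂ] ℂ) (j : Fin (N + 1)) (a : K) (z : Fin n → K)
    (Bd : Finset (Fin n)) (E H : Fin n → Derivation ℂ L L), IsPointOf x j a Q R ε ∧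
      IsSncAt x j a B R z Bd E H ∧ HasLogMapsAt (K := K) R ε H
        {w | ∃ v, IsPrimeDivisor x v ∧ v ∉ B ∧ LiesOn w v 1}

end Pool.Agent.H891.OM
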