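import Pool.Agent.H891.OM.Defs

/-! Points and base points: definitions. -/

set_option autoImplicit false
set_option linter.overlappingInstances false
set_option linter.unusedSectionVars false

open FF IntermediateField Pool.Agent.W619.PQ Pool.Agent.W619.TW Pool.Agent.Y174

namespace Pool.Agent.H891.OM

section

variable {k : Type} {K : Type} [Field k] [Field K] [Algebra k K]
  {L : IntermediateField K (AlgebraicClosure K)}

/-- Let `V' → V` be a Galois covering with the function fields `K ⊆ L`, and `x'` a smooth point of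
`V'`. Let `R` be a ring of rational functions on `V'` which are regular at `x'`, stable under the Galois
group; the point is given by the evaluation `R → k`. The functions `z i` are local coordinates of
`V'` at `x'`: the dual vector fields `H i` map `R` into itself. So `d z 1 ∧ ... ∧ d z n` generates the
canonical divisor of `V'` at `x'`. -/
structure IsPoint (R : Subalgebra k L) {n : ℕ} (z : Fin n → L) (H : Fin n → Derivation k L L) :
    Prop where
  basis : IsTranscendenceBasis k z
  dual : ∀ i j, H i (z j) = if i = j then 1 else 0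
  coord : ∀ i, z i ∈ R
  gal : ∀ σ : L ≃ₐ[K] L, ∀ a ∈ R, σ a ∈ R
  reg : ∀ i, ∀ a ∈ R, H i a ∈ R

end

section

variable {k K L : Type} [Field k] [Field K] [Field L] [Algebra k K] [Algebra K L] [Algebra k L]

/-- The function `a` is regular and not zero at the point. -/
def NonzeroAt (R : Subalgebra k L) (ε : R →ₐ[k] k) (a : L) : Prop :=
  ∃ h : a ∈ R, ε ⟨a, h⟩ ≠ 0

open Classical in
/-- The value at the point of a regular function. -/
noncomputable def val (R : Subalgebra k L) (ε : R →ₐ[k] k) (a : L) : k :=
  if h : a ∈ R then ε ⟨a, h⟩ else 0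

/-- Charts of the varieties `Y j`. Let `t j` be coordinates of `Y j`. For each branch `q = (j, σ)` of
the multivalued map `φ j` the functions `s q` on `V'` are regular at `x'`, and they are the coordinates
of an (orbifold) chart of `Y j` at `φ q (x')`: the coordinates of `Y j` depend only on them,
`d (σ t l) = ∑ P l l' d (s l')`. If `Y j` is smooth at `φ q (x')` with the local coordinates `t j`, one
can take `s q = σ t`, `P q = 1`. -/
def IsChart (R : Subalgebra k L) {n : ℕ} (H : Fin n → Derivation k L L) {r : ℕ}
    {Y : Fin r → IntermediateField k L} {y : Fin r → ℕ} (t : ∀ j, Fin (y j) → Y j)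
    (s : ∀ q : Fin r × (L ≃ₐ[K] L), Fin (y q.1) → L)
    (P : ∀ q : Fin r × (L ≃ₐ[K] L), Matrix (Fin (y q.1)) (Fin (y q.1)) L) : Prop :=
  (∀ q l, s q l ∈ R) ∧ ∀ q i l, H i (q.2 (t q.1 l : L)) = ∑ l', P q l l' * H i (s q l')

/-- The tangent space at the point of the fibre of the branch `q = (j, σ)` of the multivalued map
`φ j`, as a subspace of the tangent space of `V'` with the basis `∂ / ∂ z i`: it is given by the
equations `∑ i, v i ∂ (s l) / ∂ z i = 0`, where `s l` are the coordinates of the chart of `Y j`. -/
def TanPt (R : Subalgebra k L) (ε : R →ₐ[k] k) {n : ℕ} (H : Fin n → Derivation k L L) {r : ℕ}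
    {y : Fin r → ℕ} (s : ∀ q : Fin r × (L ≃ₐ[K] L), Fin (y q.1) → L)
    (q : Fin r × (L ≃ₐ[K] L)) : Submodule k (Fin n → k) where
  carrier := {v | ∀ l, ∑ i, v i * val R ε (H i (s q l)) = 0}
  add_mem' := fun {v w} hv hw l => by
    simp only [Pi.add_apply, add_mul, Finset.sum_add_distrib]
    rw [hv l, hw l, add_zero]
  zero_mem' := fun l => by simp
  smul_mem' := fun a v hv l => by
    simp only [Pi.smul_apply, smul_eq_mul, mul_assoc]
    rw [← Finset.mul_sum, hv l, mul_zero]

/-- **The Brascamp-Lieb condition at a point**, with the weights `p j = c j / d'`: for all subspaces `U`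
of the tangent space at the point, `dim U ≤ ∑ p j dim (dφ j (U))`, where `dim (dφ j (U))` is the
average over the `g` branches `q = (j, σ)` of `φ j` of `dim (dφ q (U)) = dim U - dim (U ∩ T q)`. -/
def BLPoint (R : Subalgebra k L) (ε : R →ₐ[k] k) {n : ℕ} (H : Fin n → Derivation k L L)
    [FiniteDimensional K L] {r : ℕ} {y : Fin r → ℕ}
    (s : ∀ q : Fin r × (L ≃ₐ[K] L), Fin (y q.1) → L) (c : Fin r → ℕ) (d' : ℕ) : Prop :=
  ∀ U : Submodule k (Fin n → k), d' * Nat.card (L ≃ₐ[K] L) * Module.finrank k U +
    ∑ q : Fin r × (L ≃ₐ[K] L), c q.1 * Module.finrank k (U ⊓ TanPt R ε H s q : Submodule _ _) ≤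
      ∑ q : Fin r × (L ≃ₐ[K] L), c q.1 * Module.finrank k U

/-- The value of the pull-back to `V'` of the rational `m`-canonical form `ω` of `V` on the frame `H` of
`V'`: it is computed with coordinates `y₀` of `V` and the dual frame `E`. -/
noncomputable def pullVal {n : ℕ} (H : Fin n → Derivation k L L) (y₀ : Fin n → K)
    (E : Fin n → Derivation k K K) (m : ℕ) (ω : (Fin n → Derivation k K K) → K) : L :=
  (Matrix.of fun a b => H a (algebraMap K L (y₀ b))).det ^ m * algebraMap K L (ω E)

/-- The image `x` of `x'` is not in the stable base locus of `K_V + Δ`, if `K_V + Δ` pulls back to `K_V'`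
near `x'`: for some `m ≥ 1` there is a section `ω` of `m (K_V + Δ)` whose pull-back to `V'` generates
`m K_V'` at `x'`, i.e. its value on the frame `∂ / ∂ z i` is regular and not zero at `x'`. -/
def FreeAt (R : Subalgebra k L) (ε : R →ₐ[k] k) {n : ℕ} (H : Fin n → Derivation k L L)
    (δ : Place k K → ℝ) : Prop :=
  ∃ m : ℕ, 1 ≤ m ∧ ∃ ω, PairSec k K n δ {1} m 0 ω ∧
    ∀ (y₀ : Fin n → K) (E : Fin n → Derivation k K K), IsTranscendenceBasis k y₀ →
      (∀ i j, E i (y₀ j) = if i = j then 1 else 0) → NonzeroAt R ε (pullVal H y₀ E m ω)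

/-- The images of the point under all the branches `σ` of the multivalued map of `V` to the variety
with the function field `M` are not in the stable base locus of `K_M + Δ_M`: for some `m ≥ 1` there
is a section `η` of `m (K_M + Δ_M)` whose values in the charts at these points, that is
`det (P σ) ^ m * σ (η (F))`, are regular and not zero at the point. Here `F` is the frame of `M` dual to
the coordinates `t`, and `d (σ t) = P σ d (s σ)` for the coordinates `s σ` of the chart. -/
def FreeIm (R : Subalgebra k L) (ε : R →ₐ[k] k) {M : IntermediateField k L} {y : ℕ}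
    (P : (L ≃ₐ[K] L) → Matrix (Fin y) (Fin y) L) (F : Fin y → Derivation k M M)
    (δM : Place k M → ℝ) : Prop :=
  ∃ m : ℕ, 1 ≤ m ∧ ∃ η, PairSec k M y δM {1} m 0 η ∧
    ∀ σ : L ≃ₐ[K] L, NonzeroAt R ε ((P σ).det ^ m * σ (η F : L))

end

end Pool.Agent.H891.OM
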