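import Pool.Agent.H891.OM.Main
import Pool.Agent.H891.OM.Lin
import Pool.Agent.H891.OM.PtDefs
import Pool.Agent.H891.RH.Kod

/-! Sections without zeros at a point. -/

set_option autoImplicit false
set_option linter.overlappingInstances false
set_option linter.unusedSectionVars false

open FF IntermediateField Pool.Agent.W619.PQ Pool.Agent.W619.PL Pool.Agent.W619.TW
  Pool.Agent.W603.LV Pool.Agent.W619.Y Pool.Agent.Y174 Pool.Agent.W824.PG Pool.Agent.H891.BL
  Pool.Agent.H891.RH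
open scoped Matrix Kronecker

namespace Pool.Agent.H891.OM

section

variable {k : Type} {K : Type} [Field k] [Field K] [Algebra k K]
  {L : IntermediateField K (AlgebraicClosure K)} {R : Subalgebra k L} {ε : R →ₐ[k] k}

theorem val_mem {a : L} (h : a ∈ R) : val R ε a = ε ⟨a, h⟩ := by
  unfold val
  exact dif_pos h

theorem nz_mul {a b : L} (ha : NonzeroAt R ε a) (hb : NonzeroAt R ε b) : NonzeroAt R ε (a * b) := by
  obtain ⟨ha, ha'⟩ := ha
  obtain ⟨hb, hb'⟩ := hb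
  refine ⟨R.mul_mem ha hb, ?_⟩
  have h1 : (⟨a * b, R.mul_mem ha hb⟩ : R) = ⟨a, ha⟩ * ⟨b, hb⟩ := rfl
  rw [h1, map_mul]
  exact mul_ne_zero ha' hb'

theorem nz_one : NonzeroAt R ε 1 := by
  refine ⟨R.one_mem, ?_⟩
  have h1 : (⟨1, R.one_mem⟩ : R) = 1 := rfl
  rw [h1, map_one]
  exact one_ne_zero

theorem nz_pow {a : L} (ha : NonzeroAt R ε a) (m : ℕ) : NonzeroAt R ε (a ^ m) := by
  induction m with
  | zero =>
    rw [pow_zero]
    exact nz_one
  | succ m ih =>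
    rw [pow_succ]
    exact nz_mul ih ha

theorem nz_prod {ι : Type*} (s : Finset ι) {a : ι → L} (ha : ∀ i ∈ s, NonzeroAt R ε (a i)) :
    NonzeroAt R ε (∏ i ∈ s, a i) := by
  classical
  induction s using Finset.induction_on with
  | empty =>
    rw [Finset.prod_empty]
    exact nz_one
  | insert i s hi ih =>
    rw [Finset.prod_insert hi]
    exact nz_mul (ha i (Finset.mem_insert_self i s)) (ih fun j hj => ha j (Finset.mem_insert_of_mem hj))

theorem nz_norm [FiniteDimensional K L] [IsGalois K L] {a : L}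
    (ha : ∀ σ : L ≃ₐ[K] L, NonzeroAt R ε (σ a)) :
    NonzeroAt R ε (algebraMap K L (Algebra.norm K a)) := by
  rw [Algebra.norm_eq_prod_automorphisms]
  exact nz_prod _ fun σ _ => ha σ

end

section

variable {k : Type} {K : Type} [Field k] [Field K] [Algebra k K] [CharZero k]
  {L : IntermediateField K (AlgebraicClosure K)} {r n : ℕ} {c y : Fin r → ℕ}
  {Y : Fin r → IntermediateField k L} [FiniteDimensional K L]
  {R : Subalgebra k L} {ε : R →ₐ[k] k} {z : Fin n → L} {H : Fin n → Derivation k L L}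

/-- the value of the pull-back does not depend on the coordinates -/
theorem pull_indep {m : ℕ} {ω : (Fin n → Derivation k K K) → K} (hω : IsPluriForm k K n m ω)
    {y₀ y₁ : Fin n → K} {E E₁ : Fin n → Derivation k K K} (hy₀ : IsTranscendenceBasis k y₀)
    (hE : ∀ i j, E i (y₀ j) = if i = j then 1 else 0) (hy₁ : IsTranscendenceBasis k y₁)
    (hE₁ : ∀ i j, E₁ i (y₁ j) = if i = j then 1 else 0) :
    pullVal H y₁ E₁ m ω = pullVal H y₀ E m ω := by
  have h1 : ω E₁ = (Matrix.of fun a b => E₁ a (y₀ b)).det ^ m * ω E := by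
    have h2 := hω (Matrix.of fun a b => E₁ a (y₀ b)) E
    have h3 : (fun i => ∑ j, (Matrix.of fun a b => E₁ a (y₀ b)) i j • E j) = E₁ := by
      funext i
      exact Pool.Agent.W73.PG.PULL.expand y₀ hy₀ E hE (E₁ i)
    rwa [h3] at h2
  have h2 : (Matrix.of fun a b => H a (algebraMap K L (y₀ b))) =
      (Matrix.of fun a b => H a (algebraMap K L (y₁ b))) *
        (algebraMap K L).mapMatrix (Matrix.of fun a b => E₁ a (y₀ b)) := by
    refine Matrix.ext fun a b => ?_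
    rw [Matrix.mul_apply]
    exact Pool.Agent.W73.PG.PULL.chain y₁ hy₁ E₁ hE₁ (H a) (y₀ b)
  unfold pullVal
  rw [h1, h2, Matrix.det_mul, ← RingHom.map_det, map_mul, map_pow]
  ring

open scoped Classical in
/-- the determinant in the charts -/
theorem chart_det {N D : ℕ} (X : Fin N → Cps L c D → k) (e : Row L c y D ≃ Fin n × Fin N)
    {t : ∀ j, Fin (y j) → Y j} {s : ∀ q : Fin r × (L ≃ₐ[K] L), Fin (y q.1) → L}
    {P : ∀ q : Fin r × (L ≃ₐ[K] L), Matrix (Fin (y q.1)) (Fin (y q.1)) L}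
    (hP : ∀ q i l, H i (q.2 (t q.1 l : L)) = ∑ l', P q l l' * H i (s q l')) (σ : L ≃ₐ[K] L) :
    (Matrix.of fun ρ ρ' : Row L c y D => algebraMap k L (X (e ρ').2 ρ.1) *
      H (e ρ').1 ((σ * ρ.1.1.2) (t ρ.1.1.1 ρ.2 : L))).det =
      (∏ q : Fin r × (L ≃ₐ[K] L), (P q).det ^ (D * c q.1)) *
        (Matrix.of fun ρ ρ' : Row L c y D => algebraMap k L (X (e ρ').2 ρ.1) *
          H (e ρ').1 (s (ρ.1.1.1, σ * ρ.1.1.2) ρ.2)).det := by
  let Q : ∀ a : Cps L c D, Matrix (Fin (y a.1.1)) (Fin (y a.1.1)) L := fun a =>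
    P (a.1.1, σ * a.1.2)
  have h1 : (Matrix.of fun ρ ρ' : Row L c y D => algebraMap k L (X (e ρ').2 ρ.1) *
      H (e ρ').1 ((σ * ρ.1.1.2) (t ρ.1.1.1 ρ.2 : L))) = Matrix.blockDiagonal' Q *
        (Matrix.of fun ρ ρ' : Row L c y D => algebraMap k L (X (e ρ').2 ρ.1) *
          H (e ρ').1 (s (ρ.1.1.1, σ * ρ.1.1.2) ρ.2)) := by
    refine Matrix.ext fun ρ ρ' => ?_
    rw [Matrix.mul_apply, Fintype.sum_sigma]
    rw [Finset.sum_eq_single ρ.1]
    · obtain ⟨a, l⟩ := ρ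
      show algebraMap k L (X (e ρ').2 a) * H (e ρ').1 ((σ * a.1.2) (t a.1.1 l : L)) = _
      rw [hP (a.1.1, σ * a.1.2) (e ρ').1 l, Finset.mul_sum]
      refine Finset.sum_congr rfl fun l' _ => ?_
      rw [Matrix.blockDiagonal'_apply_eq]
      show _ = P (a.1.1, σ * a.1.2) l l' * (algebraMap k L (X (e ρ').2 a) *
        H (e ρ').1 (s (a.1.1, σ * a.1.2) l'))
      ring
    · intro a _ ha
      refine Finset.sum_eq_zero fun l' _ => ?_
      obtain ⟨a', l⟩ := ρ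
      rw [Matrix.blockDiagonal'_apply_ne Q l l' (Ne.symm ha), zero_mul]
    · intro h
      exact (h (Finset.mem_univ _)).elim
  rw [h1, Matrix.det_mul, det_bd]
  congr 1
  rw [Fintype.prod_sigma]
  have h2 : ∀ q : Fin r × (L ≃ₐ[K] L), ∏ x : Fin (D * c q.1), (Q ⟨q, x⟩).det =
      (P (q.1, σ * q.2)).det ^ (D * c q.1) := by
    intro q
    show ∏ _x : Fin (D * c q.1), (P (q.1, σ * q.2)).det = _
    rw [Finset.prod_const, Finset.card_univ, Fintype.card_fin]
  rw [Finset.prod_congr rfl fun q _ => h2 q]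
  let π : (Fin r × (L ≃ₐ[K] L)) ≃ (Fin r × (L ≃ₐ[K] L)) :=
    { toFun := fun q => (q.1, σ * q.2)
      invFun := fun q => (q.1, σ⁻¹ * q.2)
      left_inv := fun q => Prod.ext rfl (inv_mul_cancel_left _ _)
      right_inv := fun q => Prod.ext rfl (mul_inv_cancel_left _ _) }
  exact Equiv.prod_comp π fun q => (P q).det ^ (D * c q.1)

variable [IsGalois K L]

open scoped Classical in
/-- the conjugates of the determinant, in the frame of the point -/
theorem conj_det {N D : ℕ} (X : Fin N → Cps L c D → k)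
    (e : Row L c y D ≃ Fin n × Fin N) (t : ∀ j, Fin (y j) → Y j) {y₀ : Fin n → K}
    (hy₀ : IsTranscendenceBasis k y₀) {E : Fin n → Derivation k K K}
    (hE : ∀ i j, E i (y₀ j) = if i = j then 1 else 0) {HE : Fin n → Derivation k L L}
    (hHE : ∀ i (x : K), HE i (algebraMap K L x) = algebraMap K L (E i x)) (σ : L ≃ₐ[K] L) :
    (Matrix.of fun a b => H a (algebraMap K L (y₀ b))).det ^ N *
      σ (MM X e (fun q => t q.1) HE).det =
      (Matrix.of fun ρ ρ' : Row L c y D => algebraMap k L (X (e ρ').2 ρ.1) *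
        H (e ρ').1 ((σ * ρ.1.1.2) (t ρ.1.1.1 ρ.2 : L))).det := by
  have hyL : IsTranscendenceBasis k (algebraMap K L ∘ y₀) := hy₀.algebraMap_comp
  have hEL : ∀ i j, HE i ((algebraMap K L ∘ y₀) j) = if i = j then 1 else 0 := by
    intro i j
    show HE i (algebraMap K L (y₀ j)) = _
    rw [hHE, hE]
    split_ifs
    · exact map_one _
    · exact map_zero _
  let C : Matrix (Fin n) (Fin n) L := Matrix.of fun a b => σ.symm (H a (algebraMap K L (y₀ b)))
  have h1 : (fun i => cd (σ.restrictScalars k) (H i)) = fun i => ∑ b, C i b • HE b := by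
    funext i
    have h2 := Pool.Agent.W73.PG.PULL.expand _ hyL HE hEL (cd (σ.restrictScalars k) (H i))
    rw [← h2]
    refine Finset.sum_congr rfl fun b _ => ?_
    congr 1
    show σ.symm (H i (σ (algebraMap K L (y₀ b)))) = _
    rw [σ.commutes]
    rfl
  have h2 : (MM X e (fun q => t q.1) (fun i => cd (σ.restrictScalars k) (H i))).det =
      C.det ^ N * (MM X e (fun q => t q.1) HE).det := by
    rw [h1, det_frame]
  have h3 : σ C.det = (Matrix.of fun a b => H a (algebraMap K L (y₀ b))).det := by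
    have h4 : σ C.det = (σ.toRingEquiv.toRingHom.mapMatrix C).det :=
      RingHom.map_det σ.toRingEquiv.toRingHom C
    rw [h4]
    congr 1
    refine Matrix.ext fun a b => ?_
    exact σ.apply_symm_apply _
  have h4 := congrArg σ h2
  rw [map_mul σ, map_pow σ, h3] at h4
  rw [← h4]
  have h5 : σ (MM X e (fun q => t q.1) (fun i => cd (σ.restrictScalars k) (H i))).det =
      (σ.toRingEquiv.toRingHom.mapMatrix
        (MM X e (fun q => t q.1) (fun i => cd (σ.restrictScalars k) (H i)))).det :=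
    RingHom.map_det σ.toRingEquiv.toRingHom _
  rw [h5]
  congr 1
  refine Matrix.ext fun ρ ρ' => ?_
  show σ (algebraMap k L (X (e ρ').2 ρ.1) * σ.symm (H (e ρ').1
    (σ (ρ.1.1.2 (t ρ.1.1.1 ρ.2 : L))))) = algebraMap k L (X (e ρ').2 ρ.1) *
      H (e ρ').1 ((σ * ρ.1.1.2) (t ρ.1.1.1 ρ.2 : L))
  rw [map_mul σ, σ.apply_symm_apply, IsScalarTower.algebraMap_apply k K L, σ.commutes]
  rfl

open scoped Classical in
/-- **The sections.** -/
theorem point_sec (hess : Algebra.EssFiniteType k K) (hn : Algebra.trdeg k K = n)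
    [∀ j, Algebra.EssFiniteType k (Y j)] (hy : ∀ j, Algebra.trdeg k (Y j) = y j)
    (hpt : IsPoint R z H) {t : ∀ j, Fin (y j) → Y j} (ht : ∀ j, IsTranscendenceBasis k (t j))
    {s : ∀ q : Fin r × (L ≃ₐ[K] L), Fin (y q.1) → L}
    {P : ∀ q : Fin r × (L ≃ₐ[K] L), Matrix (Fin (y q.1)) (Fin (y q.1)) L}
    (hch : IsChart R H t s P) {F : ∀ j, Fin (y j) → Derivation k (Y j) (Y j)}
    (hF : ∀ j l l', F j l (t j l') = if l = l' then 1 else 0) {d' : ℕ} (hd' : 1 ≤ d')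
    (hcy : ∑ j, c j * y j = n * d') (hBL : BLPoint R ε H s c d') :
    ∃ D : ℕ, 0 < D ∧ ∃ u : L, NonzeroAt R ε u ∧
      ∀ (δ : Place k K → ℝ) (δY : ∀ j, Place k (Y j) → ℝ), LocBound n L δ Y δY c d' →
        ∀ (T : ℕ) (η : ∀ j, (Fin (y j) → Derivation k (Y j) (Y j)) → Y j),
        (∀ j, PairSec k (Y j) (y j) (δY j) {1} (T * (D * c j)) 0 (η j)) →
        ∃ ω, PairSec k K n δ {1} (T * (D * d' * Nat.card (L ≃ₐ[K] L) ^ 2)) 0 ω ∧
          ∀ (y₀ : Fin n → K) (E : Fin n → Derivation k K K), IsTranscendenceBasis k y₀ →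
            (∀ i j, E i (y₀ j) = if i = j then 1 else 0) →
            pullVal H y₀ E (T * (D * d' * Nat.card (L ≃ₐ[K] L) ^ 2)) ω = u ^ T *
              (∏ q : Fin r × (L ≃ₐ[K] L), (P q).det ^ (T * (D * c q.1)) *
                q.2 (η q.1 (F q.1) : L)) ^ Nat.card (L ≃ₐ[K] L) := by
  have hk : Infinite k := CharZero.infinite k
  let A : ∀ q : Fin r × (L ≃ₐ[K] L), Fin (y q.1) → Fin n → k := fun q l i =>
    val R ε (H i (s q l))
  have hkr : ∀ q, kr A q = TanPt R ε H s q := by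
    intro q
    ext v
    rw [mem_kr]
    rfl
  obtain ⟨D, hD, X, e, hX⟩ := lin_mat A hd' hcy fun U => by
    refine (le_of_eq ?_).trans (hBL U)
    congr 1
    refine Finset.sum_congr rfl fun q _ => ?_
    have h1 : kr A q = TanPt R ε H s q := hkr q
    exact congrArg (fun W : Submodule k (Fin n → k) =>
      c q.1 * Module.finrank k (U ⊓ W : Submodule _ _)) h1
  let Δ : (L ≃ₐ[K] L) → L := fun σ =>
    (Matrix.of fun ρ ρ' : Row L c y D => algebraMap k L (X (e ρ').2 ρ.1) *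
      H (e ρ').1 (s (ρ.1.1.1, σ * ρ.1.1.2) ρ.2)).det
  have hΔ : ∀ σ, NonzeroAt R ε (Δ σ) := by
    intro σ
    have hmem' : ∀ ρ ρ' : Row L c y D, H (e ρ').1 (s (ρ.1.1.1, σ * ρ.1.1.2) ρ.2) ∈ R :=
      fun ρ ρ' => hpt.reg _ _ (hch.1 _ _)
    have hmem : ∀ ρ ρ' : Row L c y D, algebraMap k L (X (e ρ').2 ρ.1) *
        H (e ρ').1 (s (ρ.1.1.1, σ * ρ.1.1.2) ρ.2) ∈ R := fun ρ ρ' =>
      R.mul_mem (R.algebraMap_mem _) (hmem' ρ ρ')
    let MR : Matrix (Row L c y D) (Row L c y D) R := Matrix.of fun ρ ρ' => ⟨_, hmem ρ ρ'⟩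
    have h1 : Δ σ = R.val MR.det := by
      have h3 : R.val MR.det = (R.val.toRingHom.mapMatrix MR).det :=
        RingHom.map_det R.val.toRingHom MR
      rw [h3]
      show Matrix.det _ = _
      congr 1
    rw [h1]
    refine ⟨MR.det.2, ?_⟩
    have h2 : (⟨R.val MR.det, MR.det.2⟩ : R) = MR.det := rfl
    have h3 : ε MR.det = (ε.toRingHom.mapMatrix MR).det := RingHom.map_det ε.toRingHom MR
    rw [h2, h3]
    have h4 : ε.toRingHom.mapMatrix MR = Matrix.of fun ρ ρ' : Row L c y D => X (e ρ').2 ρ.1 *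
        A (ρ.1.1.1, σ * ρ.1.1.2) ρ.2 (e ρ').1 := by
      refine Matrix.ext fun ρ ρ' => ?_
      show ε ⟨algebraMap k L (X (e ρ').2 ρ.1) *
        H (e ρ').1 (s (ρ.1.1.1, σ * ρ.1.1.2) ρ.2), hmem ρ ρ'⟩ = X (e ρ').2 ρ.1 *
          val R ε (H (e ρ').1 (s (ρ.1.1.1, σ * ρ.1.1.2) ρ.2))
      rw [val_mem (hmem' ρ ρ')]
      have h6 : (⟨algebraMap k L (X (e ρ').2 ρ.1) *
          H (e ρ').1 (s (ρ.1.1.1, σ * ρ.1.1.2) ρ.2), hmem ρ ρ'⟩ : R) =
          algebraMap k R (X (e ρ').2 ρ.1) * ⟨_, hmem' ρ ρ'⟩ := rfl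
      rw [h6, map_mul, AlgHom.commutes]
      rfl
    rw [h4]
    exact hX σ
  refine ⟨D, hD, ∏ σ, Δ σ, nz_prod _ fun σ _ => hΔ σ, fun δ δY hram T η hη => ?_⟩
  obtain ⟨y₁, hy₁⟩ := Pool.Agent.W636.PG.exists_basis k K n hn
  obtain ⟨E₁, hE₁⟩ := Pool.Agent.W636.PG.exists_duals k K n _ hy₁
  obtain ⟨HE, hHE⟩ := exists_exts (L := L) hn E₁
  have h1 := norm_sec hess hn hy hram rfl X e ht hF hη hy₁ hE₁ hHE
  have h2 : T * (d' * Nat.card (L ≃ₐ[K] L) * D * Nat.card (L ≃ₐ[K] L)) =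
      T * (D * d' * Nat.card (L ≃ₐ[K] L) ^ 2) := by ring
  rw [h2] at h1
  refine ⟨_, h1, fun y₀ E hy₀ hE => ?_⟩
  rw [pull_indep h1.1 hy₁ hE₁ hy₀ hE]
  have h5' : ∀ σ : L ≃ₐ[K] L, (Matrix.of fun a b => H a (algebraMap K L (y₁ b))).det ^
      (d' * Nat.card (L ≃ₐ[K] L) * D) * σ (MM X e (fun q => t q.1) HE).det =
      (∏ q : Fin r × (L ≃ₐ[K] L), (P q).det ^ (D * c q.1)) * Δ σ := fun σ =>
    (conj_det (H := H) X e t hy₁ hE₁ hHE σ).trans (chart_det X e hch.2 σ)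
  generalize hΘ : (MM X e (fun q => t q.1) HE).det = Θ at h5' ⊢
  set C : L := (Matrix.of fun a b => H a (algebraMap K L (y₁ b))).det with hC
  set Ξ : L := ∏ q : Fin r × (L ≃ₐ[K] L), q.2 (η q.1 (F q.1) : L) with hΞ
  have h3 : (Matrix.of fun a b => E₁ a (y₁ b)) = 1 := by
    refine Matrix.ext fun a b => ?_
    rw [Matrix.of_apply, hE₁, Matrix.one_apply]
  have h4 : ∀ σ : L ≃ₐ[K] L, σ Ξ = Ξ := by
    intro σ
    let π : (Fin r × (L ≃ₐ[K] L)) ≃ (Fin r × (L ≃ₐ[K] L)) :=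
      { toFun := fun q => (q.1, σ * q.2)
        invFun := fun q => (q.1, σ⁻¹ * q.2)
        left_inv := fun q => Prod.ext rfl (inv_mul_cancel_left _ _)
        right_inv := fun q => Prod.ext rfl (mul_inv_cancel_left _ _) }
    rw [hΞ, map_prod]
    exact Equiv.prod_comp π fun q => q.2 (η q.1 (F q.1) : L)
  have hg : ∃ g, g = Nat.card (L ≃ₐ[K] L) := ⟨_, rfl⟩
  obtain ⟨g, hg⟩ := hg
  have h5 : ∀ σ : L ≃ₐ[K] L, C ^ (d' * g * D) * σ Θ =
      (∏ q : Fin r × (L ≃ₐ[K] L), (P q).det ^ (D * c q.1)) * Δ σ := by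
    rw [hg]
    exact h5'
  rw [← hg]
  show C ^ (T * (D * d' * g ^ 2)) * algebraMap K L ((Matrix.of fun a b => E₁ a (y₁ b)).det ^ _ *
    Algebra.norm K (Θ ^ T * Ξ)) = _
  rw [h3, Matrix.det_one, one_pow, one_mul, Algebra.norm_eq_prod_automorphisms]
  have h6 : C ^ (T * (D * d' * g ^ 2)) = ∏ _σ : L ≃ₐ[K] L, (C ^ (d' * g * D)) ^ T := by
    rw [Finset.prod_const, Finset.card_univ, ← Nat.card_eq_fintype_card, ← hg, ← pow_mul,
      ← pow_mul]
    congr 1
    ring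
  rw [h6, ← Finset.prod_mul_distrib]
  have h7 : ∀ σ : L ≃ₐ[K] L, (C ^ (d' * g * D)) ^ T * σ (Θ ^ T * Ξ) = Δ σ ^ T *
      ∏ q : Fin r × (L ≃ₐ[K] L), (P q).det ^ (T * (D * c q.1)) * q.2 (η q.1 (F q.1) : L) := by
    intro σ
    rw [map_mul σ, map_pow σ, h4, ← mul_assoc, ← mul_pow, h5, mul_pow, Finset.prod_mul_distrib,
      ← hΞ, ← Finset.prod_pow]
    have h8 : ∀ q : Fin r × (L ≃ₐ[K] L), ((P q).det ^ (D * c q.1)) ^ T =
        (P q).det ^ (T * (D * c q.1)) := by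
      intro q
      rw [← pow_mul]
      congr 1
      ring
    simp only [h8]
    ring
  rw [Finset.prod_congr rfl fun σ _ => h7 σ, Finset.prod_mul_distrib, Finset.prod_pow,
    Finset.prod_const, Finset.card_univ, ← Nat.card_eq_fintype_card, ← hg]

/-- **Semiampleness at the point.** -/
theorem point_free (hess : Algebra.EssFiniteType k K) (hn : Algebra.trdeg k K = n)
    [∀ j, Algebra.EssFiniteType k (Y j)] (hy : ∀ j, Algebra.trdeg k (Y j) = y j)
    (hpt : IsPoint R z H) {t : ∀ j, Fin (y j) → Y j} (ht : ∀ j, IsTranscendenceBasis k (t j))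
    {s : ∀ q : Fin r × (L ≃ₐ[K] L), Fin (y q.1) → L}
    {P : ∀ q : Fin r × (L ≃ₐ[K] L), Matrix (Fin (y q.1)) (Fin (y q.1)) L}
    (hch : IsChart R H t s P) {F : ∀ j, Fin (y j) → Derivation k (Y j) (Y j)}
    (hF : ∀ j l l', F j l (t j l') = if l = l' then 1 else 0) {d' : ℕ} (hd' : 1 ≤ d')
    (hcy : ∑ j, c j * y j = n * d') (hBL : BLPoint R ε H s c d') {δ : Place k K → ℝ}
    {δY : ∀ j, Place k (Y j) → ℝ} (hram : LocBound n L δ Y δY c d')
    (hfree : ∀ j, FreeIm R ε (fun σ => P (j, σ)) (F j) (δY j)) : FreeAt R ε H δ := by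
  classical
  obtain ⟨D, hD, u, hu, hsec⟩ := point_sec hess hn hy hpt ht hch hF hd' hcy hBL
  choose m hm η hη hηx using hfree
  let T : ℕ := ∏ j, m j
  have hT : 1 ≤ T := by
    show 0 < ∏ j, m j
    exact Finset.prod_pos fun j _ => hm j
  have hmT : ∀ j, ∃ b, T * (D * c j) = b * m j := by
    intro j
    obtain ⟨b, hb⟩ : m j ∣ T := Finset.dvd_prod_of_mem _ (Finset.mem_univ j)
    refine ⟨b * (D * c j), ?_⟩
    rw [hb]
    ring
  choose b hb using hmT
  obtain ⟨ω, hω, hωE⟩ := hsec δ δY hram T (fun j X => η j X ^ b j) fun j => by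
    rw [hb j]
    exact sec_pow' (hη j) _
  refine ⟨T * (D * d' * Nat.card (L ≃ₐ[K] L) ^ 2), ?_, ω, hω, fun y₀ E hy₀ hE => ?_⟩
  · have h1 : 0 < Nat.card (L ≃ₐ[K] L) := Nat.card_pos
    exact Nat.mul_pos hT (Nat.mul_pos (Nat.mul_pos hD hd') (pow_pos h1 2))
  · rw [hωE y₀ E hy₀ hE]
    refine nz_mul (nz_pow hu T) (nz_pow (nz_prod _ fun q _ => ?_) _)
    have h1 : (P q).det ^ (T * (D * c q.1)) * q.2 ((η q.1 (F q.1) ^ b q.1 : Y q.1) : L) =
        ((P (q.1, q.2)).det ^ m q.1 * q.2 (η q.1 (F q.1) : L)) ^ b q.1 := by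
      rw [hb q.1, mul_pow, ← pow_mul, mul_comm (m q.1)]
      congr 1
      show q.2 ((η q.1 (F q.1) : L) ^ b q.1) = _
      rw [map_pow]
    rw [h1]
    exact nz_pow (hηx q.1 q.2) _

end

end Pool.Agent.H891.OM
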