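import Pool.Agent.H891.OM.PtCoord

/-! Sections at a point: the statements. -/

set_option autoImplicit false
set_option linter.overlappingInstances false
set_option linter.unusedSectionVars false

open FF IntermediateField Pool.Agent.W619.PQ Pool.Agent.W619.TW Pool.Agent.Y174

namespace Pool.Agent.H891.OM

/-- The functions `t l` are coordinates (a transcendence basis) of the function field `M`, and the
vector fields `F l` are the dual frame `∂ / ∂ t l`. -/
def IsDualFrame {k M : Type} [Field k] [Field M] [Algebra k M] {n : ℕ} (t : Fin n → M)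
    (F : Fin n → Derivation k M M) : Prop :=
  IsTranscendenceBasis k t ∧ ∀ l l', F l (t l') = if l = l' then 1 else 0

section

variable {k K L : Type} [Field k] [Field K] [Field L] [Algebra k K] [Algebra K L] [Algebra k L]
  [FiniteDimensional K L]

open scoped Classical in
/-- The charts `s q` consist of the coordinates `z i`, `i ∈ S q`, of `V'`, and the weights are a
fractional covering: for all `i` the sum of the `c j` over the branches `q = (j, σ)` with `i ∈ S q`
is `d'` times the number `g` of the elements of the Galois group. -/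
def IsCoordChart {n r : ℕ} {y : Fin r → ℕ} (z : Fin n → L)
    (s : ∀ q : Fin r × (L ≃ₐ[K] L), Fin (y q.1) → L) (S : Fin r × (L ≃ₐ[K] L) → Finset (Fin n))
    (c : Fin r → ℕ) (d' : ℕ) : Prop :=
  (∀ q, ∀ i ∈ S q, ∃ l, s q l = z i) ∧ (∀ q, (S q).card = y q.1) ∧
    ∀ i, ∑ q : Fin r × (L ≃ₐ[K] L), (if i ∈ S q then c q.1 else 0) = d' * Nat.card (L ≃ₐ[K] L)

open scoped Classical in
/-- The product over all branches `q = (j, σ)` of the values of the rational `m j`-canonical forms
`η j` of `Y j` in the charts `s q`, i.e. of the values `det (P q) ^ m j * σ (η j (F j))` of the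
pull-backs `φ q^* η j` on the frames given by the coordinates `s q`. -/
noncomputable def pullProd {r : ℕ} {Y : Fin r → IntermediateField k L} {y : Fin r → ℕ}
    (P : ∀ q : Fin r × (L ≃ₐ[K] L), Matrix (Fin (y q.1)) (Fin (y q.1)) L)
    (F : ∀ j, Fin (y j) → Derivation k (Y j) (Y j)) (m : Fin r → ℕ)
    (η : ∀ j, (Fin (y j) → Derivation k (Y j) (Y j)) → Y j) : L :=
  ∏ q : Fin r × (L ≃ₐ[K] L), (P q).det ^ m q.1 * q.2 (η q.1 (F q.1) : L)

/-- For all `T` and all sections `η j` of `T D c j (K + Δ j)` on `Y j` there is a section `ω` of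
`T D d' g ^ 2 (K_V + Δ)` whose pull-back to `V'` has the value `u ^ T ∏ (φ q^* η j) ^ g` on the
frame `H`; the product is over all branches `q = (j, σ)`, and `g` is the order of the Galois group. -/
def GeneratedBy {n : ℕ} (H : Fin n → Derivation k L L) {r : ℕ}
    (Y : Fin r → IntermediateField k L) {y : Fin r → ℕ}
    (P : ∀ q : Fin r × (L ≃ₐ[K] L), Matrix (Fin (y q.1)) (Fin (y q.1)) L)
    (F : ∀ j, Fin (y j) → Derivation k (Y j) (Y j)) (δ : Place k K → ℝ)
    (δY : ∀ j, Place k (Y j) → ℝ) (c : Fin r → ℕ) (d' D : ℕ) (u : L) : Prop :=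
  ∀ (T : ℕ) (η : ∀ j, (Fin (y j) → Derivation k (Y j) (Y j)) → Y j),
    (∀ j, PairSec k (Y j) (y j) (δY j) {1} (T * (D * c j)) 0 (η j)) →
    ∃ ω, PairSec k K n δ {1} (T * (D * d' * Nat.card (L ≃ₐ[K] L) ^ 2)) 0 ω ∧
      ∀ (y₀ : Fin n → K) (E : Fin n → Derivation k K K), IsDualFrame y₀ E →
        pullVal H y₀ E (T * (D * d' * Nat.card (L ≃ₐ[K] L) ^ 2)) ω =
          u ^ T * pullProd P F (fun j => T * (D * c j)) η ^ Nat.card (L ≃ₐ[K] L)

end

end Pool.Agent.H891.OM
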