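import Pool.Graph.R_seed8.Y172.Defs
import Pool.Agent.H891.OM.PtStat

/-! Semiample canonical divisors of normal projective varieties: definitions. -/

set_option autoImplicit false
set_option linter.overlappingInstances false
set_option linter.unusedSectionVars false

open FF IntermediateField Pool.Agent.W602.GT Pool.Agent.Y172 Pool.Agent.W619.TW

namespace Pool.Agent.H891.OM

section

variable {K : Type} [Field K] [Algebra ℂ K] {N : ℕ}

/-- The canonical divisor of the normal projective variety `X` with the generic point `x`, `n` being the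
dimension of `X`, is semiample: for some `m ≥ 1` the divisorial sheaf `m K_X` is generated by its
sections, i.e. for every prime divisor `Q` over `X` there is a section of `m K_X` without zero along the
prime divisors `P` of `X` through the centre of `Q`. -/
def Semiample (x : Fin (N + 1) → K) (n : ℕ) : Prop :=
  ∃ m : ℕ, 1 ≤ m ∧ ∀ Q : Place ℂ K, Divisorial n Q → ∃ ω : (Fin n → Derivation ℂ K K) → K,
    IsPluri m ω ∧ (∀ P, IsPrimeDivisor x P → OrdGe P ω 0) ∧
      ∀ P, IsPrimeDivisor x P → Through x P Q → OrdEq P ω 0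

/-- `R` is the ring of the affine open subset `a ≠ 0` of the chart `x j ≠ 0` of `X`, the function `a`
is regular in this chart and not zero at the centre of `Q`, and the point `x'` of this subset, given by
the evaluation `ε`, is in the closure of the centre of `Q`. Here `L = K` is the function field of
`X`. -/
structure IsPointOf (x : Fin (N + 1) → K) (j : Fin (N + 1)) (a : K) (Q : Place ℂ K)
    {L : IntermediateField K (AlgebraicClosure K)} (R : Subalgebra ℂ L) (ε : R →ₐ[ℂ] ℂ) :
    Prop where
  eq : L = ⊥
  centred : Centred x j Q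
  mem : a ∈ chart x j
  unit : a ≠ 0 ∧ Q.ord a = 0
  ring : ∀ f : K, algebraMap K L f ∈ R ↔ ∃ i : ℕ, f * a ^ i ∈ chart x j
  point : ∀ f ∈ chart x j, 0 < Q.ord f → ¬ NonzeroAt R ε (algebraMap K L f)

end

/-- There are rational maps from the variety with the function field `L` to varieties `Y j`, defined at
the point `x'` given by `R`, `ε` and the frame `H` of the vector fields, and weights `c j / d'`, such that
the Brascamp-Lieb condition at the point is satisfied and the image of `x'` in `Y j` is not in the
stable base locus of `K_{Y j}`, for all `j`. -/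
def HasMapsAt {K L : Type} [Field K] [Field L] [Algebra ℂ K] [Algebra K L] [Algebra ℂ L]
    [FiniteDimensional K L] (R : Subalgebra ℂ L) (ε : R →ₐ[ℂ] ℂ) {n : ℕ}
    (H : Fin n → Derivation ℂ L L) : Prop :=
  ∃ (r : ℕ) (Y : Fin r → IntermediateField ℂ L) (y : Fin r → ℕ) (t : ∀ j, Fin (y j) → Y j)
    (F : ∀ j, Fin (y j) → Derivation ℂ (Y j) (Y j))
    (s : ∀ q : Fin r × (L ≃ₐ[K] L), Fin (y q.1) → L)
    (P : ∀ q : Fin r × (L ≃ₐ[K] L), Matrix (Fin (y q.1)) (Fin (y q.1)) L)
    (c : Fin r → ℕ) (d' : ℕ), (∀ j, Algebra.EssFiniteType ℂ (Y j)) ∧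
      (∀ j, Algebra.trdeg ℂ (Y j) = y j) ∧ (∀ j, IsDualFrame (t j) (F j)) ∧
      IsChart R H t s P ∧ 1 ≤ d' ∧ ∑ j, c j * y j = n * d' ∧ BLPoint R ε H s c d' ∧
      ∀ j, FreeIm R ε (fun σ => P (j, σ)) (F j) fun _ => 0

/-- There is a smooth point `x'` of `X` in the closure of the centre of the prime divisor `Q` over `X`,
with maps from `X` to varieties `Y j` as in `HasMapsAt`. -/
def HasMaps {K : Type} [Field K] [Algebra ℂ K] {N : ℕ} (x : Fin (N + 1) → K) (n : ℕ)
    (Q : Place ℂ K) : Prop :=
  ∃ (L : IntermediateField K (AlgebraicClosure K)) (_ : FiniteDimensional K L)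
    (R : Subalgebra ℂ L) (ε : R →ₐ[ℂ] ℂ) (j : Fin (N + 1)) (a : K) (z : Fin n → L)
    (H : Fin n → Derivation ℂ L L), IsPointOf x j a Q R ε ∧ IsPoint R z H ∧
      HasMapsAt (K := K) R ε H

end Pool.Agent.H891.OM
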