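import Pool.Graph.R_seed8.Y172.Loc3
import Pool.Agent.H891.OM.SemiDefs
import Pool.Agent.H891.OM.Point

/-! Semiample canonical divisors of normal projective varieties. -/

set_option autoImplicit false
set_option linter.overlappingInstances false
set_option linter.unusedSectionVars false

open FF IntermediateField Pool.Agent.W602.GT Pool.Agent.Y172 Pool.Agent.W619.TW

namespace Pool.Agent.H891.OM

section

variable {K : Type} [Field K] [Algebra ℂ K] {N n : ℕ} {x : Fin (N + 1) → K}

/-- `ω` is a section of `m K_X`, and generates it on the open subset `a ≠ 0` of the chart. -/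
def GoodOn (x : Fin (N + 1) → K) (n : ℕ) (j : Fin (N + 1)) (a : K) (m : ℕ)
    (ω : (Fin n → Derivation ℂ K K) → K) : Prop :=
  1 ≤ m ∧ IsPluri m ω ∧ (∀ P, IsPrimeDivisor x P → OrdGe P ω 0) ∧
    ∀ P, IsPrimeDivisor x P → Centred x j P → P.ord a = 0 → OrdEq P ω 0

theorem pow_good {ω : (Fin n → Derivation ℂ K K) → K} {P : Place ℂ K} (k : ℕ)
    (h : OrdEq P ω 0) : OrdEq P (fun D => ω D ^ k) 0 := by
  obtain ⟨h1, E, h2, h3, h4⟩ := h
  refine ⟨fun D hD => ?_, E, h2, pow_ne_zero _ h3, ?_⟩
  · rcases h1 D hD with h5 | h5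
    · by_cases hk : k = 0
      · right
        show (0 : ℚ) ≤ P.ord (ω D ^ k)
        rw [hk, pow_zero, P.ord_one]
        simp
      · left
        show ω D ^ k = 0
        rw [h5, zero_pow hk]
    · right
      show (0 : ℚ) ≤ P.ord (ω D ^ k)
      rw [P.ord_pow]
      push_cast
      exact mul_nonneg (Nat.cast_nonneg _) h5
  · show ((P.ord (ω E ^ k) : ℤ) : ℚ) = 0
    rw [P.ord_pow]
    push_cast
    rw [h4, mul_zero]

theorem pow_ge {ω : (Fin n → Derivation ℂ K K) → K} {P : Place ℂ K} (k : ℕ)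
    (h : OrdGe P ω 0) : OrdGe P (fun D => ω D ^ k) 0 := by
  intro D hD
  rcases h D hD with h5 | h5
  · by_cases hk : k = 0
    · right
      show (0 : ℚ) ≤ P.ord (ω D ^ k)
      rw [hk, pow_zero, P.ord_one]
      simp
    · left
      show ω D ^ k = 0
      rw [h5, zero_pow hk]
  · right
    show (0 : ℚ) ≤ P.ord (ω D ^ k)
    rw [P.ord_pow]
    push_cast
    exact mul_nonneg (Nat.cast_nonneg _) h5

theorem pow_pluri {m : ℕ} {ω : (Fin n → Derivation ℂ K K) → K} (k : ℕ) (h : IsPluri m ω) :
    IsPluri (m * k) (fun D => ω D ^ k) := by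
  intro A D
  show ω (fun i => ∑ j, A i j • D j) ^ k = A.det ^ (m * k) * ω D ^ k
  rw [h A D, mul_pow, pow_mul]

/-- **The Noetherian argument.** -/
theorem semi_of_local (h : ∀ Q : Place ℂ K, Divisorial n Q → ∃ j, Centred x j Q ∧
    ∃ a ∈ chart x j, a ≠ 0 ∧ Q.ord a = 0 ∧ ∃ m ω, GoodOn x n j a m ω) : Semiample x n := by
  classical
  let S : ∀ j : Fin (N + 1), Set (chart x j) := fun j =>
    {a | (a : K) ≠ 0 ∧ ∃ m ω, GoodOn x n j (a : K) m ω}
  have hfin : ∀ j, ∃ T : Finset (chart x j), (T : Set (chart x j)) ⊆ S j ∧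
      Ideal.span (S j) = Ideal.span (T : Set (chart x j)) := by
    intro j
    have h1 : (Ideal.span (S j)).FG := (isNoetherianRing_iff_ideal_fg (chart x j)).1 inferInstance _
    exact (Submodule.fg_span_iff_fg_span_finset_subset (S j)).1 h1
  choose T hTS hT using hfin
  choose m ω hgood using fun (b : Σ j, T j) => (hTS b.1 b.2.2).2
  let M : ℕ := ∏ b : Σ j, T j, m b
  have hM : 1 ≤ M := by
    show 0 < ∏ b : Σ j, T j, m b
    exact Finset.prod_pos fun b _ => (hgood b).1
  refine ⟨M, hM, fun Q hQ => ?_⟩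
  obtain ⟨j, hj, a, ha, ha0, haQ, m', ω', hg⟩ := h Q hQ
  have h1 : ∃ b : T j, Q.ord ((b : chart x j) : K) = 0 := by
    by_contra hcon
    push Not at hcon
    let I : Ideal (chart x j) :=
      { carrier := {f | (f : K) = 0 ∨ 0 < Q.ord (f : K)}
        zero_mem' := Or.inl rfl
        add_mem' := fun {f g} hf hg => by
          by_cases hf0 : (f : K) = 0
          · have h5 : ((f + g : chart x j) : K) = g := by
              show (f : K) + g = g
              rw [hf0, zero_add]
            show ((f + g : chart x j) : K) = 0 ∨ 0 < Q.ord ((f + g : chart x j) : K)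
            rw [h5]
            exact hg
          by_cases hg0 : (g : K) = 0
          · have h5 : ((f + g : chart x j) : K) = f := by
              show (f : K) + g = f
              rw [hg0, add_zero]
            show ((f + g : chart x j) : K) = 0 ∨ 0 < Q.ord ((f + g : chart x j) : K)
            rw [h5]
            exact hf
          by_cases hfg : (f : K) + g = 0
          · left
            exact hfg
          · right
            have h5 := Q.ord_add hf0 hg0 hfg
            have h6 : 0 < Q.ord (f : K) := hf.resolve_left hf0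
            have h7 : 0 < Q.ord (g : K) := hg.resolve_left hg0
            exact lt_of_lt_of_le (lt_min h6 h7) h5
        smul_mem' := fun c f hf => by
          by_cases hc0 : (c : K) = 0
          · left
            show (c : K) * f = 0
            rw [hc0, zero_mul]
          by_cases hf0 : (f : K) = 0
          · left
            show (c : K) * f = 0
            rw [hf0, mul_zero]
          right
          show 0 < Q.ord ((c : K) * f)
          rw [Q.ord_mul hc0 hf0]
          have h5 := (Q.reg_iff hc0).1 (hj.reg _ c.2)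
          have h6 : 0 < Q.ord (f : K) := hf.resolve_left hf0
          omega }
    have h2 : Ideal.span (T j : Set (chart x j)) ≤ I := by
      refine Ideal.span_le.2 fun b hb => ?_
      right
      have h3 := hcon ⟨b, hb⟩
      have h4 : Q.Reg (b : K) := hj.reg _ b.2
      rcases h4 with h4 | h4
      · exact absurd h4 (hTS j hb).1
      · exact lt_of_le_of_ne h4 (Ne.symm h3)
    have h3 : (⟨a, ha⟩ : chart x j) ∈ Ideal.span (T j : Set (chart x j)) := by
      rw [← hT j]
      exact Ideal.subset_span ⟨ha0, m', ω', hg⟩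
    rcases h2 h3 with h4 | h4
    · exact ha0 h4
    · have h5 : 0 < Q.ord a := h4
      omega
  obtain ⟨b, hb⟩ := h1
  obtain ⟨k, hk⟩ : m ⟨j, b⟩ ∣ M := Finset.dvd_prod_of_mem _ (Finset.mem_univ _)
  obtain ⟨_, h3, h4, h5⟩ := hgood ⟨j, b⟩
  refine ⟨fun D => ω ⟨j, b⟩ D ^ k, ?_, fun P hP => pow_ge k (h4 P hP), fun P hP hPQ => ?_⟩
  · rw [hk]
    exact pow_pluri k h3
  · refine pow_good k (h5 P hP (hPQ.centred hj) ?_)
    have hb0 : ((b : chart x j) : K) ≠ 0 := (hTS j b.2).1
    have h6 : P.Reg ((b : chart x j) : K) := (hPQ.centred hj).reg _ (b : chart x j).2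
    have h7 : P.Reg ((b : chart x j) : K)⁻¹ := by
      refine hPQ _ ?_
      exact ⟨j, hj, 1, (chart x j).one_mem, b, (b : chart x j).2, hb0, hb, inv_mul_cancel₀ hb0⟩
    have h8 := (P.reg_iff hb0).1 h6
    have h9 := (P.reg_iff (inv_ne_zero hb0)).1 h7
    rw [P.ord_inv] at h9
    show P.ord ((b : chart x j) : K) = 0
    omega

/-- **From the point to a neighbourhood.** -/
theorem local_of_free (hx : NormalModel x) (hn : Algebra.trdeg ℂ K = n)
    {L : IntermediateField K (AlgebraicClosure K)} {R : Subalgebra ℂ L} {ε : R →ₐ[ℂ] ℂ}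
    {z : Fin n → L} {H : Fin n → Derivation ℂ L L} (hpt : IsPoint R z H) {Q : Place ℂ K}
    {j : Fin (N + 1)} {a : K} (hp : IsPointOf x j a Q R ε)
    (hfree : FreeAt R ε H (fun _ : Place ℂ K => (0 : ℝ))) :
    ∃ b ∈ chart x j, b ≠ 0 ∧ Q.ord b = 0 ∧ ∃ m ω, GoodOn x n j b m ω := by
  obtain ⟨m, hm, ω, hω, hωE⟩ := hfree
  have hinj : Function.Injective (algebraMap K L) := (algebraMap K L).injective
  have hsur : Function.Surjective (algebraMap K L) := by
    have h1 := hp.eq
    subst h1
    rintro ⟨f, hf⟩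
    obtain ⟨g, hg⟩ := IntermediateField.mem_bot.1 hf
    exact ⟨g, Subtype.ext hg⟩
  let e : K ≃+* L := RingEquiv.ofBijective (algebraMap K L) ⟨hinj, hsur⟩
  have he : ∀ f, e f = algebraMap K L f := fun f => rfl
  have hes : ∀ f, e.symm (algebraMap K L f) = f := fun f => e.symm_apply_apply f
  have hcL : ∀ c : ℂ, algebraMap ℂ L c = algebraMap K L (algebraMap ℂ K c) := fun c =>
    IsScalarTower.algebraMap_apply ℂ K L c
  -- the vector fields on `X`
  let G : Fin n → Derivation ℂ K K := fun i => Derivation.mk'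
    { toFun := fun f => e.symm (H i (e f))
      map_add' := fun f g => by
        rw [map_add, map_add, map_add]
      map_smul' := fun c f => by
        rw [Algebra.smul_def, map_mul, he (algebraMap ℂ K c), ← hcL, ← Algebra.smul_def,
          (H i).map_smul, Algebra.smul_def, map_mul, hcL, hes, ← Algebra.smul_def]
        rfl } fun f g => by
        show e.symm (H i (e (f * g))) = f • e.symm (H i (e g)) + g • e.symm (H i (e f))
        rw [map_mul, (H i).leibniz, map_add, smul_eq_mul, smul_eq_mul, map_mul, map_mul,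
          e.symm_apply_apply, e.symm_apply_apply]
        rfl
  have hG : ∀ i f, algebraMap K L (G i f) = H i (algebraMap K L f) := fun i f =>
    e.apply_symm_apply _
  obtain ⟨y₀, hy₀⟩ := Pool.Agent.W636.PG.exists_basis ℂ K n hn
  obtain ⟨E, hE⟩ := Pool.Agent.W636.PG.exists_duals ℂ K n _ hy₀
  have hval : pullVal H y₀ E m ω = algebraMap K L (ω G) := by
    have h1 : ω G = (Matrix.of fun a b => G a (y₀ b)).det ^ m * ω E := by
      have h2 := hω.1 (Matrix.of fun a b => G a (y₀ b)) E
      have h3 : (fun i => ∑ j, (Matrix.of fun a b => G a (y₀ b)) i j • E j) = G := by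
        funext i
        exact Pool.Agent.W73.PG.PULL.expand y₀ hy₀ E hE (G i)
      rwa [h3] at h2
    unfold pullVal
    rw [h1, map_mul, map_pow, RingHom.map_det]
    congr 3
    refine Matrix.ext fun a b => ?_
    exact (hG a (y₀ b)).symm
  obtain ⟨hmem, hne⟩ : NonzeroAt R ε (algebraMap K L (ω G)) := by
    rw [← hval]
    exact hωE y₀ E hy₀ hE
  have hf0 : ω G ≠ 0 := by
    intro h0
    apply hne
    have h1 : (⟨algebraMap K L (ω G), hmem⟩ : R) = 0 := by
      apply Subtype.ext
      show algebraMap K L (ω G) = 0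
      rw [h0, map_zero]
    rw [h1, map_zero]
  obtain ⟨k, hk⟩ := (hp.ring _).1 hmem
  obtain ⟨ha0, haQ⟩ := hp.unit
  have haR : algebraMap K L a ∈ R := (hp.ring a).2 ⟨0, by
    rw [pow_zero, mul_one]
    exact hp.mem⟩
  have haR' : algebraMap K L a⁻¹ ∈ R := (hp.ring a⁻¹).2 ⟨1, by
    rw [pow_one, inv_mul_cancel₀ ha0]
    exact (chart x j).one_mem⟩
  have haN : NonzeroAt R ε (algebraMap K L a) := by
    refine ⟨haR, fun h0 => ?_⟩
    have h1 : (⟨algebraMap K L a, haR⟩ : R) * ⟨algebraMap K L a⁻¹, haR'⟩ = 1 := by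
      apply Subtype.ext
      show algebraMap K L a * algebraMap K L a⁻¹ = 1
      rw [← map_mul, mul_inv_cancel₀ ha0, map_one]
    have h2 := congrArg ε h1
    rw [map_mul, h0, zero_mul, map_one] at h2
    exact zero_ne_one h2
  set b : K := ω G * a ^ k with hb
  have hb0 : b ≠ 0 := mul_ne_zero hf0 (pow_ne_zero _ ha0)
  have hbN : NonzeroAt R ε (algebraMap K L b) := by
    rw [hb, map_mul, map_pow]
    exact nz_mul ⟨hmem, hne⟩ (nz_pow haN k)
  have hbQ : Q.ord b = 0 := by
    have h1 := (Q.reg_iff hb0).1 (hp.centred.reg _ hk)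
    rcases h1.lt_or_eq with h2 | h2
    · exact absurd hbN (hp.point _ hk h2)
    · exact h2.symm
  refine ⟨a * b, (chart x j).mul_mem hp.mem hk, mul_ne_zero ha0 hb0, ?_, m, ω, hm, hω.1,
    fun P hP D hD => ?_, fun P hP hPj hPab => ⟨fun D hD => ?_, G, fun i f hf => ?_, hf0, ?_⟩⟩
  · rw [Q.ord_mul ha0 hb0, haQ, hbQ, add_zero]
  · rcases hω.2 P (hP.divisorial hx hn) D hD with h1 | ⟨s, hs, hs0, h1⟩
    · exact Or.inl h1
    · right
      have h2 : (0 : ℝ) ≤ P.ord (ω D) := by
        simpa using h1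
      exact_mod_cast h2
  · rcases hω.2 P (hP.divisorial hx hn) D hD with h1 | ⟨s, hs, hs0, h1⟩
    · exact Or.inl h1
    · right
      have h2 : (0 : ℝ) ≤ P.ord (ω D) := by
        simpa using h1
      exact_mod_cast h2
  · -- the vector fields are regular along `P`
    have hab : P.ord a = 0 ∧ P.ord b = 0 := by
      have h1 := (P.reg_iff ha0).1 (hPj.reg _ hp.mem)
      have h2 := (P.reg_iff hb0).1 (hPj.reg _ hk)
      rw [P.ord_mul ha0 hb0] at hPab
      omega
    have hGc : ∀ u ∈ chart x j, P.Reg (G i u) := by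
      intro u hu
      have h1 : algebraMap K L u ∈ R := (hp.ring u).2 ⟨0, by rwa [pow_zero, mul_one]⟩
      have h2 := hpt.reg i _ h1
      rw [← hG] at h2
      obtain ⟨l, hl⟩ := (hp.ring _).1 h2
      by_cases h0 : G i u = 0
      · exact Or.inl h0
      right
      have h3 := (P.reg_iff (mul_ne_zero h0 (pow_ne_zero _ ha0))).1 (hPj.reg _ hl)
      rw [P.ord_mul h0 (pow_ne_zero _ ha0), P.ord_pow, hab.1, mul_zero, add_zero] at h3
      exact h3
    obtain ⟨u, hu, v, hv, hv0, hvP, huv⟩ := (mem_localRing hPj).1 (hP f hf)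
    have h4 : v * G i f = G i u - f * G i v := by
      rw [← huv, (G i).leibniz, smul_eq_mul, smul_eq_mul]
      ring
    have h5 : P.Reg (v * G i f) := by
      rw [h4, sub_eq_add_neg]
      refine P.reg_add (hGc u hu) (P.reg_neg (P.reg_mul hf (hGc v hv)))
    by_cases h0 : G i f = 0
    · exact Or.inl h0
    right
    have h6 := (P.reg_iff (mul_ne_zero hv0 h0)).1 h5
    rw [P.ord_mul hv0 h0, hvP, zero_add] at h6
    exact h6
  · have h1 := (P.reg_iff ha0).1 (hPj.reg _ hp.mem)
    have h2 := (P.reg_iff hb0).1 (hPj.reg _ hk)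
    rw [P.ord_mul ha0 hb0] at hPab
    have h3 : P.ord b = P.ord (ω G) + k * P.ord a := by
      rw [hb, P.ord_mul hf0 (pow_ne_zero _ ha0), P.ord_pow]
    have h4 : P.ord a = 0 := by omega
    have h5 : P.ord b = 0 := by omega
    rw [h4, mul_zero, add_zero, h5] at h3
    rw [← h3]
    simp

theorem orb_bot {L : IntermediateField K (AlgebraicClosure K)} (hL : L = ⊥) {r : ℕ}
    (Y : Fin r → IntermediateField ℂ L) :
    OrbMap n L (fun _ : Place ℂ K => (0 : ℝ)) Y fun _ _ => 0 := by
  intro w v e _ hov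
  have he : e = 1 := by
    subst hL
    obtain ⟨⟨t, ht⟩, ht0, ht1⟩ := w.surj
    obtain ⟨g, hg⟩ := IntermediateField.mem_bot.1 ht
    have h1 : (⟨t, ht⟩ : (⊥ : IntermediateField K (AlgebraicClosure K))) =
        algebraMap K (⊥ : IntermediateField K (AlgebraicClosure K)) g := Subtype.ext hg.symm
    have h2 := hov.2 g
    rw [h1] at ht1
    have h3 : (e : ℤ) * v.ord g = 1 := by
      rw [← ht1]
      exact h2.symm
    have h4 : (e : ℤ) ∣ 1 := ⟨_, h3.symm⟩
    have h5 : e ∣ 1 := by exact_mod_cast h4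
    exact Nat.dvd_one.1 h5
  rw [he]
  refine ⟨by norm_num, by norm_num, fun j u i hi => ?_⟩
  have h1 : 1 ≤ i := hi.1
  have h2 : (1 : ℝ) ≤ i := by exact_mod_cast h1
  show ((1 : ℕ) : ℝ) * (1 - 0) ≤ i * (1 - 0)
  push_cast
  linarith

/-- **Semiampleness.** -/
theorem semi_of_maps (hess : Algebra.EssFiniteType ℂ K) (hx : NormalModel x)
    (hn : Algebra.trdeg ℂ K = n) (h : ∀ Q : Place ℂ K, Divisorial n Q → HasMaps x n Q) :
    Semiample x n := by
  refine semi_of_local fun Q hQ => ?_
  obtain ⟨L, hfd, R, ε, j, a, z, H, hp, hpt, r, Y, y, t, F, s, P, c, d', hessY, hy, hF, hch, hd',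
    hcy, hBL, hfree⟩ := h Q hQ
  have hgal : IsGalois K L := by
    have h1 := hp.eq
    subst h1
    infer_instance
  have hfr := point_free hess hn hy hpt (fun j => (hF j).1) hch (fun j => (hF j).2) hd' hcy hBL
    (orb_loc (orb_bot (n := n) hp.eq Y) d') hfree
  obtain ⟨b, hb, hb0, hbQ, h1⟩ := local_of_free hx hn hpt hp hfr
  exact ⟨j, hp.centred, b, hb, hb0, hbQ, h1⟩

end

end Pool.Agent.H891.OM
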