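import Pool.Graph.R_seed8.Y172.Loc3
import Pool.Agent.H891.OM.LogSemiDefs
import Pool.Agent.H891.OM.LogPoint
import Pool.Agent.H891.OM.Semi

/-! Semiample log canonical divisors of normal projective varieties. -/

set_option autoImplicit false
set_option linter.overlappingInstances false
set_option linter.unusedSectionVars false

open FF IntermediateField Pool.Agent.W602.GT Pool.Agent.Y172 Pool.Agent.Y174
  Pool.Agent.W619.PQ Pool.Agent.W619.TW

namespace Pool.Agent.H891.OM

section

variable {K : Type} [Field K] [Algebra ℂ K] {N n : ℕ} {x : Fin (N + 1) → K}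
  {B : Set (Place ℂ K)}

/-- `ω` is a section of `m (K_X + B)`, and generates it on the open subset `a ≠ 0` of the chart. -/
def LogGoodOn (x : Fin (N + 1) → K) (n : ℕ) (B : Set (Place ℂ K)) (j : Fin (N + 1)) (a : K)
    (m : ℕ) (ω : (Fin n → Derivation ℂ K K) → K) : Prop :=
  1 ≤ m ∧ IsPluri m ω ∧ (∀ P, IsPrimeDivisor x P → OrdGe P ω (-(m * B.indicator 1 P))) ∧
    ∀ P, IsPrimeDivisor x P → Centred x j P → P.ord a = 0 →
      OrdEq P ω (-(m * B.indicator 1 P))

theorem pow_ge' {ω : (Fin n → Derivation ℂ K K) → K} {P : Place ℂ K} (k : ℕ) {c : ℚ}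
    (h : OrdGe P ω c) : OrdGe P (fun D => ω D ^ k) (k * c) := by
  intro D hD
  rcases h D hD with h5 | h5
  · by_cases hk : k = 0
    · right
      show (k * c : ℚ) ≤ P.ord (ω D ^ k)
      rw [hk, pow_zero, P.ord_one]
      simp
    · left
      show ω D ^ k = 0
      rw [h5, zero_pow hk]
  · right
    show (k * c : ℚ) ≤ P.ord (ω D ^ k)
    rw [P.ord_pow]
    push_cast
    exact mul_le_mul_of_nonneg_left h5 (Nat.cast_nonneg _)

theorem pow_eq' {ω : (Fin n → Derivation ℂ K K) → K} {P : Place ℂ K} (k : ℕ) {c : ℚ}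
    (h : OrdEq P ω c) : OrdEq P (fun D => ω D ^ k) (k * c) := by
  obtain ⟨h1, E, h2, h3, h4⟩ := h
  refine ⟨pow_ge' k h1, E, h2, pow_ne_zero _ h3, ?_⟩
  show ((P.ord (ω E ^ k) : ℤ) : ℚ) = k * c
  rw [P.ord_pow]
  push_cast
  rw [h4]

/-- **The Noetherian argument.** -/
theorem log_semi_of_local (h : ∀ Q : Place ℂ K, Divisorial n Q → ∃ j, Centred x j Q ∧
    ∃ a ∈ chart x j, a ≠ 0 ∧ Q.ord a = 0 ∧ ∃ m ω, LogGoodOn x n B j a m ω) : LogSemi x n B := by
  classical
  let S : ∀ j : Fin (N + 1), Set (chart x j) := fun j =>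
    {a | (a : K) ≠ 0 ∧ ∃ m ω, LogGoodOn x n B j (a : K) m ω}
  have hfin : ∀ j, ∃ T : Finset (chart x j), (T : Set (chart x j)) ⊆ S j ∧
      Ideal.span (S j) = Ideal.span (T : Set (chart x j)) := by
    intro j
    have h1 : (Ideal.span (S j)).FG := (isNoetherianRing_iff_ideal_fg (chart x j)).1 inferInstance _
    exact (Submodule.fg_span_iff_fg_span_finset_subset (S j)).1 h1
  choose T hTS hT using hfin
  choose m ω hgood using fun (b : Σ j, T j) => (hTS b.1 b.2.2).2
  let M : ℕ := ∏ b : Σ j, T j, m b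
  have hM : 1 ≤ M := by
    show 0 < ∏ b : Σ j, T j, m b
    exact Finset.prod_pos fun b _ => (hgood b).1
  refine ⟨M, hM, fun Q hQ => ?_⟩
  obtain ⟨j, hj, a, ha, ha0, haQ, m', ω', hg⟩ := h Q hQ
  have h1 : ∃ b : T j, Q.ord ((b : chart x j) : K) = 0 := by
    by_contra hcon
    push Not at hcon
    let I : Ideal (chart x j) :=
      { carrier := {f | (f : K) = 0 ∨ 0 < Q.ord (f : K)}
        zero_mem' := Or.inl rfl
        add_mem' := fun {f g} hf hg => by
          by_cases hf0 : (f : K) = 0
          · have h5 : ((f + g : chart x j) : K) = g := by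
              show (f : K) + g = g
              rw [hf0, zero_add]
            show ((f + g : chart x j) : K) = 0 ∨ 0 < Q.ord ((f + g : chart x j) : K)
            rw [h5]
            exact hg
          by_cases hg0 : (g : K) = 0
          · have h5 : ((f + g : chart x j) : K) = f := by
              show (f : K) + g = f
              rw [hg0, add_zero]
            show ((f + g : chart x j) : K) = 0 ∨ 0 < Q.ord ((f + g : chart x j) : K)
            rw [h5]
            exact hf
          by_cases hfg : (f : K) + g = 0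
          · left
            exact hfg
          · right
            have h5 := Q.ord_add hf0 hg0 hfg
            have h6 : 0 < Q.ord (f : K) := hf.resolve_left hf0
            have h7 : 0 < Q.ord (g : K) := hg.resolve_left hg0
            exact lt_of_lt_of_le (lt_min h6 h7) h5
        smul_mem' := fun c f hf => by
          by_cases hc0 : (c : K) = 0
          · left
            show (c : K) * f = 0
            rw [hc0, zero_mul]
          by_cases hf0 : (f : K) = 0
          · left
            show (c : K) * f = 0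
            rw [hf0, mul_zero]
          right
          show 0 < Q.ord ((c : K) * f)
          rw [Q.ord_mul hc0 hf0]
          have h5 := (Q.reg_iff hc0).1 (hj.reg _ c.2)
          have h6 : 0 < Q.ord (f : K) := hf.resolve_left hf0
          omega }
    have h2 : Ideal.span (T j : Set (chart x j)) ≤ I := by
      refine Ideal.span_le.2 fun b hb => ?_
      right
      have h3 := hcon ⟨b, hb⟩
      have h4 : Q.Reg (b : K) := hj.reg _ b.2
      rcases h4 with h4 | h4
      · exact absurd h4 (hTS j hb).1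
      · exact lt_of_le_of_ne h4 (Ne.symm h3)
    have h3 : (⟨a, ha⟩ : chart x j) ∈ Ideal.span (T j : Set (chart x j)) := by
      rw [← hT j]
      exact Ideal.subset_span ⟨ha0, m', ω', hg⟩
    rcases h2 h3 with h4 | h4
    · exact ha0 h4
    · have h5 : 0 < Q.ord a := h4
      omega
  obtain ⟨b, hb⟩ := h1
  obtain ⟨k, hk⟩ : m ⟨j, b⟩ ∣ M := Finset.dvd_prod_of_mem _ (Finset.mem_univ _)
  obtain ⟨_, h3, h4, h5⟩ := hgood ⟨j, b⟩
  have hMk : ∀ P : Place ℂ K, -((M : ℚ) * B.indicator 1 P) =
      k * (-((m ⟨j, b⟩ : ℕ) * B.indicator 1 P)) := by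
    intro P
    rw [hk]
    push_cast
    ring
  refine ⟨fun D => ω ⟨j, b⟩ D ^ k, ?_, fun P hP => ?_, fun P hP hPQ => ?_⟩
  · rw [hk]
    exact pow_pluri k h3
  · rw [hMk]
    exact pow_ge' k (h4 P hP)
  · rw [hMk]
    refine pow_eq' k (h5 P hP (hPQ.centred hj) ?_)
    have hb0 : ((b : chart x j) : K) ≠ 0 := (hTS j b.2).1
    have h6 : P.Reg ((b : chart x j) : K) := (hPQ.centred hj).reg _ (b : chart x j).2
    have h7 : P.Reg ((b : chart x j) : K)⁻¹ := by
      refine hPQ _ ?_
      exact ⟨j, hj, 1, (chart x j).one_mem, b, (b : chart x j).2, hb0, hb, inv_mul_cancel₀ hb0⟩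
    have h8 := (P.reg_iff hb0).1 h6
    have h9 := (P.reg_iff (inv_ne_zero hb0)).1 h7
    rw [P.ord_inv] at h9
    show P.ord ((b : chart x j) : K) = 0
    omega

/-- **From the point to a neighbourhood.** -/
theorem log_local_of_free (hx : NormalModel x) (hn : Algebra.trdeg ℂ K = n)
    {L : IntermediateField K (AlgebraicClosure K)} {R : Subalgebra ℂ L} {ε : R →ₐ[ℂ] ℂ}
    {z : Fin n → K} {Bd : Finset (Fin n)} {E' H : Fin n → Derivation ℂ L L} {Q : Place ℂ K}
    {j : Fin (N + 1)} {a : K} (hs : IsSncAt x j a B R z Bd E' H) (hp : IsPointOf x j a Q R ε)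
    (hfree : FreeAt R ε H (Set.indicator {v : Place ℂ K | IsPrimeDivisor x v → v ∈ B} 1)) :
    ∃ b ∈ chart x j, b ≠ 0 ∧ Q.ord b = 0 ∧ ∃ m ω, LogGoodOn x n B j b m ω := by
  classical
  obtain ⟨m, hm, ω, hω, hωE⟩ := hfree
  have hinj : Function.Injective (algebraMap K L) := (algebraMap K L).injective
  have hsur : Function.Surjective (algebraMap K L) := by
    have h1 := hp.eq
    subst h1
    rintro ⟨f, hf⟩
    obtain ⟨g, hg⟩ := IntermediateField.mem_bot.1 hf
    exact ⟨g, Subtype.ext hg⟩
  let e : K ≃+* L := RingEquiv.ofBijective (algebraMap K L) ⟨hinj, hsur⟩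
  have he : ∀ f, e f = algebraMap K L f := fun f => rfl
  have hes : ∀ f, e.symm (algebraMap K L f) = f := fun f => e.symm_apply_apply f
  have hcL : ∀ c : ℂ, algebraMap ℂ L c = algebraMap K L (algebraMap ℂ K c) := fun c =>
    IsScalarTower.algebraMap_apply ℂ K L c
  -- the vector fields on `X`
  let G : Fin n → Derivation ℂ K K := fun i => Derivation.mk'
    { toFun := fun f => e.symm (E' i (e f))
      map_add' := fun f g => by
        rw [map_add, map_add, map_add]
      map_smul' := fun c f => by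
        rw [Algebra.smul_def, map_mul, he (algebraMap ℂ K c), ← hcL, ← Algebra.smul_def,
          (E' i).map_smul, Algebra.smul_def, map_mul, hcL, hes, ← Algebra.smul_def]
        rfl } fun f g => by
        show e.symm (E' i (e (f * g))) = f • e.symm (E' i (e g)) + g • e.symm (E' i (e f))
        rw [map_mul, (E' i).leibniz, map_add, smul_eq_mul, smul_eq_mul, map_mul, map_mul,
          e.symm_apply_apply, e.symm_apply_apply]
        rfl
  have hG : ∀ i f, algebraMap K L (G i f) = E' i (algebraMap K L f) := fun i f =>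
    e.apply_symm_apply _
  let D : Fin n → K := fun i => if i ∈ Bd then z i else 1
  let G' : Fin n → Derivation ℂ K K := fun i => D i • G i
  have hz0 : ∀ i, z i ≠ 0 := by
    intro i h0
    have h1 := hs.point.dual i i
    simp only [h0, map_zero, if_true] at h1
    exact zero_ne_one h1
  have hD0 : ∀ i, D i ≠ 0 := by
    intro i
    show (if i ∈ Bd then z i else 1) ≠ 0
    split_ifs
    · exact hz0 i
    · exact one_ne_zero
  have hG' : ∀ i f, algebraMap K L (G' i f) = H i (algebraMap K L f) := by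
    intro i f
    show algebraMap K L (D i * G i f) = _
    rw [map_mul, hG, hs.frame i, Derivation.smul_apply, smul_eq_mul]
    congr 1
    show algebraMap K L (if i ∈ Bd then z i else 1) = _
    split_ifs
    · rfl
    · exact map_one _
  have hGG : ω G' = (∏ i, D i) ^ m * ω G := by
    have h1 := hω.1 (Matrix.diagonal D) G
    have h2 : (fun i => ∑ j, Matrix.diagonal D i j • G j) = G' := by
      funext i
      rw [Finset.sum_eq_single i]
      · rw [Matrix.diagonal_apply_eq]
      · intro j _ hj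
        rw [Matrix.diagonal_apply_ne _ (Ne.symm hj), zero_smul]
      · intro h
        exact (h (Finset.mem_univ _)).elim
    rw [h2, Matrix.det_diagonal] at h1
    exact h1
  obtain ⟨y₀, hy₀⟩ := Pool.Agent.W636.PG.exists_basis ℂ K n hn
  obtain ⟨E, hE⟩ := Pool.Agent.W636.PG.exists_duals ℂ K n _ hy₀
  have hval : pullVal H y₀ E m ω = algebraMap K L (ω G') := by
    have h1 : ω G' = (Matrix.of fun a b => G' a (y₀ b)).det ^ m * ω E := by
      have h2 := hω.1 (Matrix.of fun a b => G' a (y₀ b)) E
      have h3 : (fun i => ∑ j, (Matrix.of fun a b => G' a (y₀ b)) i j • E j) = G' := by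
        funext i
        exact Pool.Agent.W73.PG.PULL.expand y₀ hy₀ E hE (G' i)
      rwa [h3] at h2
    unfold pullVal
    rw [h1, map_mul, map_pow, RingHom.map_det]
    congr 3
    refine Matrix.ext fun a b => ?_
    exact (hG' a (y₀ b)).symm
  obtain ⟨hmem, hne⟩ : NonzeroAt R ε (algebraMap K L (ω G')) := by
    rw [← hval]
    exact hωE y₀ E hy₀ hE
  have hf0 : ω G' ≠ 0 := by
    intro h0
    apply hne
    have h1 : (⟨algebraMap K L (ω G'), hmem⟩ : R) = 0 := by
      apply Subtype.ext
      show algebraMap K L (ω G') = 0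
      rw [h0, map_zero]
    rw [h1, map_zero]
  have hg0 : ω G ≠ 0 := by
    intro h0
    rw [hGG, h0, mul_zero] at hf0
    exact hf0 rfl
  obtain ⟨k, hk⟩ := (hp.ring _).1 hmem
  obtain ⟨ha0, haQ⟩ := hp.unit
  have haR : algebraMap K L a ∈ R := (hp.ring a).2 ⟨0, by
    rw [pow_zero, mul_one]
    exact hp.mem⟩
  have haR' : algebraMap K L a⁻¹ ∈ R := (hp.ring a⁻¹).2 ⟨1, by
    rw [pow_one, inv_mul_cancel₀ ha0]
    exact (chart x j).one_mem⟩
  have haN : NonzeroAt R ε (algebraMap K L a) := by
    refine ⟨haR, fun h0 => ?_⟩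
    have h1 : (⟨algebraMap K L a, haR⟩ : R) * ⟨algebraMap K L a⁻¹, haR'⟩ = 1 := by
      apply Subtype.ext
      show algebraMap K L a * algebraMap K L a⁻¹ = 1
      rw [← map_mul, mul_inv_cancel₀ ha0, map_one]
    have h2 := congrArg ε h1
    rw [map_mul, h0, zero_mul, map_one] at h2
    exact zero_ne_one h2
  set b : K := ω G' * a ^ k with hb
  have hb0 : b ≠ 0 := mul_ne_zero hf0 (pow_ne_zero _ ha0)
  have hbN : NonzeroAt R ε (algebraMap K L b) := by
    rw [hb, map_mul, map_pow]
    exact nz_mul ⟨hmem, hne⟩ (nz_pow haN k)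
  have hbQ : Q.ord b = 0 := by
    have h1 := (Q.reg_iff hb0).1 (hp.centred.reg _ hk)
    rcases h1.lt_or_eq with h2 | h2
    · exact absurd hbN (hp.point _ hk h2)
    · exact h2.symm
  have hge : ∀ P, IsPrimeDivisor x P → OrdGe P ω (-(m * B.indicator 1 P)) := by
    intro P hP C hC
    rcases hω.2 P (hP.divisorial hx hn) C hC with h1 | ⟨s, hs1, hs0, h1⟩
    · exact Or.inl h1
    · right
      by_cases hPB : P ∈ B
      · have h2 : P ∈ {v : Place ℂ K | IsPrimeDivisor x v → v ∈ B} := fun _ => hPB
        rw [Set.indicator_of_mem h2] at h1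
        rw [Set.indicator_of_mem hPB]
        have h3 : -(m : ℝ) ≤ P.ord (ω C) := by
          simpa using h1
        have h4 : -(m : ℤ) ≤ P.ord (ω C) := by exact_mod_cast h3
        have h5 : ((-(m : ℤ) : ℤ) : ℚ) ≤ P.ord (ω C) := by exact_mod_cast h4
        simpa using h5
      · have h2 : P ∉ {v : Place ℂ K | IsPrimeDivisor x v → v ∈ B} := fun h => hPB (h hP)
        rw [Set.indicator_of_notMem h2] at h1
        rw [Set.indicator_of_notMem hPB]
        have h3 : (0 : ℝ) ≤ P.ord (ω C) := by
          simpa using h1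
        have h4 : 0 ≤ P.ord (ω C) := by exact_mod_cast h3
        have h5 : (0 : ℚ) ≤ P.ord (ω C) := by exact_mod_cast h4
        simpa using h5
  refine ⟨a * b, (chart x j).mul_mem hp.mem hk, mul_ne_zero ha0 hb0, ?_, m, ω, hm, hω.1,
    hge, fun P hP hPj hPab => ?_⟩
  · rw [Q.ord_mul ha0 hb0, haQ, hbQ, add_zero]
  have hab : P.ord a = 0 ∧ P.ord b = 0 := by
    have h1 := (P.reg_iff ha0).1 (hPj.reg _ hp.mem)
    have h2 := (P.reg_iff hb0).1 (hPj.reg _ hk)
    rw [P.ord_mul ha0 hb0] at hPab
    omega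
  refine ⟨hge P hP, G, fun i f hf => ?_, hg0, ?_⟩
  · -- the vector fields are regular along `P`
    have hGc : ∀ u ∈ chart x j, P.Reg (G i u) := by
      intro u hu
      have h1 : algebraMap K L u ∈ R := (hp.ring u).2 ⟨0, by rwa [pow_zero, mul_one]⟩
      have h2 := hs.point.reg i _ h1
      rw [← hG] at h2
      obtain ⟨l, hl⟩ := (hp.ring _).1 h2
      by_cases h0 : G i u = 0
      · exact Or.inl h0
      right
      have h3 := (P.reg_iff (mul_ne_zero h0 (pow_ne_zero _ ha0))).1 (hPj.reg _ hl)
      rw [P.ord_mul h0 (pow_ne_zero _ ha0), P.ord_pow, hab.1, mul_zero, add_zero] at h3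
      exact h3
    obtain ⟨u, hu, v, hv, hv0, hvP, huv⟩ := (mem_localRing hPj).1 (hP f hf)
    have h4 : v * G i f = G i u - f * G i v := by
      rw [← huv, (G i).leibniz, smul_eq_mul, smul_eq_mul]
      ring
    have h5 : P.Reg (v * G i f) := by
      rw [h4, sub_eq_add_neg]
      refine P.reg_add (hGc u hu) (P.reg_neg (P.reg_mul hf (hGc v hv)))
    by_cases h0 : G i f = 0
    · exact Or.inl h0
    right
    have h6 := (P.reg_iff (mul_ne_zero hv0 h0)).1 h5
    rw [P.ord_mul hv0 h0, hvP, zero_add] at h6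
    exact h6
  · have h3 : P.ord b = P.ord (ω G') + k * P.ord a := by
      rw [hb, P.ord_mul hf0 (pow_ne_zero _ ha0), P.ord_pow]
    rw [hab.1, hab.2, mul_zero, add_zero] at h3
    have hD : ∏ i, D i ≠ 0 := Finset.prod_ne_zero_iff.2 fun i _ => hD0 i
    have h4 : P.ord (ω G') = m * P.ord (∏ i, D i) + P.ord (ω G) := by
      rw [hGG, P.ord_mul (pow_ne_zero _ hD) hg0, P.ord_pow]
    have h5 : P.ord (∏ i, D i) = ∑ i ∈ Bd, P.ord (z i) := by
      rw [Pool.Agent.W619.PQ.ord_prod _ P _ fun i _ => hD0 i]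
      have h6 : ∀ i, P.ord (D i) = if i ∈ Bd then P.ord (z i) else 0 := by
        intro i
        show P.ord (if i ∈ Bd then z i else 1) = _
        split_ifs
        · rfl
        · exact P.ord_one
      rw [Finset.sum_congr rfl fun i _ => h6 i, Finset.sum_ite_mem, Finset.univ_inter]
    have h7 := hs.bdry P hP hPj hab.1
    have h8 : (P.ord (∏ i, D i) : ℚ) = B.indicator 1 P := by
      rw [h5, h7]
      push_cast
      rfl
    have h9 : (P.ord (ω G) : ℚ) = -(m * (P.ord (∏ i, D i) : ℚ)) := by
      have h10 : P.ord (ω G) = -(m * P.ord (∏ i, D i)) := by omega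
      rw [h10]
      push_cast
      rfl
    rw [h9, h8]

/-- **Semiampleness of log canonical divisors.** -/
theorem log_semi_of_maps (hess : Algebra.EssFiniteType ℂ K) (hx : NormalModel x)
    (hn : Algebra.trdeg ℂ K = n) (h : ∀ Q : Place ℂ K, Divisorial n Q → HasLogMaps x n B Q) :
    LogSemi x n B := by
  classical
  refine log_semi_of_local fun Q hQ => ?_
  obtain ⟨L, hfd, R, ε, j, a, z, Bd, E, H, hp, hs, r, Y, y, t, F, s, Cd, w, P, ZY, c, d', hessY,
    hy, hF, hch, hd', hcy, hBL, hZ, hfree⟩ := h Q hQ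
  have hgal : IsGalois K L := by
    have h1 := hp.eq
    subst h1
    infer_instance
  have he1 : ∀ (w : Place ℂ L) (v : Place ℂ K) (e : ℕ), LiesOn w v e → e = 1 := by
    intro w v e hov
    have hL := hp.eq
    clear hfree hZ hBL hcy hd' hch hF hy hessY hs hp h hgal
    subst hL
    obtain ⟨⟨t, ht⟩, ht0, ht1⟩ := w.surj
    obtain ⟨g, hg⟩ := IntermediateField.mem_bot.1 ht
    have h1 : (⟨t, ht⟩ : (⊥ : IntermediateField K (AlgebraicClosure K))) =
        algebraMap K (⊥ : IntermediateField K (AlgebraicClosure K)) g := Subtype.ext hg.symm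
    have h2 := hov.2 g
    rw [h1] at ht1
    have h3 : (e : ℤ) * v.ord g = 1 := by
      rw [← ht1]
      exact h2.symm
    have h4 : (e : ℤ) ∣ 1 := ⟨_, h3.symm⟩
    have h5 : e ∣ 1 := by exact_mod_cast h4
    exact Nat.dvd_one.1 h5
  have horb : OrbMap n L (Set.indicator {v : Place ℂ K | IsPrimeDivisor x v → v ∈ B} 1) Y
      fun j => (ZY j).indicator 1 := by
    intro w v e _ hov
    have he := he1 w v e hov
    subst he
    by_cases hv : v ∈ {v : Place ℂ K | IsPrimeDivisor x v → v ∈ B}
    · rw [Set.indicator_of_mem hv, Pi.one_apply, sub_self, mul_zero]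
      refine ⟨le_refl _, zero_le_one, fun j u i _ => ?_⟩
      refine mul_nonneg (Nat.cast_nonneg i) (sub_nonneg.2 ?_)
      exact Set.indicator_apply_le' (fun _ => le_refl _) fun _ => zero_le_one
    · rw [Set.indicator_of_notMem hv, Nat.cast_one, sub_zero, mul_one]
      refine ⟨zero_le_one, le_refl _, fun j u i hui => ?_⟩
      show (1 : ℝ) ≤ i * (1 - (ZY j).indicator 1 u)
      have hv' : IsPrimeDivisor x v ∧ v ∉ B := by
        rw [Set.mem_setOf_eq, Classical.not_imp] at hv
        exact hv
      rw [Set.indicator_of_notMem (hZ w ⟨v, hv'.1, hv'.2, hov⟩ j u i hui), sub_zero, mul_one]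
      exact_mod_cast hui.1
  have hfr := log_free hess hn hy (fun j => (hF j).1) hch (fun j => (hF j).2) hd' hcy hBL
    (orb_loc horb d') hfree
  obtain ⟨b, hb, hb0, hbQ, h1⟩ := log_local_of_free hx hn hs hp hfr
  exact ⟨j, hp.centred, b, hb, hb0, hbQ, h1⟩

end

end Pool.Agent.H891.OM
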