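import Pool.Agent.H891.RB.Main
import Pool.Agent.H891.OM.Sec
import Pool.Agent.H891.OM.Form
import Pool.Agent.H891.RH.Main

/-! The inequalities for sections. -/

set_option autoImplicit false
set_option linter.overlappingInstances false
set_option linter.unusedSectionVars false

open FF IntermediateField Pool.Agent.W619.PQ Pool.Agent.W619.PL Pool.Agent.W619.TW
  Pool.Agent.W603.LV Pool.Agent.W619.Y Pool.Agent.Y174 Pool.Agent.Y173.QA Pool.Agent.W824.PG
  Pool.Agent.H891.RH Pool.Agent.H891.BL Pool.Agent.H891.TY Pool.Agent.H891.RB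
open scoped Matrix Pointwise

namespace Pool.Agent.H891.OM

section

variable {k K : Type} [Field k] [Field K] [Algebra k K] [CharZero k]
  {L : IntermediateField K (AlgebraicClosure K)} {r n : ℕ} {c y f : Fin r → ℕ}
  {Y : Fin r → IntermediateField k L} [FiniteDimensional K L] [IsGalois K L]

/-- **The Riemann-Hurwitz inequality.** -/
theorem rh (hess : Algebra.EssFiniteType k K) (hn : Algebra.trdeg k K = n)
    [∀ j, Algebra.EssFiniteType k (Y j)] {B : Fin r → IntermediateField k (AlgebraicClosure K)}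
    (h : ∀ j, IsFibres L (Y j) (B j) n (y j) (f j)) {d d' : ℕ} (hd' : 1 ≤ d')
    (hdd : d + d' = ∑ j, c j) (hBL : BLDist n B f c d) (hs : ∑ j, c j * f j = d * n) :
    ∃ D : ℕ, 0 < D ∧ ∀ (y₀ : Fin n → K) (E : Fin n → Derivation k K K)
      (t : ∀ j, Fin (y j) → Y j) (F : ∀ j, Fin (y j) → Derivation k (Y j) (Y j)),
      IsTranscendenceBasis k y₀ → (∀ i j, E i (y₀ j) = if i = j then 1 else 0) →
      (∀ j, IsTranscendenceBasis k (t j)) →
      (∀ j l l', F j l (t j l') = if l = l' then 1 else 0) → ∃ ρ : K, ρ ≠ 0 ∧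
      ∀ (δ : Place k K → ℝ) (δY : ∀ j, Place k (Y j) → ℝ), LocBound n L δ Y δY c d' →
        ∀ (T : ℕ) (η : ∀ j, (Fin (y j) → Derivation k (Y j) (Y j)) → Y j),
        (∀ j, PairSec k (Y j) (y j) (δY j) {1} (T * (D * c j)) 0 (η j)) →
        ∃ ω, PairSec k K n δ {1} (T * (D * d' * Nat.card (L ≃ₐ[K] L) ^ 2)) 0 ω ∧
          ω E = ρ ^ T * ∏ j, Algebra.norm K (η j (F j) : L) ^ Nat.card (L ≃ₐ[K] L) := by
  classical
  obtain ⟨x₁, hx₁⟩ := Pool.Agent.W636.PG.exists_basis k K n hn
  have hxΩ₁ : IsTranscendenceBasis k (algebraMap K (AlgebraicClosure K) ∘ x₁) :=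
    hx₁.algebraMap_comp
  obtain ⟨G₁, hG₁⟩ := Pool.Agent.W636.PG.exists_duals k (AlgebraicClosure K) n _ hxΩ₁
  obtain ⟨D, hD, hmat⟩ := exists_mat hxΩ₁ hG₁ hn h hd' hdd hBL hs
  refine ⟨D, hD, fun y₀ E t F hy₀ hE ht hF => ?_⟩
  obtain ⟨X, e, hdet⟩ := hmat t ht
  -- the vector fields of the frame
  obtain ⟨E₁, hE₁⟩ := Pool.Agent.W636.PG.exists_duals k K n _ hx₁
  obtain ⟨H₁, hH₁⟩ := exists_exts (L := L) hn E₁
  obtain ⟨H, hH⟩ := exists_exts (L := L) hn E
  have hGE : ∀ i (x : K), G₁ i (algebraMap K (AlgebraicClosure K) x) =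
      algebraMap K (AlgebraicClosure K) (E₁ i x) := by
    intro i x
    have h1 := Pool.Agent.W73.PG.PULL.chain x₁ hx₁ E₁ hE₁ (G₁ i) x
    rw [h1, Finset.sum_eq_single i]
    · have h2 := hG₁ i i
      rw [if_pos rfl] at h2
      change G₁ i (algebraMap K (AlgebraicClosure K) (x₁ i)) = 1 at h2
      rw [h2, one_mul]
    · intro j _ hj
      have h2 := hG₁ i j
      rw [if_neg (Ne.symm hj)] at h2
      change G₁ i (algebraMap K (AlgebraicClosure K) (x₁ j)) = 0 at h2
      rw [h2, zero_mul]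
    · intro h
      exact (h (Finset.mem_univ _)).elim
  have hdet₁ : (MM X e (fun q => t q.1) H₁).det ≠ 0 := by
    intro h0
    apply hdet
    have h1 : (Matrix.of fun ρ ρ' : Row L c y D => algebraMap k (AlgebraicClosure K)
        (X (e ρ').2 ρ.1) * G₁ (e ρ').1 ((ρ.1.1.2 (t ρ.1.1.1 ρ.2 : L) : L) : AlgebraicClosure K)) =
        (algebraMap L (AlgebraicClosure K)).mapMatrix (MM X e (fun q => t q.1) H₁) := by
      refine Matrix.ext fun ρ ρ' => ?_
      show algebraMap k (AlgebraicClosure K) (X (e ρ').2 ρ.1) * G₁ (e ρ').1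
        ((ρ.1.1.2 (t ρ.1.1.1 ρ.2 : L) : L) : AlgebraicClosure K) =
        algebraMap L (AlgebraicClosure K) (algebraMap k L (X (e ρ').2 ρ.1) *
          H₁ (e ρ').1 (ρ.1.1.2 (t ρ.1.1.1 ρ.2 : L)))
      rw [map_mul, ext_eq hn (hGE (e ρ').1) (hH₁ (e ρ').1)]
      rfl
    rw [h1, ← RingHom.map_det, h0, map_zero]
  have hdet₂ : (MM X e (fun q => t q.1) H).det ≠ 0 := by
    intro h0
    apply hdet₁
    have h1 : H₁ = fun i => ∑ b, ((algebraMap K L).mapMatrix
        (Matrix.of fun i b => E₁ i (y₀ b))) i b • H b := by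
      funext i
      refine exts_unique hn (hH₁ i) fun x => ?_
      rw [Pool.Agent.W721.PG.EFF2.der_sum]
      have h1 := Pool.Agent.W73.PG.PULL.expand y₀ hy₀ E hE (E₁ i)
      have h2 : E₁ i x = ∑ b, E₁ i (y₀ b) * E b x := by
        conv_lhs => rw [← h1]
        rw [Pool.Agent.W721.PG.EFF2.der_sum]
      rw [h2, map_sum]
      refine Finset.sum_congr rfl fun b _ => ?_
      rw [hH, map_mul]
      rfl
    rw [h1, det_frame, h0, mul_zero]
  refine ⟨Algebra.norm K (MM X e (fun q => t q.1) H).det, ?_, fun δ δY hram T η hη => ?_⟩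
  · rw [Ne, Algebra.norm_eq_zero_iff]
    exact hdet₂
  · have h1 := norm_sec hess hn (fun j => (h j).dim) hram rfl X e ht hF hη hy₀ hE hH
    have h2 : T * (d' * Nat.card (L ≃ₐ[K] L) * D * Nat.card (L ≃ₐ[K] L)) =
        T * (D * d' * Nat.card (L ≃ₐ[K] L) ^ 2) := by ring
    rw [h2] at h1
    refine ⟨_, h1, ?_⟩
    have h3 : (Matrix.of fun a b => E a (y₀ b)) = 1 := by
      refine Matrix.ext fun a b => ?_
      rw [Matrix.of_apply, hE, Matrix.one_apply]
    show (Matrix.of fun a b => E a (y₀ b)).det ^ _ * Algebra.norm K _ = _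
    rw [h3, Matrix.det_one, one_pow, one_mul, map_mul, map_pow, map_prod, Fintype.prod_prod_type]
    congr 1
    refine Finset.prod_congr rfl fun j _ => ?_
    have h4 : ∀ σ : L ≃ₐ[K] L, Algebra.norm K (σ (η j (F j) : L)) =
        Algebra.norm K (η j (F j) : L) := fun σ => Algebra.norm_eq_of_algEquiv σ _
    simp only [h4]
    rw [Finset.prod_const, Finset.card_univ, Nat.card_eq_fintype_card]

end

section

variable {k : Type} {K : Type} [Field k] [Field K] [Algebra k K] [CharZero k] {n : ℕ}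
  {L : IntermediateField K (AlgebraicClosure K)} [FiniteDimensional K L] [IsGalois K L]

/-- **The reverse Brascamp-Lieb inequality.** -/
theorem rb [IsAlgClosed k] (hess : Algebra.EssFiniteType k K) (hn : Algebra.trdeg k K = n) {r : ℕ}
    {Y : Fin r → IntermediateField k L} [∀ j, Algebra.EssFiniteType k (Y j)]
    {B : Fin r → IntermediateField k (AlgebraicClosure K)} {y f c : Fin r → ℕ}
    (h : ∀ j, IsFibres L (Y j) (B j) n (y j) (f j)) {d d' : ℕ} (hd' : 1 ≤ d')
    (hdd : d + d' = ∑ j, c j) (hBL : BLDist n B f c d) (hs : ∑ j, c j * f j = d * n) :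
    ∃ D : ℕ, 0 < D ∧
      (∀ S : ∀ j, Finset (Y j), ∃ S' : Finset K, ∀ (δ : Place k K → ℝ)
        (δY : ∀ j, Place k (Y j) → ℝ), LocBound n L δ Y δY c d' →
        ∀ (T b M : ℕ) (P : Fin r → ℕ),
        (∀ j, HasIndep k (Y j) (y j) (P j) (PairSec k (Y j) (y j) (δY j) (S j) T b)) →
        (∀ M', HasIndep k K n M'
          (PairSec k K n δ S' (T * (d' * Nat.card (L ≃ₐ[K] L) * D)) (b + 1)) → M' ≤ M) →
        ∏ j, P j ^ (Nat.card (L ≃ₐ[K] L) * (D * c j)) ≤
          (Module.finrank K L * M) ^ (d' * Nat.card (L ≃ₐ[K] L) * D)) ∧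
      (L = ⊥ → ∀ (δ : Place k K → ℝ) (δY : ∀ j, Place k (Y j) → ℝ), LocBound n L δ Y δY c d' →
        ∀ (T M : ℕ) (P : Fin r → ℕ),
        (∀ j, HasIndep k (Y j) (y j) (P j) (PairSec k (Y j) (y j) (δY j) {1} T 0)) →
        (∀ M', HasIndep k K n M' (PairSec k K n δ {1} (T * (d' * D)) 0) → M' ≤ M) →
        ∏ j, P j ^ (D * c j) ≤ M ^ (d' * D)) := by
  classical
  have hK0 : CharZero K := charZero_of_injective_algebraMap (algebraMap k K).injective
  obtain ⟨x₁, hx₁⟩ := Pool.Agent.W636.PG.exists_basis k K n hn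
  have hxΩ₁ : IsTranscendenceBasis k (algebraMap K (AlgebraicClosure K) ∘ x₁) :=
    hx₁.algebraMap_comp
  obtain ⟨G₁, hG₁⟩ := Pool.Agent.W636.PG.exists_duals k (AlgebraicClosure K) n _ hxΩ₁
  obtain ⟨E₁, hE₁⟩ := Pool.Agent.W636.PG.exists_duals k K n _ hx₁
  obtain ⟨H₁, hH₁⟩ := exists_exts (L := L) hn E₁
  choose t ht using fun j => Pool.Agent.W636.PG.exists_basis k (Y j) (y j) (h j).dim
  choose F hF using fun j => Pool.Agent.W636.PG.exists_duals k (Y j) (y j) _ (ht j)
  obtain ⟨D, hD, hm⟩ := mats hn h hd' hdd hBL hs hx₁ hG₁ hE₁ hH₁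
  obtain ⟨X, e, hdet, hMM⟩ := hm t ht
  have hprod : ∀ P : Fin r → ℕ, ∏ a : Cps L c D, P a.1.1 =
      ∏ j, P j ^ (Nat.card (L ≃ₐ[K] L) * (D * c j)) := by
    intro P
    rw [Fintype.prod_sigma, Fintype.prod_prod_type]
    refine Finset.prod_congr rfl fun j _ => ?_
    show ∏ _σ : (L ≃ₐ[K] L), ∏ _x : Fin (D * c j), P j = _
    rw [Finset.prod_const, Finset.prod_const, Finset.card_univ, Finset.card_univ,
      Fintype.card_fin, ← pow_mul, ← Nat.card_eq_fintype_card, mul_comm]
  refine ⟨D, hD, fun S => ?_, fun hL δ δY hram T M P hP hM => ?_⟩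
  · let S₁ : ∀ j, Finset (Y j) := fun j => insert 1 (S j)
    let b₁ := Module.finBasis K L
    let Z₁ : Set L := Set.range fun s : (∀ a : Cps L c D, S₁ a.1.1) =>
      ∏ a : Cps L c D, a.1.2 ((s a : Y a.1.1) : L)
    obtain ⟨S', -, hS'⟩ := exists_divisor (k := k) (K := K) (Set.range b₁ ∪ Z₁)
      ((Set.finite_range _).union (Set.finite_range _))
    refine ⟨S', fun δ δY hram T b M P hP hM => ?_⟩
    choose ω hli hω using hP
    have hω' : ∀ j l, PairSec k (Y j) (y j) (δY j) (S₁ j) T b (ω j l) := by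
      refine fun j l => ⟨(hω j l).1, fun v hv Z hZ => ?_⟩
      rcases (hω j l).2 v hv Z hZ with h0 | ⟨s, hs, hs0, h1⟩
      · exact Or.inl h0
      · exact Or.inr ⟨s, Finset.mem_insert_of_mem hs, hs0, h1⟩
    obtain ⟨m, i, hi, hle⟩ := core hxΩ₁ hG₁ h ht hF X e hdet hω' hli (pow_ne_zero T hMM)
    have hmM : m ≤ Module.finrank K L * M := by
      refine trace_count hi b₁ fun q M' l hl => hM M' ⟨_, form_indep
        (m := T * (d' * Nat.card (L ≃ₐ[K] L) * D)) hE₁ hl, fun j => ?_⟩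
      refine tr_sec hess hn (fun j => (h j).dim) hram rfl X e ht hF
        (fun j => Finset.mem_insert_self 1 (S j)) (fun a => hω' a.1.1 (i (l j) a)) hx₁ hE₁ hH₁
        (Or.inl rfl) fun w v a₀ hov => ?_
      obtain ⟨s, hs, hs0, hsv, h1⟩ := hS' w v a₀ hov
      refine ⟨s, hs, hs0, hsv, fun σ => h1 _ (Or.inl ⟨q, rfl⟩) σ, fun s' hs' σ => ?_⟩
      refine (h1 (∏ a : Cps L c D, a.1.2 (s' a : L)) (Or.inr ⟨fun a => ⟨s' a, (hs' a).1⟩, rfl⟩)
        σ).resolve_left ?_
      rw [Finset.prod_eq_zero_iff]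
      rintro ⟨a, -, ha⟩
      exact (hs' a).2 (Subtype.ext ((map_eq_zero_iff _ a.1.2.injective).1 ha))
    rw [← hprod]
    exact hle.trans (Nat.pow_le_pow_left hmM _)
  · have hfr : Module.finrank K L = 1 := by
      rw [hL]
      exact IntermediateField.finrank_bot
    have hcard : Nat.card (L ≃ₐ[K] L) = 1 := by
      rw [IsGalois.card_aut_eq_finrank, hfr]
    choose ω hli hω using hP
    obtain ⟨m, i, hi, hle⟩ := core hxΩ₁ hG₁ h ht hF X e hdet hω hli (pow_ne_zero T hMM)
    have htr : ∀ x : L, algebraMap K L (Algebra.trace K L x) = x := by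
      intro x
      obtain ⟨x', hx'⟩ : ∃ x' : K, algebraMap K L x' = x := by
        have h1 : (x : AlgebraicClosure K) ∈ (⊥ : IntermediateField K (AlgebraicClosure K)) := by
          rw [← hL]
          exact x.2
        obtain ⟨x', hx'⟩ := IntermediateField.mem_bot.1 h1
        exact ⟨x', Subtype.ext hx'⟩
      rw [← hx', Algebra.trace_algebraMap, hfr, one_smul]
    have hmM : m ≤ M := by
      refine hM m ⟨_, form_indep (m := T * (d' * D)) hE₁ (u := fun l => Algebra.trace K L (1 *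
        ((MM X e (fun q => t q.1) H₁).det ^ T *
          ∏ a : Cps L c D, a.1.2 (ω a.1.1 (i l a) (F a.1.1) : L)))) ?_, fun l => ?_⟩
      · rw [Fintype.linearIndependent_iff] at hi ⊢
        intro a ha
        refine hi a ?_
        have h2 := congrArg (algebraMap K L) ha
        rw [map_sum, map_zero] at h2
        rw [← h2]
        refine Finset.sum_congr rfl fun l _ => ?_
        rw [Algebra.smul_def (a l) (Algebra.trace K L _), map_mul, htr, one_mul, Algebra.smul_def,
          ← IsScalarTower.algebraMap_apply]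
      · have h1 := tr_sec (b := 0) hess hn (fun j => (h j).dim) hram rfl X e ht hF
          (fun j => Finset.mem_singleton_self (1 : Y j)) (fun a => hω a.1.1 (i l a)) hx₁ hE₁ hH₁
          (β := 1) (ε := 0) (Or.inr ⟨rfl, rfl⟩) (S' := {1}) fun w v a₀ hov => by
          refine ⟨1, Finset.mem_singleton_self _, one_ne_zero, v.ord_one.le, fun σ => Or.inr ?_,
            fun s' hs' σ => ?_⟩
          · rw [v.ord_one, map_one, w.ord_one, mul_zero]
          · have h2 : ∏ a : Cps L c D, a.1.2 (s' a : L) = 1 := by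
              refine Finset.prod_eq_one fun a _ => ?_
              rw [Finset.mem_singleton.1 (hs' a).1]
              exact map_one a.1.2
            rw [h2, v.ord_one, map_one, w.ord_one, mul_zero]
        have h2 : T * (d' * Nat.card (L ≃ₐ[K] L) * D) = T * (d' * D) := by
          rw [hcard, mul_one]
        rw [h2] at h1
        exact h1
    have h3 := hprod P
    rw [hcard] at h3
    simp only [one_mul] at h3
    rw [← h3]
    refine hle.trans ?_
    rw [hcard, mul_one]
    exact Nat.pow_le_pow_left hmM _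

end

end Pool.Agent.H891.OM
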