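import Pool.Agent.H891.OM.Shearer
import Pool.Agent.H891.OM.Point

/-! The Brascamp-Lieb condition at a point for coordinate projections. -/

set_option autoImplicit false
set_option linter.overlappingInstances false
set_option linter.unusedSectionVars false

open FF IntermediateField Pool.Agent.W619.PQ Pool.Agent.W619.TW Pool.Agent.Y174

namespace Pool.Agent.H891.OM

/-- Shearer's inequality, for all index sets -/
theorem shearer_fin {F V Q : Type*} [Field F] [AddCommGroup V] [Module F V]
    [FiniteDimensional F V] [Fintype Q] {n : ℕ} (g : Fin n → V →ₗ[F] F) (U : Submodule F V)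
    (hg : zr g Finset.univ = ⊥) (S : Q → Finset (Fin n)) {c : Q → ℕ} {d : ℕ}
    (hd : ∀ i, ∑ q ∈ Finset.univ.filter (fun q => i ∉ S q), c q = d) :
    ∑ q, c q * Module.finrank F (U ⊓ zr g (S q) : Submodule F V) ≤ d * Module.finrank F U := by
  classical
  let e := Fintype.equivFin Q
  have h1 := shearer_lin g U hg (fun j => S (e.symm j)) (c := fun j => c (e.symm j)) (d := d)
    fun i => by
      rw [Finset.sum_filter]
      have h2 := Equiv.sum_comp e.symm fun q => if i ∉ S q then c q else 0
      rw [h2, ← Finset.sum_filter]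
      exact hd i
  have h2 := Equiv.sum_comp e.symm fun q =>
    c q * Module.finrank F (U ⊓ zr g (S q) : Submodule F V)
  rw [← h2]
  exact h1

section

variable {k : Type} {K : Type} [Field k] [Field K] [Algebra k K]
  {L : IntermediateField K (AlgebraicClosure K)} {r n : ℕ} {c y : Fin r → ℕ}
  [FiniteDimensional K L] {R : Subalgebra k L} {ε : R →ₐ[k] k} {z : Fin n → L}
  {H : Fin n → Derivation k L L}

open scoped Classical in
/-- **The Brascamp-Lieb condition at a point for coordinate projections.** -/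
theorem pt_shearer (hpt : IsPoint R z H) {s : ∀ q : Fin r × (L ≃ₐ[K] L), Fin (y q.1) → L}
    {S : Fin r × (L ≃ₐ[K] L) → Finset (Fin n)} {d' : ℕ} (hS : ∀ q, ∀ i ∈ S q, ∃ l, s q l = z i)
    (hy : ∀ q, (S q).card = y q.1)
    (hc : ∀ i, ∑ q ∈ Finset.univ.filter (fun q : Fin r × (L ≃ₐ[K] L) => i ∈ S q), c q.1 =
      d' * Nat.card (L ≃ₐ[K] L)) :
    ∑ j, c j * y j = n * d' ∧ BLPoint R ε H s c d' := by
  have hg0 : 0 < Nat.card (L ≃ₐ[K] L) := Nat.card_pos
  constructor
  · have h1 : ∑ q : Fin r × (L ≃ₐ[K] L), c q.1 * y q.1 = n * (d' * Nat.card (L ≃ₐ[K] L)) := by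
      calc ∑ q : Fin r × (L ≃ₐ[K] L), c q.1 * y q.1
          = ∑ q : Fin r × (L ≃ₐ[K] L), ∑ i, (if i ∈ S q then c q.1 else 0) := by
            refine Finset.sum_congr rfl fun q _ => ?_
            rw [← hy q, ← Finset.sum_filter, Finset.sum_const, smul_eq_mul, mul_comm]
            congr 1
            congr 1
            ext i
            simp
        _ = ∑ i, ∑ q : Fin r × (L ≃ₐ[K] L), (if i ∈ S q then c q.1 else 0) := Finset.sum_comm
        _ = ∑ _i : Fin n, d' * Nat.card (L ≃ₐ[K] L) := by
            refine Finset.sum_congr rfl fun i _ => ?_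
            rw [← Finset.sum_filter, hc]
        _ = _ := by rw [Finset.sum_const, Finset.card_univ, Fintype.card_fin, smul_eq_mul]
    have h2 : ∑ q : Fin r × (L ≃ₐ[K] L), c q.1 * y q.1 =
        (∑ j, c j * y j) * Nat.card (L ≃ₐ[K] L) := by
      rw [Fintype.sum_prod_type, Finset.sum_mul]
      refine Finset.sum_congr rfl fun j _ => ?_
      show ∑ _σ : L ≃ₐ[K] L, c j * y j = _
      rw [Finset.sum_const, Finset.card_univ, ← Nat.card_eq_fintype_card, smul_eq_mul, mul_comm]
    rw [h2, ← mul_assoc] at h1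
    exact Nat.eq_of_mul_eq_mul_right hg0 h1
  · intro U
    let g : Fin n → (Fin n → k) →ₗ[k] k := fun i => LinearMap.proj i
    have hg : zr g Finset.univ = ⊥ := by
      rw [eq_bot_iff]
      intro v hv
      rw [mem_zr] at hv
      rw [Submodule.mem_bot]
      funext i
      exact hv i (Finset.mem_univ i)
    have h0 : ∀ i, ∑ q ∈ Finset.univ.filter (fun q : Fin r × (L ≃ₐ[K] L) => i ∈ S q), c q.1 +
        ∑ q ∈ Finset.univ.filter (fun q : Fin r × (L ≃ₐ[K] L) => i ∉ S q), c q.1 =
          ∑ q : Fin r × (L ≃ₐ[K] L), c q.1 := fun i =>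
      Finset.sum_filter_add_sum_filter_not _ _ _
    have h1 := shearer_fin g U hg S (c := fun q => c q.1)
      (d := ∑ q : Fin r × (L ≃ₐ[K] L), c q.1 - d' * Nat.card (L ≃ₐ[K] L)) fun i => by
        have h2 := h0 i
        rw [hc i] at h2
        omega
    have h2 : ∑ q : Fin r × (L ≃ₐ[K] L), c q.1 *
        Module.finrank k (U ⊓ TanPt R ε H s q : Submodule _ _) ≤
          ∑ q : Fin r × (L ≃ₐ[K] L), c q.1 * Module.finrank k (U ⊓ zr g (S q) : Submodule _ _) := by
      refine Finset.sum_le_sum fun q _ => Nat.mul_le_mul_left _ ?_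
      refine Submodule.finrank_mono (inf_le_inf_left U fun v hv => ?_)
      rw [mem_zr]
      intro i hi
      obtain ⟨l, hl⟩ := hS q i hi
      have h3 : ∑ i', v i' * val R ε (H i' (s q l)) = 0 := hv l
      rw [hl, Finset.sum_eq_single i] at h3
      · rw [hpt.dual, if_pos rfl, val_mem R.one_mem] at h3
        have h4 : (⟨1, R.one_mem⟩ : R) = 1 := rfl
        rw [h4, map_one, mul_one] at h3
        exact h3
      · intro i' _ hi'
        rw [hpt.dual, if_neg hi', val_mem R.zero_mem]
        have h4 : (⟨0, R.zero_mem⟩ : R) = 0 := rfl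
        rw [h4, map_zero, mul_zero]
      · intro h
        exact (h (Finset.mem_univ _)).elim
    have h3 : d' * Nat.card (L ≃ₐ[K] L) ≤ ∑ q : Fin r × (L ≃ₐ[K] L), c q.1 ∨
        Module.finrank k U = 0 := by
      by_cases hn : n = 0
      · right
        subst hn
        have h4 : Module.finrank k U ≤ Module.finrank k (Fin 0 → k) := Submodule.finrank_le _
        rw [Module.finrank_fin_fun] at h4
        omega
      · left
        have h4 := h0 ⟨0, by omega⟩
        rw [hc] at h4
        omega
    rw [← Finset.sum_mul]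
    rcases h3 with h3 | h3
    · have h4 := Nat.sub_add_cancel h3
      have h5 : d' * Nat.card (L ≃ₐ[K] L) * Module.finrank k U +
          (∑ q : Fin r × (L ≃ₐ[K] L), c q.1 - d' * Nat.card (L ≃ₐ[K] L)) * Module.finrank k U =
            (∑ q : Fin r × (L ≃ₐ[K] L), c q.1) * Module.finrank k U := by
        rw [← add_mul, add_comm, h4]
      rw [← h5]
      exact Nat.add_le_add_left (h2.trans h1) _
    · rw [h3, mul_zero, mul_zero, zero_add]
      rw [h3, mul_zero] at h1
      exact h2.trans h1

end

end Pool.Agent.H891.OM
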