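import Pool.Agent.H891.BL.FlagC

/-! The Brascamp-Lieb condition for coordinate projections (Loomis-Whitney, Finner, Shearer). -/

set_option autoImplicit false
set_option linter.overlappingInstances false
set_option linter.unusedSectionVars false

open FF IntermediateField Algebra Pool.Agent.W619.PQ Pool.Agent.W619.PL Pool.Agent.W619.TW
  Pool.Agent.W603.LV Pool.Agent.W619.Y Pool.Agent.Y174 Pool.Agent.Y173.QA Pool.Agent.H891.KS
  Pool.Agent.H891.TY Pool.Agent.H891.RF Pool.Agent.H891.BL

namespace Pool.Agent.H891.OM

section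

variable {F V : Type*} [Field F] [AddCommGroup V] [Module F V] [FiniteDimensional F V]

theorem rank_step (M : Submodule F V) (g : V →ₗ[F] F) :
    Module.finrank F (M ⊓ LinearMap.ker g : Submodule F V) + Module.finrank F (M.map g) =
      Module.finrank F M := by
  have h1 := LinearMap.finrank_range_add_finrank_ker (g.domRestrict M)
  have h2 : LinearMap.range (g.domRestrict M) = M.map g := by
    rw [LinearMap.range_domRestrict]
  have h3 : (LinearMap.ker (g.domRestrict M)).map M.subtype = M ⊓ LinearMap.ker g := by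
    ext x
    constructor
    · rintro ⟨⟨y, hy⟩, hy', rfl⟩
      exact ⟨hy, hy'⟩
    · rintro ⟨hx, hx'⟩
      exact ⟨⟨x, hx⟩, hx', rfl⟩
  have h4 := Submodule.finrank_map_subtype_eq M (LinearMap.ker (g.domRestrict M))
  rw [h3] at h4
  rw [h2] at h1
  omega

variable {n : ℕ} (g : Fin n → V →ₗ[F] F)

/-- the common zeros -/
def zr (A : Finset (Fin n)) : Submodule F V := ⨅ i ∈ A, LinearMap.ker (g i)

theorem mem_zr (A : Finset (Fin n)) (x : V) : x ∈ zr g A ↔ ∀ i ∈ A, g i x = 0 := by
  unfold zr
  simp only [Submodule.mem_iInf, LinearMap.mem_ker]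

/-- the first coordinates -/
def fst (n t : ℕ) : Finset (Fin n) := Finset.univ.filter fun i => i.val < t

theorem fst_succ {t : ℕ} (ht : t < n) : fst n (t + 1) = insert ⟨t, ht⟩ (fst n t) := by
  ext i
  simp only [fst, Finset.mem_filter, Finset.mem_univ, true_and, Finset.mem_insert, Fin.ext_iff]
  omega

theorem zr_insert (i : Fin n) (A : Finset (Fin n)) :
    zr g (insert i A) = zr g A ⊓ LinearMap.ker (g i) := by
  ext x
  rw [Submodule.mem_inf, mem_zr, mem_zr, LinearMap.mem_ker]
  simp only [Finset.mem_insert, forall_eq_or_imp]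
  exact and_comm

variable (U : Submodule F V)

/-- the increments -/
noncomputable def inc (i : Fin n) (A : Finset (Fin n)) : ℕ :=
  Module.finrank F ((U ⊓ zr g A).map (g i))

theorem inc_mono {i : Fin n} {A A' : Finset (Fin n)} (h : A' ⊆ A) :
    inc g U i A ≤ inc g U i A' := by
  refine Submodule.finrank_mono (Submodule.map_mono (inf_le_inf_left U ?_))
  intro x hx
  rw [mem_zr] at hx ⊢
  exact fun i hi => hx i (h hi)

theorem rank_insert (i : Fin n) (A : Finset (Fin n)) :
    Module.finrank F (U ⊓ zr g (insert i A) : Submodule F V) + inc g U i A =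
      Module.finrank F (U ⊓ zr g A : Submodule F V) := by
  rw [zr_insert, ← inf_assoc]
  exact rank_step _ _

theorem chain_le (S : Finset (Fin n)) (t : ℕ) (ht : t ≤ n) :
    Module.finrank F (U ⊓ zr g S : Submodule F V) ≤
      ∑ i ∈ fst n t \ S, inc g U i (fst n i.val) +
        Module.finrank F (U ⊓ zr g (S ∪ fst n t) : Submodule F V) := by
  induction t with
  | zero =>
    have h1 : fst n 0 = ∅ := by
      ext i
      simp [fst]
    rw [h1, Finset.union_empty]
    exact Nat.le_add_left _ _
  | succ t ih =>
    have ih := ih (by omega)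
    have htn : t < n := by omega
    rw [fst_succ htn]
    by_cases hS : (⟨t, htn⟩ : Fin n) ∈ S
    · have h1 : insert (⟨t, htn⟩ : Fin n) (fst n t) \ S = fst n t \ S := by
        rw [Finset.insert_sdiff_of_mem _ hS]
      have h2 : S ∪ insert (⟨t, htn⟩ : Fin n) (fst n t) = S ∪ fst n t := by
        ext i
        simp only [Finset.mem_union, Finset.mem_insert]
        constructor
        · rintro (h | rfl | h)
          · exact Or.inl h
          · exact Or.inl hS
          · exact Or.inr h
        · rintro (h | h)
          · exact Or.inl h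
          · exact Or.inr (Or.inr h)
      rw [h1, h2]
      exact ih
    · have h1 : insert (⟨t, htn⟩ : Fin n) (fst n t) \ S =
          insert (⟨t, htn⟩ : Fin n) (fst n t \ S) := Finset.insert_sdiff_of_notMem _ hS
      have h2 : S ∪ insert (⟨t, htn⟩ : Fin n) (fst n t) = insert ⟨t, htn⟩ (S ∪ fst n t) := by
        rw [Finset.union_insert]
      have h3 : (⟨t, htn⟩ : Fin n) ∉ fst n t \ S := by
        simp [fst]
      rw [h1, h2, Finset.sum_insert h3]
      have h4 := rank_insert g U ⟨t, htn⟩ (S ∪ fst n t)
      have h5 : inc g U ⟨t, htn⟩ (S ∪ fst n t) ≤ inc g U ⟨t, htn⟩ (fst n t) :=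
        inc_mono g U Finset.subset_union_right
      show _ ≤ inc g U ⟨t, htn⟩ (fst n t) + _ + _
      omega

theorem chain_eq (t : ℕ) (ht : t ≤ n) :
    Module.finrank F U = ∑ i ∈ fst n t, inc g U i (fst n i.val) +
      Module.finrank F (U ⊓ zr g (fst n t) : Submodule F V) := by
  induction t with
  | zero =>
    have h1 : fst n 0 = ∅ := by
      ext i
      simp [fst]
    have h2 : zr g ∅ = ⊤ := by
      unfold zr
      simp
    rw [h1, Finset.sum_empty, zero_add, h2, inf_top_eq]
  | succ t ih =>
    have htn : t < n := by omega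
    have h3 : (⟨t, htn⟩ : Fin n) ∉ fst n t := by
      simp [fst]
    rw [fst_succ htn, Finset.sum_insert h3, ih (by omega)]
    have h4 := rank_insert g U ⟨t, htn⟩ (fst n t)
    show _ = inc g U ⟨t, htn⟩ (fst n t) + _ + _
    omega

/-- **Shearer's inequality** for the dimensions of the projections of a subspace. -/
theorem shearer_lin (hg : zr g Finset.univ = ⊥) {r : ℕ} (S : Fin r → Finset (Fin n))
    {c : Fin r → ℕ} {d : ℕ} (hd : ∀ i, ∑ j ∈ Finset.univ.filter (fun j => i ∉ S j), c j = d) :
    ∑ j, c j * Module.finrank F (U ⊓ zr g (S j) : Submodule F V) ≤ d * Module.finrank F U := by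
  classical
  have hn : fst n n = Finset.univ := by
    ext i
    simp [fst]
  let ε : Fin n → ℕ := fun i => inc g U i (fst n i.val)
  have h1 : ∀ j, Module.finrank F (U ⊓ zr g (S j) : Submodule F V) ≤
      ∑ i ∈ Finset.univ \ S j, ε i := by
    intro j
    have h2 := chain_le g U (S j) n le_rfl
    rw [hn, Finset.union_eq_right.2 (Finset.subset_univ _), hg, inf_bot_eq, finrank_bot,
      add_zero] at h2
    exact h2
  have h2 : ∑ i, ε i ≤ Module.finrank F U := by
    have h3 := chain_eq g U n le_rfl
    rw [hn] at h3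
    rw [h3]
    exact Nat.le_add_right _ _
  calc ∑ j, c j * Module.finrank F (U ⊓ zr g (S j) : Submodule F V)
      ≤ ∑ j, c j * ∑ i ∈ Finset.univ \ S j, ε i :=
        Finset.sum_le_sum fun j _ => Nat.mul_le_mul_left _ (h1 j)
    _ = ∑ j, ∑ i, (if i ∉ S j then c j * ε i else 0) := by
        refine Finset.sum_congr rfl fun j _ => ?_
        rw [Finset.mul_sum, ← Finset.sum_filter]
        refine Finset.sum_congr ?_ fun _ _ => rfl
        ext i
        simp
    _ = ∑ i, ∑ j, (if i ∉ S j then c j * ε i else 0) := Finset.sum_comm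
    _ = ∑ i, d * ε i := by
        refine Finset.sum_congr rfl fun i _ => ?_
        rw [← Finset.sum_filter, ← Finset.sum_mul, hd]
    _ = d * ∑ i, ε i := (Finset.mul_sum _ _ _).symm
    _ ≤ _ := Nat.mul_le_mul_left _ h2

end

section

variable {k : Type} {K : Type} [Field k] [Field K] [Algebra k K] [CharZero k] {n : ℕ}

/-- **The Brascamp-Lieb condition for coordinate projections.** -/
theorem shearer {z : Fin n → AlgebraicClosure K} (hz : IsTranscendenceBasis k z) {r : ℕ}
    {B : Fin r → IntermediateField k (AlgebraicClosure K)} {f c : Fin r → ℕ}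
    {S : Fin r → Finset (Fin n)} {d : ℕ} (hS : ∀ j, ∀ i ∈ S j, z i ∈ B j)
    (hf : ∀ j, f j + (S j).card = n)
    (hd : ∀ i, ∑ j ∈ Finset.univ.filter (fun j => i ∉ S j), c j = d) :
    ∑ j, c j * f j = d * n ∧ BLDist n B f c d := by
  classical
  obtain ⟨G, hG⟩ := Pool.Agent.W636.PG.exists_duals k (AlgebraicClosure K) n _ hz
  have hfd : FiniteDimensional (AlgebraicClosure K)
      (Derivation k (AlgebraicClosure K) (AlgebraicClosure K)) :=
    LinearEquiv.finiteDimensional (vec hz hG).symm
  have hcf : ∑ j, c j * f j = d * n := by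
    have h1 : ∀ j, f j = ∑ i, (if i ∉ S j then 1 else 0) := by
      intro j
      rw [← Finset.sum_filter, Finset.sum_const, smul_eq_mul, mul_one]
      have h2 : (Finset.univ.filter fun i => i ∉ S j) = (S j)ᶜ := by
        ext i
        simp
      have h3 := hf j
      rw [h2, Finset.card_compl, Fintype.card_fin]
      omega
    calc ∑ j, c j * f j = ∑ j, ∑ i, (if i ∉ S j then c j else 0) := by
          refine Finset.sum_congr rfl fun j _ => ?_
          rw [h1 j, Finset.mul_sum]
          refine Finset.sum_congr rfl fun i _ => ?_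
          rw [mul_ite, mul_one, mul_zero]
      _ = ∑ i, ∑ j, (if i ∉ S j then c j else 0) := Finset.sum_comm
      _ = ∑ _i : Fin n, d := by
          refine Finset.sum_congr rfl fun i _ => ?_
          rw [← Finset.sum_filter, hd]
      _ = d * n := by
          rw [Finset.sum_const, Finset.card_univ, Fintype.card_fin, smul_eq_mul, mul_comm]
  refine ⟨hcf, fun U _ => ?_⟩
  let g : Fin n → Derivation k (AlgebraicClosure K) (AlgebraicClosure K) →ₗ[AlgebraicClosure K]
      AlgebraicClosure K := fun i =>
    { toFun := fun D => D (z i)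
      map_add' := fun D D' => rfl
      map_smul' := fun c D => rfl }
  have hg : zr g Finset.univ = ⊥ := by
    rw [eq_bot_iff]
    intro D hD
    rw [mem_zr] at hD
    rw [Submodule.mem_bot, der_expand hz hG D]
    refine Finset.sum_eq_zero fun i _ => ?_
    have h1 : D (z i) = 0 := hD i (Finset.mem_univ i)
    rw [h1, zero_smul]
  have h1 := shearer_lin g U hg S hd
  have h2 : ∑ j, c j * Module.finrank (AlgebraicClosure K) (U ⊓ Tan (B j) : Submodule _ _) ≤
      ∑ j, c j * Module.finrank (AlgebraicClosure K) (U ⊓ zr g (S j) : Submodule _ _) := by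
    refine Finset.sum_le_sum fun j _ => Nat.mul_le_mul_left _ ?_
    refine Submodule.finrank_mono (inf_le_inf_left U fun D hD => ?_)
    rw [mem_zr]
    exact fun i hi => hD _ (hS j i hi)
  omega

end

end Pool.Agent.H891.OM
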